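import Mathlib

namespace Pool.Agent.Q224.DelSun

open Finset

/-- `c_k(n) = C(n,k) C(n+k,k)` written as `C(n+k,2k) C(2k,k)`. -/
def c (k n : ℕ) : ℤ := ((n + k).choose (2 * k) : ℤ) * ((2 * k).choose k : ℤ)

lemma c_eq (k n : ℕ) : c k n = (n.choose k : ℤ) * ((n + k).choose k : ℤ) := by
  unfold c
  rcases le_or_gt k n with h | h
  · have h1 := Nat.choose_mul (n := n + k) (k := 2 * k) (s := k) (by omega)
    have h2 : n + k - k = n := by omega
    have h3 : 2 * k - k = k := by omega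
    rw [h2, h3] at h1
    rw [mul_comm (n.choose k : ℤ)]
    exact_mod_cast h1
  · rw [Nat.choose_eq_zero_of_lt (show n + k < 2 * k by omega), Nat.choose_eq_zero_of_lt h]
    simp

lemma c_zero_left (n : ℕ) : c 0 n = 1 := by simp [c]

lemma c_eq_zero {k n : ℕ} (h : n < k) : c k n = 0 := by
  unfold c
  rw [Nat.choose_eq_zero_of_lt (show n + k < 2 * k by omega)]
  simp

lemma central_succ (k : ℕ) :
    ((k : ℤ) + 1) * ((2 * (k + 1)).choose (k + 1) : ℤ) = 2 * (2 * k + 1) * ((2 * k).choose k : ℤ) := by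
  have := Nat.succ_mul_centralBinom_succ k
  unfold Nat.centralBinom at this
  exact_mod_cast this

/-- The second difference of `c_{k+1}`. -/
lemma secdiff (k n : ℕ) :
    ((k : ℤ) + 1) * (c (k + 1) (n + 2) - 2 * c (k + 1) (n + 1) + c (k + 1) n) =
      2 * (2 * k + 1) * c k (n + 1) := by
  have e1 : (n + 2 + (k + 1)).choose (2 * (k + 1)) =
      (n + 1 + k).choose (2 * k) + 2 * (n + 1 + k).choose (2 * k + 1)
        + (n + 1 + k).choose (2 * k + 2) := by
    have h1 : n + 2 + (k + 1) = (n + 1 + k) + 1 + 1 := by ring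
    have h2 : 2 * (k + 1) = (2 * k + 1) + 1 := by ring
    rw [h1, h2, Nat.choose_succ_succ, Nat.choose_succ_succ, Nat.choose_succ_succ]
    ring
  have e2 : (n + 1 + (k + 1)).choose (2 * (k + 1)) =
      (n + 1 + k).choose (2 * k + 1) + (n + 1 + k).choose (2 * k + 2) := by
    have h1 : n + 1 + (k + 1) = (n + 1 + k) + 1 := by ring
    have h2 : 2 * (k + 1) = (2 * k + 1) + 1 := by ring
    rw [h1, h2, Nat.choose_succ_succ]
  have e3 : (n + (k + 1)).choose (2 * (k + 1)) = (n + 1 + k).choose (2 * k + 2) := by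
    have h1 : n + (k + 1) = n + 1 + k := by ring
    have h2 : 2 * (k + 1) = 2 * k + 2 := by ring
    rw [h1, h2]
  have hc := central_succ k
  unfold c
  rw [e1, e2, e3]
  push_cast
  linear_combination ((n + 1 + k).choose (2 * k) : ℤ) * hc

/-- Legendre recurrence. -/
lemma legendre (j q : ℕ) :
    ((q : ℤ) + 2) * c (j + 1) (q + 2) + (q + 1) * c (j + 1) q =
      (2 * q + 3) * (c (j + 1) (q + 1) + 2 * c j (q + 1)) := by
  have e1 : (q + 2 + (j + 1)).choose (2 * (j + 1)) =
      (q + 1 + j).choose (2 * j) + 2 * (q + 1 + j).choose (2 * j + 1)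
        + (q + 1 + j).choose (2 * j + 2) := by
    have h1 : q + 2 + (j + 1) = (q + 1 + j) + 1 + 1 := by ring
    have h2 : 2 * (j + 1) = (2 * j + 1) + 1 := by ring
    rw [h1, h2, Nat.choose_succ_succ, Nat.choose_succ_succ, Nat.choose_succ_succ]
    ring
  have e2 : (q + 1 + (j + 1)).choose (2 * (j + 1)) =
      (q + 1 + j).choose (2 * j + 1) + (q + 1 + j).choose (2 * j + 2) := by
    have h1 : q + 1 + (j + 1) = (q + 1 + j) + 1 := by ring
    have h2 : 2 * (j + 1) = (2 * j + 1) + 1 := by ring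
    rw [h1, h2, Nat.choose_succ_succ]
  have e3 : (q + (j + 1)).choose (2 * (j + 1)) = (q + 1 + j).choose (2 * j + 2) := by
    have h1 : q + (j + 1) = q + 1 + j := by ring
    have h2 : 2 * (j + 1) = 2 * j + 2 := by ring
    rw [h1, h2]
  have h4 : (2 * (j : ℤ) + 1) * ((q + 1 + j).choose (2 * j + 1) : ℤ) =
      (q + 1 - j) * ((q + 1 + j).choose (2 * j) : ℤ) := by
    have h5 := Nat.choose_succ_right_eq (q + 1 + j) (2 * j)
    rcases le_or_gt j (q + 1) with h | h
    · obtain ⟨r, hr⟩ : ∃ r, q + 1 = j + r := ⟨q + 1 - j, by omega⟩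
      have h6 : q + 1 + j - 2 * j = r := by omega
      rw [h6] at h5
      have h7 : ((q : ℤ) + 1 - j) = r := by
        have : ((q : ℤ) + 1) = j + r := by exact_mod_cast hr
        linarith
      rw [h7]
      have h8 : (((q + 1 + j).choose (2 * j + 1) : ℕ) : ℤ) * (2 * (j : ℤ) + 1) =
          ((q + 1 + j).choose (2 * j) : ℤ) * r := by exact_mod_cast h5
      linarith
    · rw [Nat.choose_eq_zero_of_lt (show q + 1 + j < 2 * j by omega),
        Nat.choose_eq_zero_of_lt (show q + 1 + j < 2 * j + 1 by omega)]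
      simp
  have hc := central_succ j
  have hj : (2 * (j : ℤ) + 1) ≠ 0 := by positivity
  apply mul_left_cancel₀ hj
  unfold c
  rw [e1, e2, e3]
  push_cast
  set A : ℤ := ((q + 1 + j).choose (2 * j) : ℤ)
  set B : ℤ := ((q + 1 + j).choose (2 * j + 1) : ℤ)
  set E : ℤ := ((q + 1 + j).choose (2 * j + 2) : ℤ)
  set Z : ℤ := ((2 * (j + 1)).choose (j + 1) : ℤ)
  set Y : ℤ := ((2 * j).choose j : ℤ)
  linear_combination Z * h4 + (2 * (q : ℤ) + 3) * A * hc

/-- Multiplication by `n (n+1)`. -/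
lemma c_succ (k n : ℕ) :
    ((k : ℤ) + 1) ^ 2 * c (k + 1) n = ((n : ℤ) * (n + 1) - k * (k + 1)) * c k n := by
  have hc := central_succ k
  unfold c
  -- C(n+k+1, 2k+2) (2k+1)(2k+2) = (n+k+1)(n-k) C(n+k, 2k)
  have h1 : (2 * (k : ℤ) + 2) * ((n + (k + 1)).choose (2 * (k + 1)) : ℤ) =
      (n + k + 1) * ((n + k).choose (2 * k + 1) : ℤ) := by
    have h := Nat.add_one_mul_choose_eq (n + k) (2 * k + 1)
    have h' : n + (k + 1) = (n + k).succ := by omega
    have h'' : 2 * (k + 1) = (2 * k + 1).succ := by omega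
    rw [h', h'']
    have : ((n + k).succ : ℤ) * ((n + k).choose (2 * k + 1) : ℤ) =
      ((n + k).succ.choose (2 * k + 1).succ : ℤ) * ((2 * k + 1).succ : ℤ) := by exact_mod_cast h
    push_cast at this ⊢
    linarith
  have h2 : (2 * (k : ℤ) + 1) * ((n + k).choose (2 * k + 1) : ℤ) =
      (n - k) * ((n + k).choose (2 * k) : ℤ) := by
    have h5 := Nat.choose_succ_right_eq (n + k) (2 * k)
    rcases le_or_gt k n with h | h
    · obtain ⟨r, hr⟩ : ∃ r, n = k + r := ⟨n - k, by omega⟩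
      have h6 : n + k - 2 * k = r := by omega
      rw [h6] at h5
      have h7 : ((n : ℤ) - k) = r := by
        have : (n : ℤ) = k + r := by exact_mod_cast hr
        linarith
      rw [h7]
      have h8 : (((n + k).choose (2 * k + 1) : ℕ) : ℤ) * (2 * (k : ℤ) + 1) =
          ((n + k).choose (2 * k) : ℤ) * r := by exact_mod_cast h5
      linarith
    · rw [Nat.choose_eq_zero_of_lt (show n + k < 2 * k by omega),
        Nat.choose_eq_zero_of_lt (show n + k < 2 * k + 1 by omega)]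
      simp
  set A : ℤ := ((n + (k + 1)).choose (2 * (k + 1)) : ℤ)
  set B : ℤ := ((n + k).choose (2 * k + 1) : ℤ)
  set E : ℤ := ((n + k).choose (2 * k) : ℤ)
  set Z : ℤ := ((2 * (k + 1)).choose (k + 1) : ℤ)
  set Y : ℤ := ((2 * k).choose k : ℤ)
  -- (k+1)^2 A Z ; (k+1) Z = 2(2k+1) Y ; (2k+2) A = (n+k+1) B ; (2k+1) B = (n-k) E
  linear_combination (k + 1 : ℤ) * A * hc + (2 * (k : ℤ) + 1) * Y * h1 + (n + k + 1 : ℤ) * Y * h2

end Pool.Agent.Q224.DelSun
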