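import Mathlib
import Pool.Agent.Q224.DelSunA

namespace Pool.Agent.Q224.DelSun

open Finset PowerSeries

section general

variable {R : Type*} [CommRing R] (a ai : R)

/-- `(1 - μ)⁻¹` -/
noncomputable def mi : R⟦X⟧ := mk 1
/-- `μ (2 - a μ)` -/
noncomputable def U : R⟦X⟧ := X * (2 - C a * X)
noncomputable def V : R⟦X⟧ := U a * C ai * mi ^ 2
noncomputable def F (k : ℕ) : R⟦X⟧ := V a ai ^ k * (C ai * mi)

lemma mi_mu : (mi : R⟦X⟧) * (1 - X) = 1 := mk_one_mul_one_sub_eq_one R

lemma D_mi : (PowerSeries.derivative R) (mi : R⟦X⟧) = mi ^ 2 := by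
  have h1 : (PowerSeries.derivative R) ((mi : R⟦X⟧) * (1 - X)) = 0 := by rw [mi_mu]; exact derivative_one
  rw [Derivation.leibniz, map_sub, derivative_one, derivative_X] at h1
  simp only [smul_eq_mul] at h1
  have h2 := mi_mu (R := R)
  linear_combination mi * h1 - ((PowerSeries.derivative R) (mi : R⟦X⟧)) * h2

lemma C_two : (C (2 : R) : R⟦X⟧) = 2 := map_ofNat C 2

lemma D_two : (PowerSeries.derivative R) (2 : R⟦X⟧) = 0 := by
  rw [← C_two]; exact derivative_C

lemma cX (G : R⟦X⟧) (q : ℕ) : coeff q (X * G) = if q = 0 then 0 else coeff (q - 1) G := by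
  rcases q with _ | q
  · simp
  · rw [coeff_succ_X_mul]; simp

lemma c2 (G : R⟦X⟧) (q : ℕ) : coeff q (2 * G) = 2 * coeff q G := by
  rw [← C_two, coeff_C_mul]

lemma D_U : (PowerSeries.derivative R) (U a) = 2 - 2 * C a * X := by
  unfold U
  rw [Derivation.leibniz, map_sub, Derivation.leibniz, D_two, derivative_C, derivative_X]
  simp only [smul_eq_mul]
  ring

lemma D_V : (PowerSeries.derivative R) (V a ai) = (PowerSeries.derivative R) (U a) * C ai * mi ^ 2 + 2 * (U a * C ai * mi ^ 3) := by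
  unfold V
  rw [Derivation.leibniz, Derivation.leibniz, derivative_C, Derivation.leibniz_pow, D_mi]
  simp only [smul_eq_mul, nsmul_eq_mul]
  push_cast
  ring

lemma F_succ (k : ℕ) : F a ai (k + 1) = F a ai k * V a ai := by
  unfold F; rw [pow_succ]; ring

lemma F_zero : F a ai 0 = C ai * mi := by unfold F; simp

lemma UDF (k : ℕ) :
    U a * (PowerSeries.derivative R) (F a ai k) =
      F a ai k * ((k : R⟦X⟧) * (PowerSeries.derivative R) (U a) + (2 * (k : R⟦X⟧) + 1) * (U a * mi)) := by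
  induction k with
  | zero =>
    rw [F_zero, Derivation.leibniz, derivative_C, D_mi]
    simp only [smul_eq_mul]
    push_cast
    ring
  | succ k ih =>
    rw [F_succ, Derivation.leibniz, D_V]
    simp only [smul_eq_mul]
    have hV : V a ai = U a * C ai * mi ^ 2 := rfl
    push_cast
    linear_combination V a ai * ih + (-(F a ai k) * ((PowerSeries.derivative R) (U a) + 2 * (U a * mi))) * hV

/-- the operators -/
noncomputable def Lam1 (G : R⟦X⟧) : R⟦X⟧ :=
  C a * ((1 - X) ^ 2 * (PowerSeries.derivative R) G - (1 - X) * G)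
noncomputable def Lam2 (G : R⟦X⟧) : R⟦X⟧ := U a * (PowerSeries.derivative R) G + (1 - C a * X) * G

lemma lam_zero : Lam1 a (F a ai 0) = 0 := by
  unfold Lam1
  rw [F_zero, Derivation.leibniz, derivative_C, D_mi]
  simp only [smul_eq_mul]
  have h1 := mi_mu (R := R)
  linear_combination (C a * (1 - X) * C ai * mi) * h1

lemma lam_rel (h : ai * a = 1) (k : ℕ) :
    (2 * (k : R⟦X⟧) + 1) * Lam1 a (F a ai (k + 1)) = (2 * k + 2) * Lam2 a (F a ai k) := by
  have h0 := UDF a ai k
  have h1 := mi_mu (R := R)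
  have h2 : (C ai : R⟦X⟧) * C a = 1 := by rw [← map_mul, h, map_one]
  have hBV : C a * (1 - X) ^ 2 * V a ai = U a := by
    unfold V
    linear_combination (U a * (1 - X) ^ 2 * mi ^ 2) * h2 + (U a * (mi * (1 - X) + 1)) * h1
  have hBV' : C a * (1 - X) ^ 2 * (PowerSeries.derivative R) (V a ai) = (PowerSeries.derivative R) (U a) + 2 * (U a * mi) := by
    rw [D_V]
    linear_combination ((PowerSeries.derivative R) (U a) * (1 - X) ^ 2 * mi ^ 2 + 2 * U a * mi ^ 3 * (1 - X) ^ 2) * h2 +
      ((PowerSeries.derivative R) (U a) * (mi * (1 - X) + 1) + 2 * U a * mi * (mi * (1 - X) + 1)) * h1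
  have hV3 : C a * (1 - X) * V a ai = U a * mi := by
    unfold V
    linear_combination (U a * (1 - X) * mi ^ 2) * h2 + (U a * mi) * h1
  have hD : (PowerSeries.derivative R) (F a ai (k + 1)) = F a ai k * (PowerSeries.derivative R) (V a ai) + V a ai * (PowerSeries.derivative R) (F a ai k) := by
    rw [F_succ, Derivation.leibniz]
    simp only [smul_eq_mul]
  have hU := D_U a
  unfold Lam1 Lam2
  rw [hD, F_succ]
  linear_combination (2 * (k : R⟦X⟧) + 1) * ((PowerSeries.derivative R) (F a ai k)) * hBV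
    + (2 * (k : R⟦X⟧) + 1) * (F a ai k) * hBV' -
    (2 * (k : R⟦X⟧) + 1) * (F a ai k) * hV3 - h0 + ((k : R⟦X⟧) + 1) * F a ai k * hU

/-- coefficient of `Lam1` -/
lemma coeff_Lam1 (G : R⟦X⟧) (q : ℕ) : coeff q (Lam1 a G) =
    a * ((q + 1) * coeff (q + 1) G - (2 * q + 1) * coeff q G + q * coeff (q - 1) G) := by
  unfold Lam1
  rw [coeff_C_mul]
  congr 1
  have e : (1 - X) ^ 2 * (PowerSeries.derivative R) G - (1 - X) * G =
      (PowerSeries.derivative R) G - X * (2 * (PowerSeries.derivative R) G) + X * (X * (PowerSeries.derivative R) G) - G + X * G := by ring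
  rw [e]
  simp only [map_add, map_sub, cX, c2, coeff_derivative]
  rcases q with _ | _ | q
  · simp
  · simp only [zero_add, if_neg one_ne_zero, Nat.sub_self, if_true]
    push_cast
    ring
  · simp only [Nat.add_sub_cancel, if_neg (Nat.succ_ne_zero _)]
    push_cast
    ring

/-- coefficient of `Lam2` -/
lemma coeff_Lam2 (G : R⟦X⟧) (q : ℕ) : coeff q (Lam2 a G) =
    (2 * q + 1) * coeff q G - a * (q * coeff (q - 1) G) := by
  unfold Lam2 U
  have e : X * (2 - C a * X) * (PowerSeries.derivative R) G + (1 - C a * X) * G =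
      X * (2 * (PowerSeries.derivative R) G) - C a * (X * (X * (PowerSeries.derivative R) G)) + G - C a * (X * G) := by ring
  rw [e]
  simp only [map_add, map_sub, cX, c2, coeff_C_mul, coeff_derivative]
  rcases q with _ | _ | q
  · simp
  · simp only [zero_add, if_neg one_ne_zero, Nat.sub_self, if_true]
    push_cast
    ring
  · simp only [Nat.add_sub_cancel, if_neg (Nat.succ_ne_zero _)]
    push_cast
    ring

lemma coeff_rel (h : ai * a = 1) (k q : ℕ) :
    (2 * (k : R) + 1) * (a * ((q + 1) * coeff (q + 1) (F a ai (k + 1))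
      - (2 * q + 1) * coeff q (F a ai (k + 1)) + q * coeff (q - 1) (F a ai (k + 1)))) =
    (2 * k + 2) * ((2 * q + 1) * coeff q (F a ai k) - a * (q * coeff (q - 1) (F a ai k))) := by
  have h1 := congrArg (coeff q) (lam_rel a ai h k)
  have e1 : (2 * (k : R⟦X⟧) + 1) * Lam1 a (F a ai (k + 1)) =
      C (2 * (k : R) + 1) * Lam1 a (F a ai (k + 1)) := by
    rw [map_add, map_mul, map_one, C_two, map_natCast]
  have e2 : (2 * (k : R⟦X⟧) + 2) * Lam2 a (F a ai k) =
      C (2 * (k : R) + 2) * Lam2 a (F a ai k) := by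
    rw [map_add, map_mul, C_two, map_natCast]
  rw [e1, e2, coeff_C_mul, coeff_C_mul, coeff_Lam1, coeff_Lam2] at h1
  exact h1

lemma coeff_rel_zero (q : ℕ) :
    a * ((q + 1) * coeff (q + 1) (F a ai 0)
      - (2 * q + 1) * coeff q (F a ai 0) + q * coeff (q - 1) (F a ai 0)) = 0 := by
  have h1 := congrArg (coeff q) (lam_zero a ai)
  rw [coeff_Lam1] at h1
  simpa using h1

lemma coeff_F_zero_zero : coeff 0 (F a ai 0) = ai := by
  rw [F_zero, coeff_C_mul, mi, coeff_mk]; simp

lemma coeff_F_succ_zero (k : ℕ) : coeff 0 (F a ai (k + 1)) = 0 := by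
  rw [F_succ]
  unfold V U
  simp

end general

end Pool.Agent.Q224.DelSun
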