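import Mathlib
import Pool.Agent.Q224.DelSunB

namespace Pool.Agent.Q224.DelSun

open Finset PowerSeries

/-- `[β^p μ^q]` of `F_k`. -/
noncomputable def f (k p q : ℕ) : ℤ :=
  coeff p (coeff q (F (1 - X : ℤ⟦X⟧) (mk 1) k))

/-- shifted version (`p - 1`). -/
noncomputable def ft (k p q : ℕ) : ℤ := if p = 0 then 0 else f k (p - 1) q

lemma coeff_one_sub_mul (g : ℤ⟦X⟧) (p : ℕ) :
    coeff p ((1 - X) * g) = coeff p g - (if p = 0 then 0 else coeff (p - 1) g) := by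
  rw [sub_mul, one_mul, map_sub, cX]

lemma f_eq_ft (k p q : ℕ) : f k p q = ft k (p + 1) q := by simp [ft]

/-- `(h1)_k` -/
noncomputable def h1 (p q k : ℕ) : ℤ :=
  (q + 1) * (ft k (p + 1) (q + 1) - ft k p (q + 1)) - (2 * q + 1) * (ft k (p + 1) q - ft k p q)
    + q * (ft k (p + 1) (q - 1) - ft k p (q - 1))

noncomputable def h2 (p q k : ℕ) : ℤ :=
  (2 * q + 1) * ft k (p + 1) q - q * (ft k (p + 1) (q - 1) - ft k p (q - 1))

lemma h1_h2 (p q k : ℕ) : (2 * (k : ℤ) + 1) * h1 p q (k + 1) = (2 * k + 2) * h2 p q k := by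
  have h := coeff_rel (R := ℤ⟦X⟧) (1 - X) (mk 1) (mk_one_mul_one_sub_eq_one ℤ) k q
  have h' := congrArg (coeff p) h
  set G1 := coeff (q + 1) (F (1 - X : ℤ⟦X⟧) (mk 1) (k + 1)) with hG1
  set G2 := coeff q (F (1 - X : ℤ⟦X⟧) (mk 1) (k + 1)) with hG2
  set G3 := coeff (q - 1) (F (1 - X : ℤ⟦X⟧) (mk 1) (k + 1)) with hG3
  set G4 := coeff q (F (1 - X : ℤ⟦X⟧) (mk 1) k) with hG4
  set G5 := coeff (q - 1) (F (1 - X : ℤ⟦X⟧) (mk 1) k) with hG5
  obtain ⟨A, hA⟩ : ∃ A : ℤ, A = 2 * k + 1 := ⟨_, rfl⟩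
  obtain ⟨A', hA'⟩ : ∃ A : ℤ, A = 2 * k + 2 := ⟨_, rfl⟩
  obtain ⟨B, hB⟩ : ∃ A : ℤ, A = q + 1 := ⟨_, rfl⟩
  obtain ⟨B', hB'⟩ : ∃ A : ℤ, A = 2 * q + 1 := ⟨_, rfl⟩
  have e1 : (2 * (k : ℤ⟦X⟧) + 1) * ((1 - X) * (((q : ℤ⟦X⟧) + 1) * G1 - (2 * (q : ℤ⟦X⟧) + 1) * G2 + (q : ℤ⟦X⟧) * G3)) =
      C A * (C B * ((1 - X) * G1) - C B' * ((1 - X) * G2)
        + C (q : ℤ) * ((1 - X) * G3)) := by
    rw [hA, hB, hB']
    simp only [map_add, map_mul, map_one, C_two, map_natCast]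
    ring
  have e2 : (2 * (k : ℤ⟦X⟧) + 2) * ((2 * (q : ℤ⟦X⟧) + 1) * G4 - (1 - X) * ((q : ℤ⟦X⟧) * G5)) =
      C A' * (C B' * G4 - C (q : ℤ) * ((1 - X) * G5)) := by
    rw [hA', hB']
    simp only [map_add, map_mul, map_one, C_two, map_natCast]
    ring
  rw [e1, e2] at h'
  simp only [coeff_C_mul, map_add, map_sub, coeff_one_sub_mul] at h'
  rw [hA, hB, hB', hA'] at h'
  unfold h1 h2
  have g : ∀ k q, ft k (p + 1) q = coeff p (coeff q (F (1 - X : ℤ⟦X⟧) (mk 1) k)) := by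
    intro k q; simp [ft, f]
  have g' : ∀ k q, ft k p q =
      if p = 0 then 0 else coeff (p - 1) (coeff q (F (1 - X : ℤ⟦X⟧) (mk 1) k)) := by
    intro k q; simp [ft, f]
  simp only [g, g']
  rw [← hG1, ← hG2, ← hG3, ← hG4, ← hG5]
  exact h'

lemma h1_zero (p q : ℕ) : h1 p q 0 = 0 := by
  have h := coeff_rel_zero (R := ℤ⟦X⟧) (1 - X) (mk 1) q
  have h' := congrArg (coeff p) h
  set G1 := coeff (q + 1) (F (1 - X : ℤ⟦X⟧) (mk 1) 0) with hG1
  set G2 := coeff q (F (1 - X : ℤ⟦X⟧) (mk 1) 0) with hG2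
  set G3 := coeff (q - 1) (F (1 - X : ℤ⟦X⟧) (mk 1) 0) with hG3
  obtain ⟨B, hB⟩ : ∃ A : ℤ, A = q + 1 := ⟨_, rfl⟩
  obtain ⟨B', hB'⟩ : ∃ A : ℤ, A = 2 * q + 1 := ⟨_, rfl⟩
  have e1 : ((1 - X) * (((q : ℤ⟦X⟧) + 1) * G1 - (2 * (q : ℤ⟦X⟧) + 1) * G2 + (q : ℤ⟦X⟧) * G3)) =
      (C B * ((1 - X) * G1) - C B' * ((1 - X) * G2)
        + C (q : ℤ) * ((1 - X) * G3)) := by
    rw [hB, hB']
    simp only [map_add, map_mul, map_one, C_two, map_natCast]
    ring
  rw [e1] at h'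
  simp only [coeff_C_mul, map_add, map_sub, coeff_one_sub_mul, map_zero] at h'
  rw [hB, hB'] at h'
  unfold h1
  have g : ∀ k q, ft k (p + 1) q = coeff p (coeff q (F (1 - X : ℤ⟦X⟧) (mk 1) k)) := by
    intro k q; simp [ft, f]
  have g' : ∀ k q, ft k p q =
      if p = 0 then 0 else coeff (p - 1) (coeff q (F (1 - X : ℤ⟦X⟧) (mk 1) k)) := by
    intro k q; simp [ft, f]
  simp only [g, g']
  rw [← hG1, ← hG2, ← hG3]
  exact h'

lemma f_zero_zero (p : ℕ) : f 0 p 0 = 1 := by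
  unfold f
  rw [coeff_F_zero_zero]; simp

lemma f_succ_zero (k p : ℕ) : f (k + 1) p 0 = 0 := by
  unfold f
  rw [coeff_F_succ_zero]; simp

/-- series in `z` -/
noncomputable def KK (h : ℕ → ℤ) : ℤ⟦X⟧ := mk fun n => ∑ k ∈ range (n + 1), c k n * h k

lemma KK_add (g h : ℕ → ℤ) : KK (fun k => g k + h k) = KK g + KK h := by
  ext n
  simp only [KK, coeff_mk, map_add, mul_add, sum_add_distrib]

lemma KK_sub (g h : ℕ → ℤ) : KK (fun k => g k - h k) = KK g - KK h := by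
  ext n
  simp only [KK, coeff_mk, map_sub, mul_sub, sum_sub_distrib]

lemma KK_smul (a : ℤ) (h : ℕ → ℤ) : KK (fun k => a * h k) = C a * KK h := by
  ext n
  simp only [KK, coeff_mk, coeff_C_mul, mul_sum]
  refine sum_congr rfl fun k _ => ?_
  ring

lemma KK_E2 (g h : ℕ → ℤ) (h0 : g 0 = 0)
    (hk : ∀ k : ℕ, (2 * (k : ℤ) + 1) * g (k + 1) = (2 * k + 2) * h k) :
    (1 - X) ^ 2 * KK g = 4 * X * KK h := by
  have e1 : (1 - X) ^ 2 * KK g = KK g - X * (2 * KK g) + X * (X * KK g) := by ring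
  have e2 : 4 * X * KK h = X * (2 * (2 * KK h)) := by ring
  have key : ∀ (n k : ℕ), (c (k + 1) (n + 2) - 2 * c (k + 1) (n + 1) + c (k + 1) n) * g (k + 1) =
      4 * (c k (n + 1) * h k) := by
    intro n k
    have a1 := secdiff k n
    have a2 := hk k
    have a3 : ((k : ℤ) + 1) * (2 * k + 1) ≠ 0 := by positivity
    apply mul_left_cancel₀ a3
    linear_combination ((2 * (k : ℤ) + 1) * g (k + 1)) * a1 + 2 * (2 * (k : ℤ) + 1) * c k (n + 1) * a2
  rw [e1, e2]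
  ext n
  simp only [map_add, map_sub, cX, c2]
  rcases n with _ | _ | n
  · simp [KK, h0]
  · simp only [zero_add, if_neg one_ne_zero, Nat.sub_self, if_true, KK, coeff_mk]
    rw [sum_range_succ, sum_range_one, sum_range_one, h0, sum_range_one]
    have a2 := hk 0
    have a4 : c 1 1 = 2 := by simp [c]
    have a5 : c 0 0 = 1 := by simp [c]
    rw [a4, a5]
    push_cast at a2
    linear_combination 2 * a2
  · simp only [Nat.add_sub_cancel, if_neg (Nat.succ_ne_zero _), KK, coeff_mk]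
    have b1 : ∑ k ∈ range (n + 1 + 1), c k (n + 1) * g k =
        ∑ k ∈ range (n + 1 + 1 + 1), c k (n + 1) * g k := by
      rw [sum_range_succ _ (n + 1 + 1), c_eq_zero (show n + 1 < n + 1 + 1 by omega)]; ring
    have b2 : ∑ k ∈ range (n + 1), c k n * g k =
        ∑ k ∈ range (n + 1 + 1 + 1), c k n * g k := by
      rw [sum_range_succ _ (n + 1 + 1), sum_range_succ _ (n + 1),
        c_eq_zero (show n < n + 1 + 1 by omega), c_eq_zero (show n < n + 1 by omega)]; ring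
    rw [b1, b2, sum_range_succ' _ (n + 1 + 1), sum_range_succ' _ (n + 1 + 1),
      sum_range_succ' _ (n + 1 + 1), h0]
    have b3 : ∑ k ∈ range (n + 1 + 1), c (k + 1) (n + 1 + 1) * g (k + 1)
        - 2 * ∑ k ∈ range (n + 1 + 1), c (k + 1) (n + 1) * g (k + 1)
        + ∑ k ∈ range (n + 1 + 1), c (k + 1) n * g (k + 1) =
        4 * ∑ k ∈ range (n + 1 + 1), c k (n + 1) * h k := by
      rw [mul_sum, mul_sum, ← sum_sub_distrib, ← sum_add_distrib]
      refine sum_congr rfl fun k _ => ?_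
      have := key n k
      linear_combination this
    linear_combination b3

/-- `K̃_{p,q}(z)` -/
noncomputable def Kt (p q : ℕ) : ℤ⟦X⟧ := KK fun k => ft k p q

lemma E2 (p q : ℕ) :
    (1 - X) ^ 2 * (((q : ℤ⟦X⟧) + 1) * (Kt (p + 1) (q + 1) - Kt p (q + 1))
      - (2 * (q : ℤ⟦X⟧) + 1) * (Kt (p + 1) q - Kt p q) + (q : ℤ⟦X⟧) * (Kt (p + 1) (q - 1) - Kt p (q - 1))) =
    4 * X * ((2 * (q : ℤ⟦X⟧) + 1) * Kt (p + 1) q - (q : ℤ⟦X⟧) * (Kt (p + 1) (q - 1) - Kt p (q - 1))) := by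
  have h := KK_E2 (h1 p q) (h2 p q) (h1_zero p q) (h1_h2 p q)
  have a1 : KK (h1 p q) = (((q : ℤ⟦X⟧) + 1) * (Kt (p + 1) (q + 1) - Kt p (q + 1))
      - (2 * (q : ℤ⟦X⟧) + 1) * (Kt (p + 1) q - Kt p q) + (q : ℤ⟦X⟧) * (Kt (p + 1) (q - 1) - Kt p (q - 1))) := by
    unfold h1 Kt
    rw [KK_add, KK_sub, KK_smul, KK_smul, KK_smul, KK_sub, KK_sub, KK_sub]
    simp only [map_add, map_mul, map_one, C_two, map_natCast]
  have a2 : KK (h2 p q) =
      ((2 * (q : ℤ⟦X⟧) + 1) * Kt (p + 1) q - (q : ℤ⟦X⟧) * (Kt (p + 1) (q - 1) - Kt p (q - 1))) := by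
    unfold h2 Kt
    rw [KK_sub, KK_smul, KK_smul, KK_sub]
    simp only [map_add, map_mul, map_one, C_two, map_natCast]
  rw [a1, a2] at h
  exact h

/-- Delannoy numbers. -/
def d (n x : ℕ) : ℤ := ∑ k ∈ range (n + 1), 2 ^ k * (n.choose k : ℤ) * (x.choose k : ℤ)

/-- the numbers `s_n(x)`. -/
def s (n x : ℕ) : ℤ := ∑ k ∈ range (n + 1), (n.choose k : ℤ) * c k x

lemma d_zero_left (x : ℕ) : d 0 x = 1 := by simp [d]

lemma d_zero_right (n : ℕ) : d n 0 = 1 := by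
  unfold d
  rw [sum_range_succ']
  simp

lemma d_ext (n x N : ℕ) (h : n < N) :
    d n x = ∑ k ∈ range N, 2 ^ k * (n.choose k : ℤ) * (x.choose k : ℤ) := by
  unfold d
  refine sum_subset (fun i hi => by simp at hi ⊢; omega) ?_
  intro i hi hi'
  simp at hi hi'
  rw [Nat.choose_eq_zero_of_lt (show n < i by omega)]
  simp

lemma d_rec (n x : ℕ) : d (n + 1) (x + 1) = d (n + 1) x + d n (x + 1) + d n x := by
  rw [d_ext (n + 1) (x + 1) (n + 2) (by omega), d_ext (n + 1) x (n + 2) (by omega),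
    d_ext n (x + 1) (n + 2) (by omega)]
  have h1 : d n x = 2 * d n x - d n x := by ring
  rw [h1]
  nth_rw 1 [d_ext n x (n + 1) (by omega)]
  rw [d_ext n x (n + 2) (by omega)]
  rw [sum_range_succ' _ (n + 1), sum_range_succ' _ (n + 1), sum_range_succ' _ (n + 1),
    sum_range_succ' _ (n + 1)]
  have h2 : ∑ k ∈ range (n + 1), 2 ^ (k + 1) * ((n + 1).choose (k + 1) : ℤ) *
      ((x + 1).choose (k + 1) : ℤ) =
      ∑ k ∈ range (n + 1), 2 ^ (k + 1) * ((n + 1).choose (k + 1) : ℤ) * (x.choose (k + 1) : ℤ)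
      + ∑ k ∈ range (n + 1), 2 ^ (k + 1) * (n.choose (k + 1) : ℤ) * ((x + 1).choose (k + 1) : ℤ)
      + 2 * ∑ k ∈ range (n + 1), 2 ^ k * (n.choose k : ℤ) * (x.choose k : ℤ)
      - ∑ k ∈ range (n + 1), 2 ^ (k + 1) * (n.choose (k + 1) : ℤ) * (x.choose (k + 1) : ℤ) := by
    rw [mul_sum, ← sum_add_distrib, ← sum_add_distrib, ← sum_sub_distrib]
    refine sum_congr rfl fun k _ => ?_
    rw [Nat.choose_succ_succ n k, Nat.choose_succ_succ x k]
    push_cast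
    ring
  rw [h2]
  simp
  ring

lemma c_ext (n q : ℕ) (N : ℕ) (h : n < N) :
    s n q = ∑ k ∈ range N, (n.choose k : ℤ) * c k q := by
  unfold s
  refine sum_subset (fun i hi => by simp at hi ⊢; omega) ?_
  intro i hi hi'
  simp at hi hi'
  rw [Nat.choose_eq_zero_of_lt (show n < i by omega)]
  simp

lemma s_zero_left (q : ℕ) : s 0 q = 1 := by simp [s, c_zero_left]

lemma s_zero_right (n : ℕ) : s n 0 = 1 := by
  unfold s
  rw [sum_range_succ', sum_eq_zero]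
  · simp [c_zero_left]
  · intro k _
    rw [c_eq_zero (by omega)]; ring

lemma s_diff (n q : ℕ) :
    s (n + 1) q - s n q = ∑ k ∈ range (n + 1), (n.choose k : ℤ) * c (k + 1) q := by
  rw [c_ext (n + 1) q (n + 2) (by omega), c_ext n q (n + 2) (by omega),
    sum_range_succ' _ (n + 1), sum_range_succ' _ (n + 1)]
  have : ∑ k ∈ range (n + 1), ((n + 1).choose (k + 1) : ℤ) * c (k + 1) q =
      ∑ k ∈ range (n + 1), (n.choose k : ℤ) * c (k + 1) q +
      ∑ k ∈ range (n + 1), (n.choose (k + 1) : ℤ) * c (k + 1) q := by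
    rw [← sum_add_distrib]
    refine sum_congr rfl fun k _ => ?_
    rw [Nat.choose_succ_succ n k]
    push_cast
    ring
  rw [this]
  simp

lemma legendre' (j q : ℕ) : ((q : ℤ) + 1) * c (j + 1) (q + 1) + q * c (j + 1) (q - 1) =
    (2 * q + 1) * (c (j + 1) q + 2 * c j q) := by
  rcases q with _ | q
  · rcases j with _ | j
    · simp [c]
    · rw [c_eq_zero (show 0 + 1 < j + 1 + 1 by omega), c_eq_zero (show 0 < j + 1 + 1 by omega),
        c_eq_zero (show 0 < j + 1 by omega)]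
      simp
  · have := legendre j q
    simp only [Nat.add_sub_cancel]
    push_cast
    linear_combination this

lemma s_rec (n q : ℕ) :
    ((q : ℤ) + 1) * (s (n + 1) (q + 1) - s n (q + 1)) + q * (s (n + 1) (q - 1) - s n (q - 1)) =
      (2 * q + 1) * (s (n + 1) q + s n q) := by
  have h : s (n + 1) q + s n q = (s (n + 1) q - s n q) + 2 * s n q := by ring
  rw [h, s_diff, s_diff, s_diff]
  unfold s
  rw [mul_sum, mul_sum, mul_sum, ← sum_add_distrib, ← sum_add_distrib, mul_sum]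
  refine sum_congr rfl fun k _ => ?_
  have := legendre' k q
  linear_combination (n.choose k : ℤ) * this

/-- shifted Delannoy numbers. -/
def dt (n p : ℕ) : ℤ := if p = 0 then 0 else d n (p - 1)

lemma dt_rec (n p : ℕ) : dt (n + 1) (p + 1) - dt (n + 1) p = dt n (p + 1) + dt n p := by
  rcases p with _ | p
  · simp [dt, d_zero_right]
  · simp only [dt, Nat.add_sub_cancel, if_neg (Nat.succ_ne_zero _)]
    have := d_rec n p
    linear_combination this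

noncomputable def Ht (p q : ℕ) : ℤ⟦X⟧ := mk fun n => dt n p * s n q

lemma E1 (p q : ℕ) :
    ((q : ℤ⟦X⟧) + 1) * ((1 - X) * Ht (p + 1) (q + 1) - (1 + X) * Ht p (q + 1))
      + (q : ℤ⟦X⟧) * ((1 - X) * Ht (p + 1) (q - 1) - (1 + X) * Ht p (q - 1))
      - (2 * (q : ℤ⟦X⟧) + 1) * ((1 + X) * Ht (p + 1) q - (1 - X) * Ht p q) = 0 := by
  obtain ⟨B, hB⟩ : ∃ A : ℤ, A = q + 1 := ⟨_, rfl⟩
  obtain ⟨B', hB'⟩ : ∃ A : ℤ, A = 2 * q + 1 := ⟨_, rfl⟩
  have e : ((q : ℤ⟦X⟧) + 1) * ((1 - X) * Ht (p + 1) (q + 1) - (1 + X) * Ht p (q + 1))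
      + (q : ℤ⟦X⟧) * ((1 - X) * Ht (p + 1) (q - 1) - (1 + X) * Ht p (q - 1))
      - (2 * (q : ℤ⟦X⟧) + 1) * ((1 + X) * Ht (p + 1) q - (1 - X) * Ht p q) =
      C B * (Ht (p + 1) (q + 1) - X * Ht (p + 1) (q + 1) - Ht p (q + 1)
        - X * Ht p (q + 1)) + C (q : ℤ) * (Ht (p + 1) (q - 1) - X * Ht (p + 1) (q - 1)
        - Ht p (q - 1) - X * Ht p (q - 1)) - C B' * (Ht (p + 1) q + X * Ht (p + 1) q
        - Ht p q + X * Ht p q) := by
    rw [hB, hB']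
    simp only [map_add, map_mul, map_one, C_two, map_natCast]
    ring
  rw [e]
  ext n
  simp only [map_add, map_sub, coeff_C_mul, cX, map_zero]
  rcases n with _ | n
  · simp only [Ht, coeff_mk, if_true, s_zero_left]
    rw [hB, hB']
    ring
  · simp only [Ht, coeff_mk, Nat.add_sub_cancel, if_neg (Nat.succ_ne_zero _)]
    have a1 := dt_rec n p
    have a2 := s_rec n q
    rw [hB, hB']
    linear_combination
      (dt (n + 1) (p + 1) - dt (n + 1) p) * a2 +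
      (((q : ℤ) + 1) * s n (q + 1) + q * s n (q - 1) + (2 * q + 1) * s n q) * a1

end Pool.Agent.Q224.DelSun
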