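import Mathlib
import Pool.Agent.Q224.DelSunC

namespace Pool.Agent.Q224.DelSun

open Finset PowerSeries

lemma Kt_zero (q : ℕ) : Kt 0 q = 0 := by
  ext n
  simp [Kt, KK, ft]

lemma Ht_zero (q : ℕ) : Ht 0 q = 0 := by
  ext n
  simp [Ht, dt]

lemma Kt_base (p : ℕ) : Kt (p + 1) 0 = (PowerSeries.mk 1 : ℤ⟦X⟧) := by
  ext n
  simp only [Kt, KK, coeff_mk, Pi.one_apply]
  rw [sum_range_succ', sum_eq_zero]
  · simp [ft, f_zero_zero, c_zero_left]
  · intro k _
    simp [ft, f_succ_zero]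

lemma Ht_base (p : ℕ) : (1 - X : ℤ⟦X⟧) ^ (p + 1) * Ht (p + 1) 0 = (1 + X) ^ p := by
  induction p with
  | zero =>
    have : Ht 1 0 = (PowerSeries.mk 1 : ℤ⟦X⟧) := by
      ext n
      simp [Ht, dt, d_zero_right, s_zero_right]
    rw [zero_add, this, pow_one, pow_zero, mul_comm]
    exact mk_one_mul_one_sub_eq_one ℤ
  | succ p ih =>
    have h : (1 - X : ℤ⟦X⟧) * Ht (p + 1 + 1) 0 = (1 + X) * Ht (p + 1) 0 := by
      have e1 : (1 - X : ℤ⟦X⟧) * Ht (p + 1 + 1) 0 = Ht (p + 1 + 1) 0 - X * Ht (p + 1 + 1) 0 := by ring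
      have e2 : (1 + X : ℤ⟦X⟧) * Ht (p + 1) 0 = Ht (p + 1) 0 + X * Ht (p + 1) 0 := by ring
      rw [e1, e2]
      ext n
      simp only [map_add, map_sub, cX]
      rcases n with _ | n
      · simp [Ht, dt, d_zero_left, s_zero_right]
      · simp only [Ht, coeff_mk, Nat.add_sub_cancel, if_neg (Nat.succ_ne_zero _), s_zero_right]
        have := dt_rec n (p + 1)
        linear_combination this
    rw [pow_succ (1 - X : ℤ⟦X⟧) (p + 1), mul_assoc, h, pow_succ (1 + X : ℤ⟦X⟧) p, ← ih]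
    ring

lemma one_sub_ne : (1 - X : ℤ⟦X⟧) ≠ 0 := by
  intro h
  have := congrArg (coeff 0) h
  simp at this

lemma one_add_ne : (1 + X : ℤ⟦X⟧) ≠ 0 := by
  intro h
  have := congrArg (coeff 0) h
  simp at this

/-- The key scaling identity. -/
lemma P_all (q : ℕ) : ∀ p : ℕ,
    (1 + X : ℤ⟦X⟧) ^ p * (1 - X) ^ (q + 1) * Kt p q = (1 - X) ^ p * (1 + X) ^ (q + 1) * Ht p q := by
  induction q using Nat.strong_induction_on with
  | _ q ihq =>
    rcases q with _ | q
    · intro p
      rcases p with _ | p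
      · simp [Kt_zero, Ht_zero]
      · rw [Kt_base]
        have h1 := Ht_base p
        have h2 : (1 - X : ℤ⟦X⟧) * PowerSeries.mk 1 = 1 := by rw [mul_comm]; exact mk_one_mul_one_sub_eq_one ℤ
        linear_combination (1 + X : ℤ⟦X⟧) ^ (p + 1) * h2 - (1 + X : ℤ⟦X⟧) * h1
    · intro p
      induction p with
      | zero => simp [Kt_zero, Ht_zero]
      | succ p ihp =>
        have hE2 := E2 p q
        have hE1 := E1 p q
        have hq1 := ihq q (by omega) (p + 1)
        have hq0 := ihq q (by omega) p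
        have hm1 : (q : ℤ⟦X⟧) * ((1 + X : ℤ⟦X⟧) ^ (p + 1) * (1 - X) ^ q * Kt (p + 1) (q - 1)) =
            (q : ℤ⟦X⟧) * ((1 - X) ^ (p + 1) * (1 + X) ^ q * Ht (p + 1) (q - 1)) := by
          rcases q with _ | q
          · simp
          · have := ihq q (by omega) (p + 1)
            rw [Nat.add_sub_cancel, this]
        have hm0 : (q : ℤ⟦X⟧) * ((1 + X : ℤ⟦X⟧) ^ p * (1 - X) ^ q * Kt p (q - 1)) =
            (q : ℤ⟦X⟧) * ((1 - X) ^ p * (1 + X) ^ q * Ht p (q - 1)) := by
          rcases q with _ | q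
          · simp
          · have := ihq q (by omega) p
            rw [Nat.add_sub_cancel, this]
        have hq' : ((q : ℤ⟦X⟧) + 1) ≠ 0 := by
          intro h
          have := congrArg (coeff 0) h
          have h3 : ((q : ℤ⟦X⟧) + 1) = C ((q : ℤ) + 1) := by simp
          rw [h3] at this
          simp at this
          omega
        have hc : ((q : ℤ⟦X⟧) + 1) * (1 - X) ≠ 0 := mul_ne_zero hq' one_sub_ne
        apply mul_left_cancel₀ hc
        set u : ℤ⟦X⟧ := 1 - X with hu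
        set v : ℤ⟦X⟧ := 1 + X with hv
        have hX : 4 * X = v ^ 2 - u ^ 2 := by rw [hu, hv]; ring
        rw [hX] at hE2
        -- rename
        generalize Kt (p + 1) (q + 1) = K11 at *
        generalize Kt p (q + 1) = K01 at *
        generalize Kt (p + 1) q = K10 at *
        generalize Kt p q = K00 at *
        generalize Kt (p + 1) (q - 1) = K1m at *
        generalize Kt p (q - 1) = K0m at *
        generalize Ht (p + 1) (q + 1) = H11 at *
        generalize Ht p (q + 1) = H01 at *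
        generalize Ht (p + 1) q = H10 at *
        generalize Ht p q = H00 at *
        generalize Ht (p + 1) (q - 1) = H1m at *
        generalize Ht p (q - 1) = H0m at *
        linear_combination (v ^ (p + 1) * u ^ (q + 1)) * hE2 - (u ^ (p + 1) * v ^ (q + 2)) * hE1
          + (((q : ℤ⟦X⟧) + 1) * u * v) * ihp
          + ((2 * (q : ℤ⟦X⟧) + 1) * v ^ 2) * hq1 - ((2 * (q : ℤ⟦X⟧) + 1) * u ^ 2 * v) * hq0
          - (v ^ 2 * u) * hm1 + (v ^ 3 * u) * hm0

theorem Kt_eq_Ht (x : ℕ) : Kt (x + 1) x = Ht (x + 1) x := by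
  have h := P_all x (x + 1)
  have hc : (1 + X : ℤ⟦X⟧) ^ (x + 1) * (1 - X) ^ (x + 1) ≠ 0 :=
    mul_ne_zero (pow_ne_zero _ one_add_ne) (pow_ne_zero _ one_sub_ne)
  apply mul_left_cancel₀ hc
  linear_combination h

/-- The main identity: `d_n(x) s_n(x) = ∑ c_k(n) t_k(x)` with integers `t_k(x)`. -/
theorem ds_identity (n x : ℕ) : d n x * s n x = ∑ k ∈ range (n + 1), c k n * f k x x := by
  have h := congrArg (coeff n) (Kt_eq_Ht x)
  simp only [Kt, KK, Ht, coeff_mk, dt, ft, Nat.add_sub_cancel, if_neg (Nat.succ_ne_zero _)] at h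
  exact h.symm

end Pool.Agent.Q224.DelSun
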