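import Mathlib

/-!
Definitions for MP_2a941c_nt.
-/

namespace Pool.Agent.Q224.DelSunDefs

open Polynomial Finset

/-- The binomial polynomial `x (x-1) ⋯ (x-k+1) / k!`. -/
noncomputable def binom (k : ℕ) : ℚ[X] :=
  C ((1 : ℚ) / (k.factorial : ℚ)) * ∏ i ∈ range k, (X - C (i : ℚ))

/-- `c_k(x) = C(x,k) C(x+k,k)`. -/
noncomputable def cPoly (k : ℕ) : ℚ[X] := binom k * (binom k).comp (X + C (k : ℚ))

/-- `d_n(x) = ∑_{k=0}^n 2^k C(n,k) C(x,k)`. -/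
noncomputable def dPoly (n : ℕ) : ℚ[X] :=
  ∑ k ∈ range (n + 1), C ((2 : ℚ) ^ k * (n.choose k : ℚ)) * binom k

/-- `s_n(x) = ∑_{k=0}^n C(n,k) c_k(x)`. -/
noncomputable def sPoly (n : ℕ) : ℚ[X] :=
  ∑ k ∈ range (n + 1), C (n.choose k : ℚ) * cPoly k

/-- `A_{m,n}(x) = (1/n) ∑_{k<n} (2k+1) d_k(x)^m s_k(x)^m`. -/
noncomputable def A (m n : ℕ) : ℚ[X] :=
  C ((1 : ℚ) / (n : ℚ)) * ∑ k ∈ range n, C (2 * (k : ℚ) + 1) * (dPoly k ^ m * sPoly k ^ m)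

/-- `B_{m,n}(x) = (1/n) ∑_{k<n} (-1)^k (2k+1) d_k(x)^m s_k(x)^m`. -/
noncomputable def B (m n : ℕ) : ℚ[X] :=
  C ((1 : ℚ) / (n : ℚ)) *
    ∑ k ∈ range n, C ((-1 : ℚ) ^ k * (2 * (k : ℚ) + 1)) * (dPoly k ^ m * sPoly k ^ m)

/-- `P` is integer-valued: `P(a) ∈ ℤ` for every integer `a`. -/
def IntegerValued (P : ℚ[X]) : Prop := ∀ a : ℤ, ∃ b : ℤ, P.eval (a : ℚ) = (b : ℚ)

end Pool.Agent.Q224.DelSunDefs
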