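import Mathlib
import Pool.Agent.Q224.DelSunD

namespace Pool.Agent.Q224.DelSun

open Finset

/-! ### product formula -/

lemma sum_aux (g : ℕ → ℤ) (a : ℤ) (j : ℕ) :
    ∑ r ∈ range (j + 1), (j.choose r : ℤ) * ((a + r + j + 1) * g r + (a + r + 1) * g (r + 1)) =
      (a + j + 1) * ∑ r ∈ range (j + 2), ((j + 1).choose r : ℤ) * g r := by
  have h1 : ∑ r ∈ range (j + 2), ((j + 1).choose r : ℤ) * g r =
      ∑ r ∈ range (j + 1), (j.choose r : ℤ) * g r
        + ∑ r ∈ range (j + 1), (j.choose r : ℤ) * g (r + 1) := by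
    rw [sum_range_succ' _ (j + 1)]
    have e1 : ∑ k ∈ range (j + 1), ((j + 1).choose (k + 1) : ℤ) * g (k + 1) =
        ∑ k ∈ range (j + 1), (j.choose k : ℤ) * g (k + 1) +
        ∑ k ∈ range (j + 1), (j.choose (k + 1) : ℤ) * g (k + 1) := by
      rw [← sum_add_distrib]
      refine sum_congr rfl fun k _ => ?_
      rw [Nat.choose_succ_succ]
      push_cast
      ring
    have e2 : ∑ r ∈ range (j + 1), (j.choose r : ℤ) * g r =
        ∑ k ∈ range (j + 1), (j.choose (k + 1) : ℤ) * g (k + 1) + g 0 := by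
      have e3 : ∑ r ∈ range (j + 1), (j.choose r : ℤ) * g r =
          ∑ r ∈ range (j + 1 + 1), (j.choose r : ℤ) * g r := by
        rw [sum_range_succ _ (j + 1), Nat.choose_succ_self]; simp
      rw [e3, sum_range_succ' _ (j + 1)]; simp
    rw [e1, e2]; simp; ring
  have h2 : ∑ r ∈ range (j + 1), (j.choose r : ℤ) * (r * g r) =
      ∑ r ∈ range (j + 1), (j.choose r : ℤ) * ((j - r) * g (r + 1)) := by
    have e3 : ∑ r ∈ range (j + 1), (j.choose r : ℤ) * (r * g r) =
        ∑ r ∈ range (j + 1 + 1), (j.choose r : ℤ) * (r * g r) := by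
      rw [sum_range_succ _ (j + 1), Nat.choose_succ_self]; simp
    rw [e3, sum_range_succ' _ (j + 1)]
    simp only [Nat.cast_zero, zero_mul, mul_zero, add_zero]
    refine sum_congr rfl fun r hr => ?_
    rw [mem_range] at hr
    have h := Nat.choose_succ_right_eq j r
    obtain ⟨t, ht⟩ : ∃ t, j = r + t := ⟨j - r, by omega⟩
    have h3 : j - r = t := by omega
    rw [h3] at h
    have h4 : ((j : ℤ) - r) = t := by rw [ht]; push_cast; ring
    rw [h4]
    have h5 : (j.choose (r + 1) : ℤ) * ((r : ℤ) + 1) = (j.choose r : ℤ) * t := by exact_mod_cast h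
    push_cast
    linear_combination g (r + 1) * h5
  rw [h1, mul_add, mul_sum, mul_sum]
  have h3 : ∑ r ∈ range (j + 1), (j.choose r : ℤ) * ((a + r + j + 1) * g r + (a + r + 1) * g (r + 1)) =
      ∑ r ∈ range (j + 1), (a + j + 1) * ((j.choose r : ℤ) * g r)
      + ∑ r ∈ range (j + 1), (a + j + 1) * ((j.choose r : ℤ) * g (r + 1))
      + (∑ r ∈ range (j + 1), (j.choose r : ℤ) * (r * g r)
        - ∑ r ∈ range (j + 1), (j.choose r : ℤ) * ((j - r) * g (r + 1))) := by
    rw [← sum_sub_distrib, ← sum_add_distrib, ← sum_add_distrib]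
    refine sum_congr rfl fun r _ => ?_
    ring
  rw [h3, h2]; ring

lemma c_mul (i j n : ℕ) : c i n * c j n =
    ((i + j).choose i : ℤ) * ∑ r ∈ range (j + 1),
      (j.choose r : ℤ) * ((i + r).choose j : ℤ) * c (i + r) n := by
  induction j with
  | zero => simp [c_zero_left]
  | succ j ih =>
    have hc := c_succ j n
    have hne : ((j : ℤ) + 1) ^ 2 ≠ 0 := by positivity
    apply mul_left_cancel₀ hne
    have hP : ((j : ℤ) + 1) * ((i + (j + 1)).choose i : ℤ) = (i + j + 1) * ((i + j).choose i : ℤ) := by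
      have h := Nat.add_one_mul_choose_eq (i + j) j
      have e1 : (i + j).choose j = (i + j).choose i := by
        rw [Nat.choose_symm_add]
      have e2 : (i + j + 1).choose (j + 1) = (i + (j + 1)).choose i := by
        have : i + j + 1 = i + (j + 1) := by ring
        rw [this, Nat.choose_symm_add]
      rw [e1, e2] at h
      have : ((i : ℤ) + j + 1) * ((i + j).choose i : ℤ) = ((i + (j + 1)).choose i : ℤ) * (j + 1) := by
        exact_mod_cast h
      linarith
    -- g r = C(i+r, j) (i+r-j) c_{i+r}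
    set g : ℕ → ℤ := fun r => ((i + r).choose j : ℤ) * ((i : ℤ) + r - j) * c (i + r) n with hg
    have hg1 : ∀ r : ℕ, ((j : ℤ) + 1) * ((i + r).choose (j + 1) : ℤ) =
        ((i + r).choose j : ℤ) * ((i : ℤ) + r - j) := by
      intro r
      have h := Nat.choose_succ_right_eq (i + r) j
      rcases le_or_gt j (i + r) with h1 | h1
      · obtain ⟨t, ht⟩ : ∃ t, i + r = j + t := ⟨i + r - j, by omega⟩
        have h3 : i + r - j = t := by omega
        rw [h3] at h
        have h4 : ((i : ℤ) + r - j) = t := by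
          have : ((i : ℤ) + r) = j + t := by exact_mod_cast ht
          rw [this]; ring
        rw [h4]
        have h5 : ((i + r).choose (j + 1) : ℤ) * ((j : ℤ) + 1) = ((i + r).choose j : ℤ) * t := by
          exact_mod_cast h
        linarith
      · rw [Nat.choose_eq_zero_of_lt h1, Nat.choose_eq_zero_of_lt (show i + r < j + 1 by omega)]
        simp
    have hg2 : ∀ r : ℕ, ((i + r).choose j : ℤ) * ((i : ℤ) + r + 1) =
        ((i + (r + 1)).choose j : ℤ) * ((i : ℤ) + (r + 1) - j) := by
      intro r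
      have h := Nat.choose_mul_succ_eq (i + r) j
      have h3 : i + (r + 1) = i + r + 1 := by ring
      rw [h3]
      rcases le_or_gt j (i + r + 1) with h1 | h1
      · obtain ⟨t, ht⟩ : ∃ t, i + r + 1 = j + t := ⟨i + r + 1 - j, by omega⟩
        have h5 : i + r + 1 - j = t := by omega
        rw [h5] at h
        have h4 : ((i : ℤ) + (r + 1) - j) = t := by
          have : ((i : ℤ) + r + 1) = j + t := by exact_mod_cast ht
          linarith
        rw [h4]
        exact_mod_cast h
      · rw [Nat.choose_eq_zero_of_lt h1, Nat.choose_eq_zero_of_lt (show i + r < j by omega)]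
        simp
    have hsum := sum_aux g i j
    have e1 : ∀ r ∈ range (j + 1), (j.choose r : ℤ) * (((i : ℤ) + r + j + 1) * g r +
        (i + r + 1) * g (r + 1)) =
        ((n : ℤ) * (n + 1) - j * (j + 1)) * ((j.choose r : ℤ) * ((i + r).choose j : ℤ) * c (i + r) n) := by
      intro r _
      have hcr := c_succ (i + r) n
      have h2 := hg2 r
      simp only [hg]
      push_cast at hcr ⊢
      have h3 : i + (r + 1) = i + r + 1 := by ring
      rw [h3] at h2 ⊢
      linear_combination (j.choose r : ℤ) * ((i + r).choose j : ℤ) * hcr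
        - (j.choose r : ℤ) * ((i : ℤ) + r + 1) * c (i + r + 1) n * h2
    rw [sum_congr rfl e1, ← mul_sum] at hsum
    have e2 : ∑ r ∈ range (j + 2), ((j + 1).choose r : ℤ) * g r =
        ((j : ℤ) + 1) * ∑ r ∈ range (j + 1 + 1), ((j + 1).choose r : ℤ) *
          ((i + r).choose (j + 1) : ℤ) * c (i + r) n := by
      rw [mul_sum]
      refine sum_congr rfl fun r _ => ?_
      have := hg1 r
      simp only [hg]
      linear_combination (-((j + 1).choose r : ℤ) * c (i + r) n) * this
    rw [e2] at hsum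
    set S0 := ∑ r ∈ range (j + 1), (j.choose r : ℤ) * ((i + r).choose j : ℤ) * c (i + r) n
    set S1 := ∑ r ∈ range (j + 1 + 1), ((j + 1).choose r : ℤ) *
          ((i + r).choose (j + 1) : ℤ) * c (i + r) n
    -- (j+1)^2 c_i c_{j+1} = (y - j(j+1)) c_i c_j = P (y - ...) S0 = P (i+j+1)(j+1) S1
    linear_combination c i n * hc + ((n : ℤ) * (n + 1) - j * (j + 1)) * ih
      + ((i + j).choose i : ℤ) * hsum - ((j : ℤ) + 1) * S1 * hP

/-! ### the ring -/

/-- The `ℤ`-span of the functions `c_k`. -/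
def R : Submodule ℤ (ℕ → ℤ) := Submodule.span ℤ (Set.range fun k => (fun n => c k n))

lemma c_mem (k : ℕ) : (fun n => c k n) ∈ R := Submodule.subset_span ⟨k, rfl⟩

lemma R_mul {g h : ℕ → ℤ} (hg : g ∈ R) (hh : h ∈ R) : g * h ∈ R := by
  have h1 : R * R ≤ R := by
    unfold R
    rw [Submodule.span_mul_span, Submodule.span_le]
    rintro _ ⟨_, ⟨i, rfl⟩, _, ⟨j, rfl⟩, rfl⟩
    have : ((fun n => c i n) * fun n => c j n) = ∑ r ∈ range (j + 1),
        (((i + j).choose i : ℤ) * ((j.choose r : ℤ) * ((i + r).choose j : ℤ))) •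
          (fun n => c (i + r) n) := by
      funext n
      rw [Pi.mul_apply, c_mul, Finset.sum_apply, mul_sum]
      refine sum_congr rfl fun r _ => ?_
      simp only [Pi.smul_apply, smul_eq_mul]
      ring
    change ((fun n => c i n) * fun n => c j n) ∈ (Submodule.span ℤ (Set.range fun k => (fun n => c k n)))
    rw [this]
    exact Submodule.sum_mem _ fun r _ => Submodule.smul_mem _ _ (c_mem (i + r))
  exact h1 (Submodule.mul_mem_mul hg hh)

lemma R_one : (1 : ℕ → ℤ) ∈ R := by
  have : (1 : ℕ → ℤ) = fun n => c 0 n := by funext n; simp [c_zero_left]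
  rw [this]; exact c_mem 0

lemma R_pow {g : ℕ → ℤ} (hg : g ∈ R) (m : ℕ) : g ^ m ∈ R := by
  induction m with
  | zero => rw [pow_zero]; exact R_one
  | succ m ih => rw [pow_succ]; exact R_mul ih hg

/-- `n ∣ ∑_{k<n} (2k+1) c_j(k)`. -/
lemma sum_c (j n : ℕ) : ∑ k ∈ range n, (2 * (k : ℤ) + 1) * c j k =
    n * ((n.choose (j + 1) : ℤ) * ((n + j).choose j : ℤ)) := by
  induction n with
  | zero => simp
  | succ n ih =>
    rw [sum_range_succ, ih, c_eq]
    have hj : ((j : ℤ) + 1) ≠ 0 := by positivity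
    apply mul_left_cancel₀ hj
    have a1 : ((n : ℤ) + 1) * (n.choose j : ℤ) = ((n + 1).choose (j + 1) : ℤ) * (j + 1) := by
      exact_mod_cast Nat.add_one_mul_choose_eq n j
    have a2 : ((n : ℤ) + 1) * ((n + 1 + j).choose j : ℤ) = (n + 1 + j) * ((n + j).choose j : ℤ) := by
      have h := Nat.choose_mul_succ_eq (n + j) j
      have h2 : n + j + 1 - j = n + 1 := by omega
      rw [h2] at h
      have h3 : n + 1 + j = n + j + 1 := by ring
      rw [h3]
      have : ((n + j).choose j : ℤ) * ((n : ℤ) + j + 1) = ((n + j + 1).choose j : ℤ) * (n + 1) := by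
        exact_mod_cast h
      linarith
    have a3 : ((j : ℤ) + 1) * (n.choose (j + 1) : ℤ) = (n - j) * (n.choose j : ℤ) := by
      have h := Nat.choose_succ_right_eq n j
      rcases le_or_gt j n with h1 | h1
      · obtain ⟨t, rfl⟩ : ∃ t, n = j + t := ⟨n - j, by omega⟩
        have h5 : j + t - j = t := by omega
        rw [h5] at h
        have : (((j + t).choose (j + 1) : ℕ) : ℤ) * ((j : ℤ) + 1) = ((j + t).choose j : ℤ) * t := by
          exact_mod_cast h
        push_cast
        linear_combination this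
      · rw [Nat.choose_eq_zero_of_lt h1, Nat.choose_eq_zero_of_lt (show n < j + 1 by omega)]
        simp
    push_cast
    set A : ℤ := (n.choose j : ℤ)
    set B : ℤ := ((n + 1).choose (j + 1) : ℤ)
    set E : ℤ := (n.choose (j + 1) : ℤ)
    set G : ℤ := ((n + j).choose j : ℤ)
    set H : ℤ := ((n + 1 + j).choose j : ℤ)
    linear_combination (n : ℤ) * G * a3 - (n + 1 + j : ℤ) * G * (-a1) - ((j : ℤ) + 1) * B * a2

lemma sum_c_alt (j n : ℕ) : ∑ k ∈ range (n + 1), (-1 : ℤ) ^ k * ((2 * (k : ℤ) + 1) * c j k) =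
    (-1) ^ n * ((n + 1) * ((n.choose j : ℤ) * ((n + 1 + j).choose j : ℤ))) := by
  induction n with
  | zero =>
    rw [sum_range_one, c_eq]
    rcases j with _ | j
    · simp
    · simp
  | succ n ih =>
    rw [sum_range_succ, ih, c_eq]
    have a2 : ((n : ℤ) + 2) * ((n + 1 + 1 + j).choose j : ℤ) =
        (n + 2 + j) * ((n + 1 + j).choose j : ℤ) := by
      have h := Nat.choose_mul_succ_eq (n + 1 + j) j
      have h2 : n + 1 + j + 1 - j = n + 2 := by omega
      rw [h2] at h
      have h3 : n + 1 + 1 + j = n + 1 + j + 1 := by ring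
      rw [h3]
      have : ((n + 1 + j).choose j : ℤ) * ((n : ℤ) + 1 + j + 1) =
          ((n + 1 + j + 1).choose j : ℤ) * (n + 2) := by
        exact_mod_cast h
      linarith
    have a3 : ((n : ℤ) + 1) * (n.choose j : ℤ) = (n + 1 - j) * ((n + 1).choose j : ℤ) := by
      have h := Nat.choose_mul_succ_eq n j
      rcases le_or_gt j (n + 1) with h1 | h1
      · obtain ⟨t, ht⟩ : ∃ t, n + 1 = j + t := ⟨n + 1 - j, by omega⟩
        have h5 : n + 1 - j = t := by omega
        rw [h5] at h
        have h4 : ((n : ℤ) + 1 - j) = t := by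
          have : ((n : ℤ) + 1) = j + t := by exact_mod_cast ht
          rw [this]; ring
        rw [h4]
        have : (n.choose j : ℤ) * ((n : ℤ) + 1) = ((n + 1).choose j : ℤ) * t := by exact_mod_cast h
        linarith
      · rw [Nat.choose_eq_zero_of_lt h1, Nat.choose_eq_zero_of_lt (show n < j by omega)]
        simp
    push_cast
    rw [pow_succ]
    set A : ℤ := (n.choose j : ℤ)
    set B : ℤ := ((n + 1).choose j : ℤ)
    set G : ℤ := ((n + 1 + j).choose j : ℤ)
    set H : ℤ := ((n + 1 + 1 + j).choose j : ℤ)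
    linear_combination (-1 : ℤ) ^ n * G * a3 + (-1 : ℤ) ^ n * B * a2

lemma dvd_of_mem {h : ℕ → ℤ} (hh : h ∈ R) (n : ℕ) :
    (n : ℤ) ∣ ∑ k ∈ range n, (2 * (k : ℤ) + 1) * h k := by
  unfold R at hh
  induction hh using Submodule.span_induction with
  | mem x hx =>
    obtain ⟨j, rfl⟩ := hx
    simp only
    rw [sum_c]
    exact dvd_mul_right _ _
  | zero => simp
  | add x y _ _ hx hy =>
    have : ∑ k ∈ range n, (2 * (k : ℤ) + 1) * (x + y) k =
        ∑ k ∈ range n, (2 * (k : ℤ) + 1) * x k + ∑ k ∈ range n, (2 * (k : ℤ) + 1) * y k := by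
      rw [← sum_add_distrib]
      refine sum_congr rfl fun k _ => ?_
      rw [Pi.add_apply]; ring
    rw [this]
    exact dvd_add hx hy
  | smul a x _ hx =>
    have : ∑ k ∈ range n, (2 * (k : ℤ) + 1) * (a • x) k =
        a * ∑ k ∈ range n, (2 * (k : ℤ) + 1) * x k := by
      rw [mul_sum]
      refine sum_congr rfl fun k _ => ?_
      rw [Pi.smul_apply, smul_eq_mul]; ring
    rw [this]
    exact Dvd.dvd.mul_left hx a

lemma dvd_alt_of_mem {h : ℕ → ℤ} (hh : h ∈ R) (n : ℕ) :
    (n : ℤ) ∣ ∑ k ∈ range n, (-1 : ℤ) ^ k * ((2 * (k : ℤ) + 1) * h k) := by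
  unfold R at hh
  induction hh using Submodule.span_induction with
  | mem x hx =>
    obtain ⟨j, rfl⟩ := hx
    simp only
    rcases n with _ | n
    · simp
    · rw [sum_c_alt]
      refine Dvd.dvd.mul_left ?_ _
      push_cast
      exact dvd_mul_right _ _
  | zero => simp
  | add x y _ _ hx hy =>
    have : ∑ k ∈ range n, (-1 : ℤ) ^ k * ((2 * (k : ℤ) + 1) * (x + y) k) =
        ∑ k ∈ range n, (-1 : ℤ) ^ k * ((2 * (k : ℤ) + 1) * x k)
          + ∑ k ∈ range n, (-1 : ℤ) ^ k * ((2 * (k : ℤ) + 1) * y k) := by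
      rw [← sum_add_distrib]
      refine sum_congr rfl fun k _ => ?_
      rw [Pi.add_apply]; ring
    rw [this]
    exact dvd_add hx hy
  | smul a x _ hx =>
    have : ∑ k ∈ range n, (-1 : ℤ) ^ k * ((2 * (k : ℤ) + 1) * (a • x) k) =
        a * ∑ k ∈ range n, (-1 : ℤ) ^ k * ((2 * (k : ℤ) + 1) * x k) := by
      rw [mul_sum]
      refine sum_congr rfl fun k _ => ?_
      rw [Pi.smul_apply, smul_eq_mul]; ring
    rw [this]
    exact Dvd.dvd.mul_left hx a

lemma f_eq_zero {k p q : ℕ} (h : q < k) : f k p q = 0 := by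
  unfold f
  have hd : (PowerSeries.X : PowerSeries (PowerSeries ℤ)) ^ k ∣
      F (1 - PowerSeries.X : PowerSeries ℤ) (PowerSeries.mk 1) k := by
    unfold F V U
    rw [mul_pow, mul_pow, mul_pow]
    simp only [mul_assoc]
    exact dvd_mul_right _ _
  have := (PowerSeries.X_pow_dvd_iff.1 hd) q h
  rw [this]; simp

lemma ds_mem (x : ℕ) : (fun n => d n x * s n x) ∈ R := by
  have : (fun n => d n x * s n x) = ∑ k ∈ range (x + 1), (f k x x) • (fun n => c k n) := by
    funext n
    rw [ds_identity, Finset.sum_apply]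
    simp only [Pi.smul_apply, smul_eq_mul]
    have e1 : ∑ k ∈ range (n + 1), c k n * f k x x =
        ∑ k ∈ range (n + x + 1), f k x x * c k n := by
      rw [← sum_subset (show range (n + 1) ⊆ range (n + x + 1) by
        intro i hi; simp at hi ⊢; omega)]
      · refine sum_congr rfl fun k _ => ?_
        ring
      · intro i hi hi'
        simp at hi hi'
        rw [c_eq_zero (by omega)]; ring
    have e2 : ∑ k ∈ range (x + 1), f k x x * c k n =
        ∑ k ∈ range (n + x + 1), f k x x * c k n := by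
      refine sum_subset (by intro i hi; simp at hi ⊢; omega) ?_
      intro i hi hi'
      simp at hi hi'
      rw [f_eq_zero (by omega)]; ring
    rw [e1, e2]
  rw [this]
  exact Submodule.sum_mem _ fun k _ => Submodule.smul_mem _ _ (c_mem k)

theorem dvd_main (m n x : ℕ) :
    (n : ℤ) ∣ ∑ k ∈ range n, (2 * (k : ℤ) + 1) * (d k x * s k x) ^ m :=
  dvd_of_mem (R_pow (ds_mem x) m) n

theorem dvd_main_alt (m n x : ℕ) :
    (n : ℤ) ∣ ∑ k ∈ range n, (-1 : ℤ) ^ k * ((2 * (k : ℤ) + 1) * (d k x * s k x) ^ m) :=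
  dvd_alt_of_mem (R_pow (ds_mem x) m) n

end Pool.Agent.Q224.DelSun
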