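import Mathlib
import Pool.Agent.Q224.DelSunDefs
import Pool.Agent.Q224.DelSunE

namespace Pool.Agent.Q224.DelSunDefs

open Polynomial Finset

lemma eval_binom (k a : ℕ) : (binom k).eval (a : ℚ) = (a.choose k : ℚ) := by
  have h : ∀ k : ℕ, ∏ i ∈ range k, ((a : ℚ) - (i : ℚ)) = (k.factorial : ℚ) * (a.choose k : ℚ) := by
    intro k
    induction k with
    | zero => simp
    | succ k ih =>
      rw [prod_range_succ, ih]
      have h := Nat.choose_succ_right_eq a k
      rcases le_or_gt k a with h1 | h1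
      · have h2 : ((a.choose (k + 1) : ℕ) : ℚ) * ((k : ℚ) + 1) = (a.choose k : ℚ) * ((a : ℚ) - k) := by
          have h3 : (((a.choose (k + 1) * (k + 1) : ℕ)) : ℚ) = ((a.choose k * (a - k) : ℕ) : ℚ) := by
            rw [h]
          push_cast [Nat.cast_sub h1] at h3
          exact h3
        rw [Nat.factorial_succ]
        push_cast
        linear_combination (-(k.factorial : ℚ)) * h2
      · rw [Nat.choose_eq_zero_of_lt h1, Nat.choose_eq_zero_of_lt (show a < k + 1 by omega)]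
        simp
  unfold binom
  rw [eval_mul, eval_C, eval_prod]
  have h2 : ∏ i ∈ range k, (X - C (i : ℚ)).eval (a : ℚ) = ∏ i ∈ range k, ((a : ℚ) - (i : ℚ)) := by
    refine prod_congr rfl fun i _ => ?_
    rw [eval_sub, eval_X, eval_C]
  rw [h2, h k]
  have : (k.factorial : ℚ) ≠ 0 := by positivity
  field_simp

lemma eval_cPoly (k a : ℕ) : (cPoly k).eval (a : ℚ) = ((Q224.DelSun.c k a : ℤ) : ℚ) := by
  unfold cPoly
  rw [eval_mul, eval_comp, eval_add, eval_X, eval_C, eval_binom, Q224.DelSun.c_eq]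
  have : ((a : ℚ) + (k : ℚ)) = ((a + k : ℕ) : ℚ) := by push_cast; ring
  rw [this, eval_binom]
  push_cast
  ring

lemma eval_dPoly (n a : ℕ) : (dPoly n).eval (a : ℚ) = ((Q224.DelSun.d n a : ℤ) : ℚ) := by
  unfold dPoly Q224.DelSun.d
  rw [eval_finsetSum]
  push_cast
  refine sum_congr rfl fun k _ => ?_
  rw [eval_mul, eval_C, eval_binom]

lemma eval_sPoly (n a : ℕ) : (sPoly n).eval (a : ℚ) = ((Q224.DelSun.s n a : ℤ) : ℚ) := by
  unfold sPoly Q224.DelSun.s
  rw [eval_finsetSum]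
  push_cast
  refine sum_congr rfl fun k _ => ?_
  rw [eval_mul, eval_C, eval_cPoly]

/-- A rational polynomial with integer values at all natural numbers is integer-valued. -/
lemma integerValued_of_nat (P : ℚ[X]) (h : ∀ a : ℕ, ∃ b : ℤ, P.eval (a : ℚ) = (b : ℚ)) :
    IntegerValued P := by
  intro a
  obtain ⟨D, hD, hQ⟩ := IsLocalization.integerNormalization_spec (nonZeroDivisors ℤ) P
  set Q := IsLocalization.integerNormalization (nonZeroDivisors ℤ) P with hQdef
  have hD0 : D ≠ 0 := nonZeroDivisors.ne_zero hD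
  have hev : ∀ x : ℤ, ((Q.eval x : ℤ) : ℚ) = (D : ℚ) * P.eval (x : ℚ) := by
    intro x
    have h1 : (Q.map (algebraMap ℤ ℚ)).eval (x : ℚ) = ((Q.eval x : ℤ) : ℚ) := by
      have := Polynomial.eval_map_algebraMap (B := ℚ) Q (x : ℚ)
      rw [this]
      have h2 := Polynomial.aeval_algebraMap_apply ℚ x Q
      simpa using h2
    rw [← h1, hQ, Polynomial.eval_smul]
    simp
  -- choose t with a + |D| t ≥ 0
  obtain ⟨t, ht⟩ : ∃ t : ℤ, 0 ≤ a + D * (D * t) := by
    refine ⟨|a|, ?_⟩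
    have h1 : 1 ≤ D * D := by
      have : 0 < D * D := mul_self_pos.2 hD0
      omega
    have h2 : -|a| ≤ a := neg_abs_le a
    nlinarith [abs_nonneg a]
  obtain ⟨N, hN⟩ := Int.eq_ofNat_of_zero_le ht
  obtain ⟨b, hb⟩ := h N
  have hdvd : D ∣ Q.eval (a + D * (D * t)) := by
    refine ⟨b, ?_⟩
    have h1 := hev (a + D * (D * t))
    rw [hN] at h1 ⊢
    have h2 : (((N : ℤ) : ℤ) : ℚ) = (N : ℚ) := by push_cast; rfl
    rw [h2, hb] at h1
    exact_mod_cast h1
  have hsub : D ∣ Q.eval (a + D * (D * t)) - Q.eval a := by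
    have h1 := Polynomial.sub_dvd_eval_sub (a + D * (D * t)) a Q
    refine dvd_trans ?_ h1
    have : a + D * (D * t) - a = D * (D * t) := by ring
    rw [this]
    exact dvd_mul_right _ _
  have hda : D ∣ Q.eval a := by
    have := dvd_sub hdvd hsub
    simpa using this
  obtain ⟨e, he⟩ := hda
  refine ⟨e, ?_⟩
  have h1 := hev a
  rw [he] at h1
  have hDq : (D : ℚ) ≠ 0 := by exact_mod_cast hD0
  apply mul_left_cancel₀ hDq
  rw [← h1]
  push_cast
  ring

theorem main_A (m n : ℕ) (hn : 0 < n) : IntegerValued (A m n) := by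
  apply integerValued_of_nat
  intro a
  obtain ⟨b, hb⟩ := Q224.DelSun.dvd_main m n a
  refine ⟨b, ?_⟩
  unfold A
  rw [eval_mul, eval_C, eval_finsetSum]
  have h1 : ∑ k ∈ range n, (C (2 * (k : ℚ) + 1) * (dPoly k ^ m * sPoly k ^ m)).eval (a : ℚ) =
      ((∑ k ∈ range n, (2 * (k : ℤ) + 1) * (Q224.DelSun.d k a * Q224.DelSun.s k a) ^ m : ℤ) : ℚ) := by
    push_cast
    refine sum_congr rfl fun k _ => ?_
    rw [eval_mul, eval_C, eval_mul, eval_pow, eval_pow, eval_dPoly, eval_sPoly, mul_pow]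
  rw [h1, hb]
  have : (n : ℚ) ≠ 0 := by positivity
  push_cast
  field_simp

theorem main_B (m n : ℕ) (hn : 0 < n) : IntegerValued (B m n) := by
  apply integerValued_of_nat
  intro a
  obtain ⟨b, hb⟩ := Q224.DelSun.dvd_main_alt m n a
  refine ⟨b, ?_⟩
  unfold B
  rw [eval_mul, eval_C, eval_finsetSum]
  have h1 : ∑ k ∈ range n, (C ((-1 : ℚ) ^ k * (2 * (k : ℚ) + 1)) *
      (dPoly k ^ m * sPoly k ^ m)).eval (a : ℚ) =
      ((∑ k ∈ range n, (-1 : ℤ) ^ k * ((2 * (k : ℤ) + 1) *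
        (Q224.DelSun.d k a * Q224.DelSun.s k a) ^ m) : ℤ) : ℚ) := by
    push_cast
    refine sum_congr rfl fun k _ => ?_
    rw [eval_mul, eval_C, eval_mul, eval_pow, eval_pow, eval_dPoly, eval_sPoly, mul_pow]
    ring
  rw [h1, hb]
  have : (n : ℚ) ≠ 0 := by positivity
  push_cast
  field_simp

end Pool.Agent.Q224.DelSunDefs
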