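import Mathlib

/-!
Helper file for S07891 (MP_2e1090_co): a ray of the Dressian `Dr(3,9)` which is not the corank
subdivision of a matroid.  The tropical Plücker vector is the vector of tropical maximal minors of
`(I | A)`, where the columns of `A` are the six points
`(0,0,0), (0,1,0), (1,1,0), (1,2,0), (2,2,0), (2,3,0)`.
-/

set_option autoImplicit false

namespace Pool.Agent.Q224.Dressian

/-- table of the tropical minors, in octal, indexed by bitmask -/
def BIG : ℕ := 0x3000000000000000000000003000000000002000002004090000000000000000000000002000000000002000001004050000000000001000001003048000000003008002000098000000000000000000000000002000000000002000001003050000000000001000001003048000000002008002000090000000000000001000001002048000000002008001000050000000000001008001000048000000000008000000000000000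

def tbl (c : ℕ) : ℕ := BIG / 8 ^ c % 8

/-- value at the triple `x, y, z` -/
def T (x y z : ℕ) : ℕ := tbl (2 ^ x + (2 ^ y + 2 ^ z))

/-- the Plücker vector -/
def wN (B : Finset (Fin 9)) : ℕ := tbl (∑ i ∈ B, 2 ^ (i : ℕ))

theorem wN_triple {x y z : Fin 9} (h1 : x ≠ y) (h2 : x ≠ z) (h3 : y ≠ z) :
    wN {x, y, z} = T x y z := by
  unfold wN T
  rw [Finset.sum_insert (by simp [h1, h2]), Finset.sum_insert (by simp [h3]), Finset.sum_singleton]

/-- the three term relation for the triple sums `a, b, c` -/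
def three (a b c : ℕ) : Bool :=
  (a == b && a ≤ c) || (a == c && a ≤ b) || (b == c && b ≤ a)

def check1 : Bool :=
  (List.range 9).all fun s => (List.range 9).all fun i => i == s || (List.range 9).all fun j =>
    j == s || j == i || (List.range 9).all fun k => k == s || k == i || k == j ||
      (List.range 9).all fun l => l == s || l == i || l == j || l == k ||
        three (T i j s + T k l s) (T i k s + T j l s) (T i l s + T j k s)

theorem check1_true : check1 = true := by decide +kernel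

theorem check1_spec (s i j k l : Fin 9) (his : i ≠ s) (hjs : j ≠ s) (hks : k ≠ s) (hls : l ≠ s)
    (hij : i ≠ j) (hik : i ≠ k) (hil : i ≠ l) (hjk : j ≠ k) (hjl : j ≠ l) (hkl : k ≠ l) :
    three (T i j s + T k l s) (T i k s + T j l s) (T i l s + T j k s) = true := by
  have h := check1_true
  unfold check1 at h
  rw [List.all_eq_true] at h
  have h1 := h s (List.mem_range.2 s.2)
  rw [List.all_eq_true] at h1
  have h2 := h1 i (List.mem_range.2 i.2)
  have n1 : ((i : ℕ) == (s : ℕ)) = false := by simpa [Fin.ext_iff] using his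
  rw [n1, Bool.false_or, List.all_eq_true] at h2
  have h3 := h2 j (List.mem_range.2 j.2)
  have n2 : ((j : ℕ) == (s : ℕ)) = false := by simpa [Fin.ext_iff] using hjs
  have n3 : ((j : ℕ) == (i : ℕ)) = false := by simpa [Fin.ext_iff] using hij.symm
  rw [n2, n3, Bool.false_or, Bool.false_or, List.all_eq_true] at h3
  have h4 := h3 k (List.mem_range.2 k.2)
  have n4 : ((k : ℕ) == (s : ℕ)) = false := by simpa [Fin.ext_iff] using hks
  have n5 : ((k : ℕ) == (i : ℕ)) = false := by simpa [Fin.ext_iff] using hik.symm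
  have n6 : ((k : ℕ) == (j : ℕ)) = false := by simpa [Fin.ext_iff] using hjk.symm
  rw [n4, n5, n6, Bool.false_or, Bool.false_or, Bool.false_or, List.all_eq_true] at h4
  have h5 := h4 l (List.mem_range.2 l.2)
  have n7 : ((l : ℕ) == (s : ℕ)) = false := by simpa [Fin.ext_iff] using hls
  have n8 : ((l : ℕ) == (i : ℕ)) = false := by simpa [Fin.ext_iff] using hil.symm
  have n9 : ((l : ℕ) == (j : ℕ)) = false := by simpa [Fin.ext_iff] using hjl.symm
  have n10 : ((l : ℕ) == (k : ℕ)) = false := by simpa [Fin.ext_iff] using hkl.symm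
  rw [n7, n8, n9, n10, Bool.false_or, Bool.false_or, Bool.false_or, Bool.false_or] at h5
  exact h5

theorem three_spec {a b c : ℕ} (h : three a b c = true) :
    (a = b ∧ a ≤ c) ∨ (a = c ∧ a ≤ b) ∨ (b = c ∧ b ≤ a) := by
  unfold three at h
  simp only [Bool.or_eq_true, Bool.and_eq_true, beq_iff_eq, decide_eq_true_eq] at h
  tauto

/-! ### Cells -/

/-- slopes of the six cells -/
def E : ℕ → ℕ → ℕ
  | 1, 1 => 1
  | 1, 3 => 1
  | 2, 0 => 1
  | 2, 1 => 1
  | 2, 3 => 1
  | 2, 4 => 1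
  | 3, 0 => 1
  | 3, 1 => 2
  | 3, 3 => 2
  | 3, 4 => 1
  | 3, 5 => 1
  | 4, 0 => 2
  | 4, 1 => 2
  | 4, 3 => 2
  | 4, 4 => 2
  | 4, 5 => 1
  | 4, 6 => 1
  | 5, 0 => 2
  | 5, 1 => 3
  | 5, 3 => 3
  | 5, 4 => 2
  | 5, 5 => 2
  | 5, 6 => 1
  | 5, 7 => 1
  | _, _ => 0

/-- value of the tilted vector; the minimum of the `t`-th one is `t` -/
def Dv (t x y z : ℕ) : ℕ := T x y z + E t x + E t y + E t z

def check2 : Bool :=
  (List.range 6).all fun t => (List.range 9).all fun x => (List.range 9).all fun y =>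
    y == x || (List.range 9).all fun z => z == x || z == y || decide (t ≤ Dv t x y z)

theorem check2_true : check2 = true := by decide +kernel

def check3 : Bool :=
  (List.range 9).all fun x => (List.range 9).all fun y =>
    y == x || (List.range 9).all fun z => z == x || z == y ||
      (List.range 6).any fun t => t == Dv t x y z

theorem check3_true : check3 = true := by decide +kernel

theorem check2_spec (t : Fin 6) (x y z : Fin 9) (h1 : x ≠ y) (h2 : x ≠ z) (h3 : y ≠ z) :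
    (t : ℕ) ≤ Dv t x y z := by
  have h := check2_true
  unfold check2 at h
  rw [List.all_eq_true] at h
  have a1 := h t (List.mem_range.2 t.2)
  rw [List.all_eq_true] at a1
  have a2 := a1 x (List.mem_range.2 x.2)
  rw [List.all_eq_true] at a2
  have a3 := a2 y (List.mem_range.2 y.2)
  have n1 : ((y : ℕ) == (x : ℕ)) = false := by simpa [Fin.ext_iff] using h1.symm
  rw [n1, Bool.false_or, List.all_eq_true] at a3
  have a4 := a3 z (List.mem_range.2 z.2)
  have n2 : ((z : ℕ) == (x : ℕ)) = false := by simpa [Fin.ext_iff] using h2.symm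
  have n3 : ((z : ℕ) == (y : ℕ)) = false := by simpa [Fin.ext_iff] using h3.symm
  rw [n2, n3, Bool.false_or, Bool.false_or, decide_eq_true_eq] at a4
  exact a4

theorem check3_spec (x y z : Fin 9) (h1 : x ≠ y) (h2 : x ≠ z) (h3 : y ≠ z) :
    ∃ t : Fin 6, Dv t x y z = (t : ℕ) := by
  have h := check3_true
  unfold check3 at h
  rw [List.all_eq_true] at h
  have a2 := h x (List.mem_range.2 x.2)
  rw [List.all_eq_true] at a2
  have a3 := a2 y (List.mem_range.2 y.2)
  have n1 : ((y : ℕ) == (x : ℕ)) = false := by simpa [Fin.ext_iff] using h1.symm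
  rw [n1, Bool.false_or, List.all_eq_true] at a3
  have a4 := a3 z (List.mem_range.2 z.2)
  have n2 : ((z : ℕ) == (x : ℕ)) = false := by simpa [Fin.ext_iff] using h2.symm
  have n3 : ((z : ℕ) == (y : ℕ)) = false := by simpa [Fin.ext_iff] using h3.symm
  rw [n2, n3, Bool.false_or, Bool.false_or, List.any_eq_true] at a4
  obtain ⟨t, ht, hte⟩ := a4
  exact ⟨⟨t, List.mem_range.1 ht⟩, (beq_iff_eq.1 hte).symm⟩

/-- the vector as a real function -/
noncomputable def w (B : Finset (Fin 9)) : ℝ := (wN B : ℝ)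

theorem w_triple {x y z : Fin 9} (h1 : x ≠ y) (h2 : x ≠ z) (h3 : y ≠ z) :
    w {x, y, z} = (T x y z : ℝ) := by
  unfold w
  rw [wN_triple h1 h2 h3]

theorem sum_triple {x y z : Fin 9} (h1 : x ≠ y) (h2 : x ≠ z) (h3 : y ≠ z) (f : Fin 9 → ℝ) :
    ∑ i ∈ ({x, y, z} : Finset (Fin 9)), f i = f x + f y + f z := by
  rw [Finset.sum_insert (by simp [h1, h2]), Finset.sum_insert (by simp [h3]), Finset.sum_singleton,
    add_assoc]

theorem card_triple {x y z : Fin 9} (h1 : x ≠ y) (h2 : x ≠ z) (h3 : y ≠ z) :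
    ({x, y, z} : Finset (Fin 9)).card = 3 := Finset.card_eq_three.2 ⟨x, y, z, h1, h2, h3, rfl⟩

/-- affineness of a coarser vector on each cell -/
theorem cell (v : Finset (Fin 9) → ℝ)
    (H : ∀ c : Fin 9 → ℝ, ∃ c' : Fin 9 → ℝ,
      {B : Finset (Fin 9) | B.card = 3 ∧ ∀ B' : Finset (Fin 9), B'.card = 3 →
          w B - ∑ i ∈ B, c i ≤ w B' - ∑ i ∈ B', c i} ⊆
      {B : Finset (Fin 9) | B.card = 3 ∧ ∀ B' : Finset (Fin 9), B'.card = 3 →
          v B - ∑ i ∈ B, c' i ≤ v B' - ∑ i ∈ B', c' i}) (t : Fin 6) :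
    ∃ (δ : Fin 9 → ℝ) (κ : ℝ), ∀ x y z : Fin 9, x ≠ y → x ≠ z → y ≠ z → Dv t x y z = (t : ℕ) →
      v {x, y, z} = κ + δ x + δ y + δ z := by
  obtain ⟨δ, hδ⟩ := H (fun i => -(E t i : ℝ))
  have hmem : ∀ x y z : Fin 9, x ≠ y → x ≠ z → y ≠ z → Dv t x y z = (t : ℕ) →
      ({x, y, z} : Finset (Fin 9)) ∈ {B : Finset (Fin 9) | B.card = 3 ∧
        ∀ B' : Finset (Fin 9), B'.card = 3 → v B - ∑ i ∈ B, δ i ≤ v B' - ∑ i ∈ B', δ i} := by
    intro x y z h1 h2 h3 hD
    apply hδ
    refine ⟨card_triple h1 h2 h3, ?_⟩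
    intro B' hB'
    obtain ⟨x', y', z', g1, g2, g3, rfl⟩ := Finset.card_eq_three.1 hB'
    rw [w_triple h1 h2 h3, w_triple g1 g2 g3, sum_triple h1 h2 h3, sum_triple g1 g2 g3]
    have hle := check2_spec t x' y' z' g1 g2 g3
    unfold Dv at hD hle
    have e1 : (T x y z : ℝ) + E t x + E t y + E t z = ((t : ℕ) : ℝ) := by exact_mod_cast hD
    have e2 : ((t : ℕ) : ℝ) ≤ (T x' y' z' : ℝ) + E t x' + E t y' + E t z' := by exact_mod_cast hle
    linarith
  -- the base point
  have h012 : Dv t 0 1 2 = (t : ℕ) := by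
    fin_cases t <;> decide +kernel
  refine ⟨δ, v {0, 1, 2} - (δ 0 + δ 1 + δ 2), ?_⟩
  intro x y z h1 h2 h3 hD
  have m1 := hmem x y z h1 h2 h3 hD
  have m2 := hmem 0 1 2 (by decide) (by decide) (by decide) h012
  have l1 := m1.2 _ m2.1
  have l2 := m2.2 _ m1.1
  rw [sum_triple h1 h2 h3, sum_triple (by decide) (by decide) (by decide)] at l1 l2
  linarith

theorem forall9 (P : Fin 9 → Prop) (h0 : P 0) (h1 : P 1) (h2 : P 2) (h3 : P 3) (h4 : P 4)
    (h5 : P 5) (h6 : P 6) (h7 : P 7) (h8 : P 8) : ∀ i, P i := by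
  intro i
  fin_cases i
  exacts [h0, h1, h2, h3, h4, h5, h6, h7, h8]

theorem forall6 (P : Fin 6 → Prop) (h0 : P 0) (h1 : P 1) (h2 : P 2) (h3 : P 3) (h4 : P 4)
    (h5 : P 5) : ∀ i, P i := by
  intro i
  fin_cases i
  exacts [h0, h1, h2, h3, h4, h5]

/-- Every vector coarser than `w` is `lam * w` plus a lineality vector. -/
theorem rigid (v : Finset (Fin 9) → ℝ)
    (H : ∀ c : Fin 9 → ℝ, ∃ c' : Fin 9 → ℝ,
      {B : Finset (Fin 9) | B.card = 3 ∧ ∀ B' : Finset (Fin 9), B'.card = 3 →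
          w B - ∑ i ∈ B, c i ≤ w B' - ∑ i ∈ B', c i} ⊆
      {B : Finset (Fin 9) | B.card = 3 ∧ ∀ B' : Finset (Fin 9), B'.card = 3 →
          v B - ∑ i ∈ B, c' i ≤ v B' - ∑ i ∈ B', c' i}) :
    ∃ (lam : ℝ) (a : Fin 9 → ℝ), ∀ B : Finset (Fin 9), B.card = 3 →
      v B = lam * w B + ∑ i ∈ B, a i := by
  obtain ⟨d0, k0, h0⟩ := cell v H 0
  obtain ⟨d1, k1, h1⟩ := cell v H 1
  obtain ⟨d2, k2, h2⟩ := cell v H 2
  obtain ⟨d3, k3, h3⟩ := cell v H 3
  obtain ⟨d4, k4, h4⟩ := cell v H 4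
  obtain ⟨d5, k5, h5⟩ := cell v H 5
  have b0 := h0 0 1 2 (by decide) (by decide) (by decide) (by decide +kernel)
  have e0_03 := h0 1 2 3 (by decide) (by decide) (by decide) (by decide +kernel)
  have e0_13 := h0 0 2 3 (by decide) (by decide) (by decide) (by decide +kernel)
  have e0_23 := h0 0 1 3 (by decide) (by decide) (by decide) (by decide +kernel)
  have e0_04 := h0 1 2 4 (by decide) (by decide) (by decide) (by decide +kernel)
  have e0_24 := h0 0 1 4 (by decide) (by decide) (by decide) (by decide +kernel)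
  have e0_25 := h0 0 1 5 (by decide) (by decide) (by decide) (by decide +kernel)
  have e0_26 := h0 0 1 6 (by decide) (by decide) (by decide) (by decide +kernel)
  have e0_27 := h0 0 1 7 (by decide) (by decide) (by decide) (by decide +kernel)
  have e0_28 := h0 0 1 8 (by decide) (by decide) (by decide) (by decide +kernel)
  have b1 := h1 0 1 2 (by decide) (by decide) (by decide) (by decide +kernel)
  have e1_13 := h1 0 2 3 (by decide) (by decide) (by decide) (by decide +kernel)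
  have e1_04 := h1 1 2 4 (by decide) (by decide) (by decide) (by decide +kernel)
  have e1_14 := h1 0 2 4 (by decide) (by decide) (by decide) (by decide +kernel)
  have e1_24 := h1 0 1 4 (by decide) (by decide) (by decide) (by decide +kernel)
  have e1_15 := h1 0 2 5 (by decide) (by decide) (by decide) (by decide +kernel)
  have e1_25 := h1 0 1 5 (by decide) (by decide) (by decide) (by decide +kernel)
  have e1_26 := h1 0 1 6 (by decide) (by decide) (by decide) (by decide +kernel)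
  have e1_27 := h1 0 1 7 (by decide) (by decide) (by decide) (by decide +kernel)
  have e1_28 := h1 0 1 8 (by decide) (by decide) (by decide) (by decide +kernel)
  have b2 := h2 0 1 2 (by decide) (by decide) (by decide) (by decide +kernel)
  have e2_03 := h2 1 2 3 (by decide) (by decide) (by decide) (by decide +kernel)
  have e2_13 := h2 0 2 3 (by decide) (by decide) (by decide) (by decide +kernel)
  have e2_04 := h2 1 2 4 (by decide) (by decide) (by decide) (by decide +kernel)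
  have e2_05 := h2 1 2 5 (by decide) (by decide) (by decide) (by decide +kernel)
  have e2_15 := h2 0 2 5 (by decide) (by decide) (by decide) (by decide +kernel)
  have e2_25 := h2 0 1 5 (by decide) (by decide) (by decide) (by decide +kernel)
  have e2_06 := h2 1 2 6 (by decide) (by decide) (by decide) (by decide +kernel)
  have e2_26 := h2 0 1 6 (by decide) (by decide) (by decide) (by decide +kernel)
  have e2_27 := h2 0 1 7 (by decide) (by decide) (by decide) (by decide +kernel)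
  have e2_28 := h2 0 1 8 (by decide) (by decide) (by decide) (by decide +kernel)
  have b3 := h3 0 1 2 (by decide) (by decide) (by decide) (by decide +kernel)
  have e3_13 := h3 0 2 3 (by decide) (by decide) (by decide) (by decide +kernel)
  have e3_04 := h3 1 2 4 (by decide) (by decide) (by decide) (by decide +kernel)
  have e3_14 := h3 0 2 4 (by decide) (by decide) (by decide) (by decide +kernel)
  have e3_15 := h3 0 2 5 (by decide) (by decide) (by decide) (by decide +kernel)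
  have e3_06 := h3 1 2 6 (by decide) (by decide) (by decide) (by decide +kernel)
  have e3_16 := h3 0 2 6 (by decide) (by decide) (by decide) (by decide +kernel)
  have e3_26 := h3 0 1 6 (by decide) (by decide) (by decide) (by decide +kernel)
  have e3_17 := h3 0 2 7 (by decide) (by decide) (by decide) (by decide +kernel)
  have e3_27 := h3 0 1 7 (by decide) (by decide) (by decide) (by decide +kernel)
  have e3_28 := h3 0 1 8 (by decide) (by decide) (by decide) (by decide +kernel)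
  have b4 := h4 0 1 2 (by decide) (by decide) (by decide) (by decide +kernel)
  have e4_03 := h4 1 2 3 (by decide) (by decide) (by decide) (by decide +kernel)
  have e4_13 := h4 0 2 3 (by decide) (by decide) (by decide) (by decide +kernel)
  have e4_04 := h4 1 2 4 (by decide) (by decide) (by decide) (by decide +kernel)
  have e4_05 := h4 1 2 5 (by decide) (by decide) (by decide) (by decide +kernel)
  have e4_15 := h4 0 2 5 (by decide) (by decide) (by decide) (by decide +kernel)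
  have e4_06 := h4 1 2 6 (by decide) (by decide) (by decide) (by decide +kernel)
  have e4_07 := h4 1 2 7 (by decide) (by decide) (by decide) (by decide +kernel)
  have e4_17 := h4 0 2 7 (by decide) (by decide) (by decide) (by decide +kernel)
  have e4_27 := h4 0 1 7 (by decide) (by decide) (by decide) (by decide +kernel)
  have e4_08 := h4 1 2 8 (by decide) (by decide) (by decide) (by decide +kernel)
  have e4_28 := h4 0 1 8 (by decide) (by decide) (by decide) (by decide +kernel)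
  have b5 := h5 0 1 2 (by decide) (by decide) (by decide) (by decide +kernel)
  have e5_13 := h5 0 2 3 (by decide) (by decide) (by decide) (by decide +kernel)
  have e5_04 := h5 1 2 4 (by decide) (by decide) (by decide) (by decide +kernel)
  have e5_14 := h5 0 2 4 (by decide) (by decide) (by decide) (by decide +kernel)
  have e5_15 := h5 0 2 5 (by decide) (by decide) (by decide) (by decide +kernel)
  have e5_06 := h5 1 2 6 (by decide) (by decide) (by decide) (by decide +kernel)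
  have e5_16 := h5 0 2 6 (by decide) (by decide) (by decide) (by decide +kernel)
  have e5_17 := h5 0 2 7 (by decide) (by decide) (by decide) (by decide +kernel)
  have e5_08 := h5 1 2 8 (by decide) (by decide) (by decide) (by decide +kernel)
  have e5_18 := h5 0 2 8 (by decide) (by decide) (by decide) (by decide +kernel)
  have e5_28 := h5 0 1 8 (by decide) (by decide) (by decide) (by decide +kernel)
  obtain ⟨lam, hlam⟩ : ∃ lam : ℝ, lam = (v {0, 2, 4} - v {0, 1, 4}) - (v {0, 2, 3} - v {0, 1, 3}) :=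
    ⟨_, rfl⟩
  obtain ⟨a3, ha3⟩ : ∃ r : ℝ, r = (v {0, 1, 3} + v {0, 2, 3} + v {1, 2, 3} - 2 * v {0, 1, 2}) / 3 :=
    ⟨_, rfl⟩
  obtain ⟨a2, ha2⟩ : ∃ r : ℝ, r = v {0, 1, 2} - v {0, 1, 3} + a3 := ⟨_, rfl⟩
  obtain ⟨a1, ha1⟩ : ∃ r : ℝ, r = v {0, 1, 2} - v {0, 2, 3} + a3 := ⟨_, rfl⟩
  obtain ⟨a0, ha0⟩ : ∃ r : ℝ, r = v {0, 1, 2} - v {1, 2, 3} + a3 := ⟨_, rfl⟩
  obtain ⟨a4, ha4⟩ : ∃ r : ℝ, r = v {0, 1, 4} - a0 - a1 := ⟨_, rfl⟩
  obtain ⟨a5, ha5⟩ : ∃ r : ℝ, r = v {0, 1, 5} - a0 - a1 := ⟨_, rfl⟩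
  obtain ⟨a6, ha6⟩ : ∃ r : ℝ, r = v {0, 1, 6} - a0 - a1 := ⟨_, rfl⟩
  obtain ⟨a7, ha7⟩ : ∃ r : ℝ, r = v {0, 1, 7} - a0 - a1 := ⟨_, rfl⟩
  obtain ⟨a8, ha8⟩ : ∃ r : ℝ, r = v {0, 1, 8} - a0 - a1 := ⟨_, rfl⟩
  have s012 : v {0, 1, 2} = a0 + a1 + a2 := by linarith only [ha3, ha2, ha1, ha0]
  have s03 : v {1, 2, 3} = 0 * lam + a1 + a2 + a3 := by
    linarith only [s012, ha0]
  have s13 : v {0, 2, 3} = 0 * lam + a0 + a2 + a3 := by
    linarith only [s012, ha1]
  have s23 : v {0, 1, 3} = 0 * lam + a0 + a1 + a3 := by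
    linarith only [s012, ha2]
  have s24 : v {0, 1, 4} = 0 * lam + a0 + a1 + a4 := by
    linarith only [ha4]
  have s14 : v {0, 2, 4} = 1 * lam + a0 + a2 + a4 := by
    linarith only [hlam, s24, s13, s23]
  have s04 : v {1, 2, 4} = 0 * lam + a1 + a2 + a4 := by
    linarith only [e0_03, e0_23, e0_04, e0_24, s24, s03, s23]
  have s25 : v {0, 1, 5} = 0 * lam + a0 + a1 + a5 := by
    linarith only [ha5]
  have s15 : v {0, 2, 5} = 1 * lam + a0 + a2 + a5 := by
    linarith only [e1_14, e1_24, e1_15, e1_25, s14, s24, s25]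
  have s05 : v {1, 2, 5} = 1 * lam + a1 + a2 + a5 := by
    linarith only [e2_03, e2_13, e2_05, e2_15, s03, s13, s15]
  have s26 : v {0, 1, 6} = 0 * lam + a0 + a1 + a6 := by
    linarith only [ha6]
  have s06 : v {1, 2, 6} = 1 * lam + a1 + a2 + a6 := by
    linarith only [e2_05, e2_25, e2_06, e2_26, s05, s25, s26]
  have s16 : v {0, 2, 6} = 2 * lam + a0 + a2 + a6 := by
    linarith only [e3_04, e3_14, e3_06, e3_16, s04, s14, s06]
  have s27 : v {0, 1, 7} = 0 * lam + a0 + a1 + a7 := by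
    linarith only [ha7]
  have s17 : v {0, 2, 7} = 2 * lam + a0 + a2 + a7 := by
    linarith only [e3_16, e3_26, e3_17, e3_27, s16, s26, s27]
  have s07 : v {1, 2, 7} = 2 * lam + a1 + a2 + a7 := by
    linarith only [e4_05, e4_15, e4_07, e4_17, s05, s15, s17]
  have s28 : v {0, 1, 8} = 0 * lam + a0 + a1 + a8 := by
    linarith only [ha8]
  have s08 : v {1, 2, 8} = 2 * lam + a1 + a2 + a8 := by
    linarith only [e4_07, e4_27, e4_08, e4_28, s07, s27, s28]
  have s18 : v {0, 2, 8} = 3 * lam + a0 + a2 + a8 := by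
    linarith only [e5_06, e5_16, e5_08, e5_18, s06, s16, s08]
  have f0 : ∃ g : ℝ, k0 + 3 * g = lam * 0 ∧ ∀ i : Fin 9, d0 i = ![a0, a1, a2, a3, a4, a5, a6, a7, a8] i
      - lam * (E 0 i : ℝ) + g := by
    refine ⟨d0 2 - a2, ?_, forall9 _ ?_ ?_ ?_ ?_ ?_ ?_ ?_ ?_ ?_⟩
    · linarith only [b0, s012, e0_03, s03, e0_23, s23, e0_13, s13]
    · change d0 0 = a0 - lam * ((0 : ℕ) : ℝ) + (d0 2 - a2)
      push_cast
      linarith only [b0, s012, e0_03, s03, e0_23, s23]
    · change d0 1 = a1 - lam * ((0 : ℕ) : ℝ) + (d0 2 - a2)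
      push_cast
      linarith only [b0, s012, e0_13, s13, e0_23, s23]
    · change d0 2 = a2 - lam * ((0 : ℕ) : ℝ) + (d0 2 - a2)
      push_cast
      linarith only [b0, s012]
    · change d0 3 = a3 - lam * ((0 : ℕ) : ℝ) + (d0 2 - a2)
      push_cast
      linarith only [b0, s012, e0_23, s23]
    · change d0 4 = a4 - lam * ((0 : ℕ) : ℝ) + (d0 2 - a2)
      push_cast
      linarith only [b0, s012, e0_24, s24]
    · change d0 5 = a5 - lam * ((0 : ℕ) : ℝ) + (d0 2 - a2)
      push_cast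
      linarith only [b0, s012, e0_25, s25]
    · change d0 6 = a6 - lam * ((0 : ℕ) : ℝ) + (d0 2 - a2)
      push_cast
      linarith only [b0, s012, e0_26, s26]
    · change d0 7 = a7 - lam * ((0 : ℕ) : ℝ) + (d0 2 - a2)
      push_cast
      linarith only [b0, s012, e0_27, s27]
    · change d0 8 = a8 - lam * ((0 : ℕ) : ℝ) + (d0 2 - a2)
      push_cast
      linarith only [b0, s012, e0_28, s28]
  have f1 : ∃ g : ℝ, k1 + 3 * g = lam * 1 ∧ ∀ i : Fin 9, d1 i = ![a0, a1, a2, a3, a4, a5, a6, a7, a8] i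
      - lam * (E 1 i : ℝ) + g := by
    refine ⟨d1 2 - a2, ?_, forall9 _ ?_ ?_ ?_ ?_ ?_ ?_ ?_ ?_ ?_⟩
    · linarith only [b1, s012, e1_04, s04, e1_24, s24, e1_14, s14]
    · change d1 0 = a0 - lam * ((0 : ℕ) : ℝ) + (d1 2 - a2)
      push_cast
      linarith only [b1, s012, e1_04, s04, e1_24, s24]
    · change d1 1 = a1 - lam * ((1 : ℕ) : ℝ) + (d1 2 - a2)
      push_cast
      linarith only [b1, s012, e1_14, s14, e1_24, s24]
    · change d1 2 = a2 - lam * ((0 : ℕ) : ℝ) + (d1 2 - a2)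
      push_cast
      linarith only [b1, s012]
    · change d1 3 = a3 - lam * ((1 : ℕ) : ℝ) + (d1 2 - a2)
      push_cast
      linarith only [b1, s012, e1_13, s13, e1_14, s14, e1_24, s24]
    · change d1 4 = a4 - lam * ((0 : ℕ) : ℝ) + (d1 2 - a2)
      push_cast
      linarith only [b1, s012, e1_24, s24]
    · change d1 5 = a5 - lam * ((0 : ℕ) : ℝ) + (d1 2 - a2)
      push_cast
      linarith only [b1, s012, e1_25, s25]
    · change d1 6 = a6 - lam * ((0 : ℕ) : ℝ) + (d1 2 - a2)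
      push_cast
      linarith only [b1, s012, e1_26, s26]
    · change d1 7 = a7 - lam * ((0 : ℕ) : ℝ) + (d1 2 - a2)
      push_cast
      linarith only [b1, s012, e1_27, s27]
    · change d1 8 = a8 - lam * ((0 : ℕ) : ℝ) + (d1 2 - a2)
      push_cast
      linarith only [b1, s012, e1_28, s28]
  have f2 : ∃ g : ℝ, k2 + 3 * g = lam * 2 ∧ ∀ i : Fin 9, d2 i = ![a0, a1, a2, a3, a4, a5, a6, a7, a8] i
      - lam * (E 2 i : ℝ) + g := by
    refine ⟨d2 2 - a2, ?_, forall9 _ ?_ ?_ ?_ ?_ ?_ ?_ ?_ ?_ ?_⟩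
    · linarith only [b2, s012, e2_05, s05, e2_25, s25, e2_15, s15]
    · change d2 0 = a0 - lam * ((1 : ℕ) : ℝ) + (d2 2 - a2)
      push_cast
      linarith only [b2, s012, e2_05, s05, e2_25, s25]
    · change d2 1 = a1 - lam * ((1 : ℕ) : ℝ) + (d2 2 - a2)
      push_cast
      linarith only [b2, s012, e2_15, s15, e2_25, s25]
    · change d2 2 = a2 - lam * ((0 : ℕ) : ℝ) + (d2 2 - a2)
      push_cast
      linarith only [b2, s012]
    · change d2 3 = a3 - lam * ((1 : ℕ) : ℝ) + (d2 2 - a2)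
      push_cast
      linarith only [b2, s012, e2_03, s03, e2_05, s05, e2_25, s25]
    · change d2 4 = a4 - lam * ((1 : ℕ) : ℝ) + (d2 2 - a2)
      push_cast
      linarith only [b2, s012, e2_04, s04, e2_05, s05, e2_25, s25]
    · change d2 5 = a5 - lam * ((0 : ℕ) : ℝ) + (d2 2 - a2)
      push_cast
      linarith only [b2, s012, e2_25, s25]
    · change d2 6 = a6 - lam * ((0 : ℕ) : ℝ) + (d2 2 - a2)
      push_cast
      linarith only [b2, s012, e2_26, s26]
    · change d2 7 = a7 - lam * ((0 : ℕ) : ℝ) + (d2 2 - a2)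
      push_cast
      linarith only [b2, s012, e2_27, s27]
    · change d2 8 = a8 - lam * ((0 : ℕ) : ℝ) + (d2 2 - a2)
      push_cast
      linarith only [b2, s012, e2_28, s28]
  have f3 : ∃ g : ℝ, k3 + 3 * g = lam * 3 ∧ ∀ i : Fin 9, d3 i = ![a0, a1, a2, a3, a4, a5, a6, a7, a8] i
      - lam * (E 3 i : ℝ) + g := by
    refine ⟨d3 2 - a2, ?_, forall9 _ ?_ ?_ ?_ ?_ ?_ ?_ ?_ ?_ ?_⟩
    · linarith only [b3, s012, e3_06, s06, e3_26, s26, e3_16, s16]
    · change d3 0 = a0 - lam * ((1 : ℕ) : ℝ) + (d3 2 - a2)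
      push_cast
      linarith only [b3, s012, e3_06, s06, e3_26, s26]
    · change d3 1 = a1 - lam * ((2 : ℕ) : ℝ) + (d3 2 - a2)
      push_cast
      linarith only [b3, s012, e3_16, s16, e3_26, s26]
    · change d3 2 = a2 - lam * ((0 : ℕ) : ℝ) + (d3 2 - a2)
      push_cast
      linarith only [b3, s012]
    · change d3 3 = a3 - lam * ((2 : ℕ) : ℝ) + (d3 2 - a2)
      push_cast
      linarith only [b3, s012, e3_13, s13, e3_16, s16, e3_26, s26]
    · change d3 4 = a4 - lam * ((1 : ℕ) : ℝ) + (d3 2 - a2)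
      push_cast
      linarith only [b3, s012, e3_04, s04, e3_06, s06, e3_26, s26]
    · change d3 5 = a5 - lam * ((1 : ℕ) : ℝ) + (d3 2 - a2)
      push_cast
      linarith only [b3, s012, e3_15, s15, e3_16, s16, e3_26, s26]
    · change d3 6 = a6 - lam * ((0 : ℕ) : ℝ) + (d3 2 - a2)
      push_cast
      linarith only [b3, s012, e3_26, s26]
    · change d3 7 = a7 - lam * ((0 : ℕ) : ℝ) + (d3 2 - a2)
      push_cast
      linarith only [b3, s012, e3_27, s27]
    · change d3 8 = a8 - lam * ((0 : ℕ) : ℝ) + (d3 2 - a2)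
      push_cast
      linarith only [b3, s012, e3_28, s28]
  have f4 : ∃ g : ℝ, k4 + 3 * g = lam * 4 ∧ ∀ i : Fin 9, d4 i = ![a0, a1, a2, a3, a4, a5, a6, a7, a8] i
      - lam * (E 4 i : ℝ) + g := by
    refine ⟨d4 2 - a2, ?_, forall9 _ ?_ ?_ ?_ ?_ ?_ ?_ ?_ ?_ ?_⟩
    · linarith only [b4, s012, e4_07, s07, e4_27, s27, e4_17, s17]
    · change d4 0 = a0 - lam * ((2 : ℕ) : ℝ) + (d4 2 - a2)
      push_cast
      linarith only [b4, s012, e4_07, s07, e4_27, s27]
    · change d4 1 = a1 - lam * ((2 : ℕ) : ℝ) + (d4 2 - a2)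
      push_cast
      linarith only [b4, s012, e4_17, s17, e4_27, s27]
    · change d4 2 = a2 - lam * ((0 : ℕ) : ℝ) + (d4 2 - a2)
      push_cast
      linarith only [b4, s012]
    · change d4 3 = a3 - lam * ((2 : ℕ) : ℝ) + (d4 2 - a2)
      push_cast
      linarith only [b4, s012, e4_03, s03, e4_07, s07, e4_27, s27]
    · change d4 4 = a4 - lam * ((2 : ℕ) : ℝ) + (d4 2 - a2)
      push_cast
      linarith only [b4, s012, e4_04, s04, e4_07, s07, e4_27, s27]
    · change d4 5 = a5 - lam * ((1 : ℕ) : ℝ) + (d4 2 - a2)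
      push_cast
      linarith only [b4, s012, e4_05, s05, e4_07, s07, e4_27, s27]
    · change d4 6 = a6 - lam * ((1 : ℕ) : ℝ) + (d4 2 - a2)
      push_cast
      linarith only [b4, s012, e4_06, s06, e4_07, s07, e4_27, s27]
    · change d4 7 = a7 - lam * ((0 : ℕ) : ℝ) + (d4 2 - a2)
      push_cast
      linarith only [b4, s012, e4_27, s27]
    · change d4 8 = a8 - lam * ((0 : ℕ) : ℝ) + (d4 2 - a2)
      push_cast
      linarith only [b4, s012, e4_28, s28]
  have f5 : ∃ g : ℝ, k5 + 3 * g = lam * 5 ∧ ∀ i : Fin 9, d5 i = ![a0, a1, a2, a3, a4, a5, a6, a7, a8] i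
      - lam * (E 5 i : ℝ) + g := by
    refine ⟨d5 2 - a2, ?_, forall9 _ ?_ ?_ ?_ ?_ ?_ ?_ ?_ ?_ ?_⟩
    · linarith only [b5, s012, e5_08, s08, e5_28, s28, e5_18, s18]
    · change d5 0 = a0 - lam * ((2 : ℕ) : ℝ) + (d5 2 - a2)
      push_cast
      linarith only [b5, s012, e5_08, s08, e5_28, s28]
    · change d5 1 = a1 - lam * ((3 : ℕ) : ℝ) + (d5 2 - a2)
      push_cast
      linarith only [b5, s012, e5_18, s18, e5_28, s28]
    · change d5 2 = a2 - lam * ((0 : ℕ) : ℝ) + (d5 2 - a2)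
      push_cast
      linarith only [b5, s012]
    · change d5 3 = a3 - lam * ((3 : ℕ) : ℝ) + (d5 2 - a2)
      push_cast
      linarith only [b5, s012, e5_13, s13, e5_18, s18, e5_28, s28]
    · change d5 4 = a4 - lam * ((2 : ℕ) : ℝ) + (d5 2 - a2)
      push_cast
      linarith only [b5, s012, e5_04, s04, e5_08, s08, e5_28, s28]
    · change d5 5 = a5 - lam * ((2 : ℕ) : ℝ) + (d5 2 - a2)
      push_cast
      linarith only [b5, s012, e5_15, s15, e5_18, s18, e5_28, s28]
    · change d5 6 = a6 - lam * ((1 : ℕ) : ℝ) + (d5 2 - a2)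
      push_cast
      linarith only [b5, s012, e5_06, s06, e5_08, s08, e5_28, s28]
    · change d5 7 = a7 - lam * ((1 : ℕ) : ℝ) + (d5 2 - a2)
      push_cast
      linarith only [b5, s012, e5_17, s17, e5_18, s18, e5_28, s28]
    · change d5 8 = a8 - lam * ((0 : ℕ) : ℝ) + (d5 2 - a2)
      push_cast
      linarith only [b5, s012, e5_28, s28]
  have F : ∀ t : Fin 6, ∀ x y z : Fin 9, x ≠ y → x ≠ z → y ≠ z → Dv t x y z = (t : ℕ) →
      v {x, y, z} = lam * T x y z + (![a0, a1, a2, a3, a4, a5, a6, a7, a8] x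
        + ![a0, a1, a2, a3, a4, a5, a6, a7, a8] y + ![a0, a1, a2, a3, a4, a5, a6, a7, a8] z) := by
    refine forall6 _ ?_ ?_ ?_ ?_ ?_ ?_
    · intro x y z n1 n2 n3 hD
      obtain ⟨g, hg, hgi⟩ := f0
      have hv := h0 x y z n1 n2 n3 hD
      rw [hgi x, hgi y, hgi z] at hv
      have hD' : T x y z + E 0 x + E 0 y + E 0 z = 0 := hD
      have hD2 : (T x y z : ℝ) + E 0 x + E 0 y + E 0 z = 0 := by exact_mod_cast hD'
      rw [hv]
      linear_combination hg - lam * hD2
    · intro x y z n1 n2 n3 hD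
      obtain ⟨g, hg, hgi⟩ := f1
      have hv := h1 x y z n1 n2 n3 hD
      rw [hgi x, hgi y, hgi z] at hv
      have hD' : T x y z + E 1 x + E 1 y + E 1 z = 1 := hD
      have hD2 : (T x y z : ℝ) + E 1 x + E 1 y + E 1 z = 1 := by exact_mod_cast hD'
      rw [hv]
      linear_combination hg - lam * hD2
    · intro x y z n1 n2 n3 hD
      obtain ⟨g, hg, hgi⟩ := f2
      have hv := h2 x y z n1 n2 n3 hD
      rw [hgi x, hgi y, hgi z] at hv
      have hD' : T x y z + E 2 x + E 2 y + E 2 z = 2 := hD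
      have hD2 : (T x y z : ℝ) + E 2 x + E 2 y + E 2 z = 2 := by exact_mod_cast hD'
      rw [hv]
      linear_combination hg - lam * hD2
    · intro x y z n1 n2 n3 hD
      obtain ⟨g, hg, hgi⟩ := f3
      have hv := h3 x y z n1 n2 n3 hD
      rw [hgi x, hgi y, hgi z] at hv
      have hD' : T x y z + E 3 x + E 3 y + E 3 z = 3 := hD
      have hD2 : (T x y z : ℝ) + E 3 x + E 3 y + E 3 z = 3 := by exact_mod_cast hD'
      rw [hv]
      linear_combination hg - lam * hD2
    · intro x y z n1 n2 n3 hD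
      obtain ⟨g, hg, hgi⟩ := f4
      have hv := h4 x y z n1 n2 n3 hD
      rw [hgi x, hgi y, hgi z] at hv
      have hD' : T x y z + E 4 x + E 4 y + E 4 z = 4 := hD
      have hD2 : (T x y z : ℝ) + E 4 x + E 4 y + E 4 z = 4 := by exact_mod_cast hD'
      rw [hv]
      linear_combination hg - lam * hD2
    · intro x y z n1 n2 n3 hD
      obtain ⟨g, hg, hgi⟩ := f5
      have hv := h5 x y z n1 n2 n3 hD
      rw [hgi x, hgi y, hgi z] at hv
      have hD' : T x y z + E 5 x + E 5 y + E 5 z = 5 := hD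
      have hD2 : (T x y z : ℝ) + E 5 x + E 5 y + E 5 z = 5 := by exact_mod_cast hD'
      rw [hv]
      linear_combination hg - lam * hD2
  refine ⟨lam, ![a0, a1, a2, a3, a4, a5, a6, a7, a8], fun B hB => ?_⟩
  obtain ⟨x, y, z, n1, n2, n3, rfl⟩ := Finset.card_eq_three.1 hB
  obtain ⟨t, ht⟩ := check3_spec x y z n1 n2 n3
  rw [F t x y z n1 n2 n3 ht, w_triple n1 n2 n3, sum_triple n1 n2 n3]

/-- `w` is not a lineality vector. -/
theorem not_trivial (c : Fin 9 → ℝ) (hc : ∀ B : Finset (Fin 9), B.card = 3 →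
    ∀ B' : Finset (Fin 9), B'.card = 3 → w B - ∑ i ∈ B, c i ≤ w B' - ∑ i ∈ B', c i) : False := by
  have heq : ∀ B B' : Finset (Fin 9), B.card = 3 → B'.card = 3 →
      w B - ∑ i ∈ B, c i = w B' - ∑ i ∈ B', c i :=
    fun B B' h h' => le_antisymm (hc B h B' h') (hc B' h' B h)
  have g : ∀ x y z : Fin 9, x ≠ y → x ≠ z → y ≠ z →
      w {x, y, z} - ∑ i ∈ ({x, y, z} : Finset (Fin 9)), c i = (T x y z : ℝ) - (c x + c y + c z) := by
    intro x y z h1 h2 h3
    rw [w_triple h1 h2 h3, sum_triple h1 h2 h3]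
  have g1 : w {0, 2, 4} - ∑ i ∈ ({0, 2, 4} : Finset (Fin 9)), c i
      = ((1 : ℕ) : ℝ) - (c 0 + c 2 + c 4) := g 0 2 4 (by decide) (by decide) (by decide)
  have g2 : w {0, 1, 4} - ∑ i ∈ ({0, 1, 4} : Finset (Fin 9)), c i
      = ((0 : ℕ) : ℝ) - (c 0 + c 1 + c 4) := g 0 1 4 (by decide) (by decide) (by decide)
  have g3 : w {0, 2, 3} - ∑ i ∈ ({0, 2, 3} : Finset (Fin 9)), c i
      = ((0 : ℕ) : ℝ) - (c 0 + c 2 + c 3) := g 0 2 3 (by decide) (by decide) (by decide)
  have g4 : w {0, 1, 3} - ∑ i ∈ ({0, 1, 3} : Finset (Fin 9)), c i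
      = ((0 : ℕ) : ℝ) - (c 0 + c 1 + c 3) := g 0 1 3 (by decide) (by decide) (by decide)
  have q1 := heq {0, 2, 4} {0, 1, 4} (by decide) (by decide)
  have q2 := heq {0, 2, 3} {0, 1, 3} (by decide) (by decide)
  rw [g1, g2] at q1
  rw [g3, g4] at q2
  push_cast at q1 q2
  linarith

theorem rk_step (M : Matroid (Fin 9)) (x : Fin 9) :
    (M.eRk (({0, 2, x} : Finset (Fin 9)) : Set (Fin 9))).toNat ≤
      (M.eRk (({0, 1, x} : Finset (Fin 9)) : Set (Fin 9))).toNat + 1 ∧
    (M.eRk (({0, 1, x} : Finset (Fin 9)) : Set (Fin 9))).toNat ≤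
      (M.eRk (({0, 2, x} : Finset (Fin 9)) : Set (Fin 9))).toNat + 1 := by
  have hfin : ∀ X : Set (Fin 9), M.eRk X ≠ ⊤ := by
    intro X h
    have h1 := M.eRk_le_encard X
    rw [h, top_le_iff, Set.encard_eq_top_iff] at h1
    exact h1 (Set.toFinite X)
  have key : ∀ p q : Fin 9, (M.eRk (({0, p, x} : Finset (Fin 9)) : Set (Fin 9))).toNat ≤
      (M.eRk (({0, q, x} : Finset (Fin 9)) : Set (Fin 9))).toNat + 1 := by
    intro p q
    have h1 : M.eRk (({0, p, x} : Finset (Fin 9)) : Set (Fin 9)) ≤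
        M.eRk (({0, q, x} : Finset (Fin 9)) : Set (Fin 9)) + 1 := by
      have e1 : (({0, p, x} : Finset (Fin 9)) : Set (Fin 9)) = insert p {0, x} := by
        ext y; simp; tauto
      rw [e1]
      refine (M.eRk_insert_le_add_one p {0, x}).trans ?_
      gcongr
      apply M.eRk_mono
      intro y hy
      simp only [Set.mem_insert_iff, Set.mem_singleton_iff] at hy
      rcases hy with rfl | rfl <;> simp
    have h2 := ENat.toNat_le_toNat h1 (by
      rw [ne_eq, ENat.add_eq_top, not_or]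
      exact ⟨hfin _, ENat.one_ne_top⟩)
    rwa [ENat.toNat_add (hfin _) ENat.one_ne_top] at h2
  exact ⟨key 2 1, key 1 2⟩

/-- `w` does not induce the corank subdivision of a matroid. -/
theorem not_corank (M : Matroid (Fin 9))
    (hM1 : ∀ c : Fin 9 → ℝ, ∃ c' : Fin 9 → ℝ,
          {B : Finset (Fin 9) | B.card = 3 ∧ ∀ B' : Finset (Fin 9), B'.card = 3 →
              w B - ∑ i ∈ B, c i ≤ w B' - ∑ i ∈ B', c i} =
          {B : Finset (Fin 9) | B.card = 3 ∧ ∀ B' : Finset (Fin 9), B'.card = 3 →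
              (((3 : ℕ) : ℝ) - ((M.eRk (B : Set (Fin 9))).toNat : ℝ)) - ∑ i ∈ B, c' i ≤
              (((3 : ℕ) : ℝ) - ((M.eRk (B' : Set (Fin 9))).toNat : ℝ)) - ∑ i ∈ B', c' i})
    (hM2 : ∀ c : Fin 9 → ℝ, ∃ c' : Fin 9 → ℝ,
          {B : Finset (Fin 9) | B.card = 3 ∧ ∀ B' : Finset (Fin 9), B'.card = 3 →
              (((3 : ℕ) : ℝ) - ((M.eRk (B : Set (Fin 9))).toNat : ℝ)) - ∑ i ∈ B, c i ≤
              (((3 : ℕ) : ℝ) - ((M.eRk (B' : Set (Fin 9))).toNat : ℝ)) - ∑ i ∈ B', c i} =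
          {B : Finset (Fin 9) | B.card = 3 ∧ ∀ B' : Finset (Fin 9), B'.card = 3 →
              w B - ∑ i ∈ B, c' i ≤ w B' - ∑ i ∈ B', c' i}) : False := by
  obtain ⟨lam, a, hva⟩ := rigid
    (fun B => ((3 : ℕ) : ℝ) - ((M.eRk (B : Set (Fin 9))).toNat : ℝ)) (fun c => by
      obtain ⟨c', h⟩ := hM1 c
      exact ⟨c', h.subset⟩)
  -- `lam = 0`
  have hlam : lam = 0 := by
    have g : ∀ x y z : Fin 9, x ≠ y → x ≠ z → y ≠ z →
        ((3 : ℕ) : ℝ) - ((M.eRk (({x, y, z} : Finset (Fin 9)) : Set (Fin 9))).toNat : ℝ)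
          = lam * (T x y z : ℝ) + (a x + a y + a z) := by
      intro x y z h1 h2 h3
      have := hva _ (card_triple h1 h2 h3)
      rw [w_triple h1 h2 h3, sum_triple h1 h2 h3] at this
      exact this
    have p3 : _ = lam * ((0 : ℕ) : ℝ) + (a 0 + a 2 + a 3) := g 0 2 3 (by decide) (by decide) (by decide)
    have q3 : _ = lam * ((0 : ℕ) : ℝ) + (a 0 + a 1 + a 3) := g 0 1 3 (by decide) (by decide) (by decide)
    have p4 : _ = lam * ((1 : ℕ) : ℝ) + (a 0 + a 2 + a 4) := g 0 2 4 (by decide) (by decide) (by decide)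
    have q4 : _ = lam * ((0 : ℕ) : ℝ) + (a 0 + a 1 + a 4) := g 0 1 4 (by decide) (by decide) (by decide)
    have p6 : _ = lam * ((2 : ℕ) : ℝ) + (a 0 + a 2 + a 6) := g 0 2 6 (by decide) (by decide) (by decide)
    have q6 : _ = lam * ((0 : ℕ) : ℝ) + (a 0 + a 1 + a 6) := g 0 1 6 (by decide) (by decide) (by decide)
    have p8 : _ = lam * ((3 : ℕ) : ℝ) + (a 0 + a 2 + a 8) := g 0 2 8 (by decide) (by decide) (by decide)
    have q8 : _ = lam * ((0 : ℕ) : ℝ) + (a 0 + a 1 + a 8) := g 0 1 8 (by decide) (by decide) (by decide)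
    have r3 := rk_step M 3
    have r8 := rk_step M 8
    generalize (M.eRk (({0, 2, 3} : Finset (Fin 9)) : Set (Fin 9))).toNat = P3 at *
    generalize (M.eRk (({0, 1, 3} : Finset (Fin 9)) : Set (Fin 9))).toNat = Q3 at *
    generalize (M.eRk (({0, 2, 4} : Finset (Fin 9)) : Set (Fin 9))).toNat = P4 at *
    generalize (M.eRk (({0, 1, 4} : Finset (Fin 9)) : Set (Fin 9))).toNat = Q4 at *
    generalize (M.eRk (({0, 2, 6} : Finset (Fin 9)) : Set (Fin 9))).toNat = P6 at *
    generalize (M.eRk (({0, 1, 6} : Finset (Fin 9)) : Set (Fin 9))).toNat = Q6 at *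
    generalize (M.eRk (({0, 2, 8} : Finset (Fin 9)) : Set (Fin 9))).toNat = P8 at *
    generalize (M.eRk (({0, 1, 8} : Finset (Fin 9)) : Set (Fin 9))).toNat = Q8 at *
    push_cast at p3 q3 p4 q4 p6 q6 p8 q8
    -- the step `lam` is the integer `m`
    have h34 : lam = (((Q4 : ℤ) - P4 - (Q3 - P3) : ℤ) : ℝ) := by push_cast; linarith
    have h8 : 3 * lam = (((Q8 : ℤ) - P8 - (Q3 - P3) : ℤ) : ℝ) := by push_cast; linarith
    generalize hm : ((Q4 : ℤ) - P4 - (Q3 - P3)) = m at h34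
    have h8' : 3 * m = (Q8 : ℤ) - P8 - (Q3 - P3) := by
      rw [h34] at h8
      exact_mod_cast h8
    have hm0 : m = 0 := by omega
    rw [h34, hm0]
    simp
  -- then the corank vector is trivial
  obtain ⟨c', hc'⟩ := hM2 a
  apply not_trivial c'
  intro B hB
  have hmem : B ∈ {B : Finset (Fin 9) | B.card = 3 ∧ ∀ B' : Finset (Fin 9), B'.card = 3 →
              (((3 : ℕ) : ℝ) - ((M.eRk (B : Set (Fin 9))).toNat : ℝ)) - ∑ i ∈ B, a i ≤
              (((3 : ℕ) : ℝ) - ((M.eRk (B' : Set (Fin 9))).toNat : ℝ)) - ∑ i ∈ B', a i} := by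
    refine ⟨hB, fun B' hB' => ?_⟩
    have h1 := hva B hB
    have h2 := hva B' hB'
    rw [hlam] at h1 h2
    linarith
  rw [hc'] at hmem
  exact hmem.2

end Pool.Agent.Q224.Dressian
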