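import Mathlib

namespace Pool.Agent.Q224.Lenstra

/-- `q` lies in `ℤ_(2)`. -/
def O (q : ℚ) : Prop := ∃ a b : ℤ, Odd b ∧ q * b = a

lemma O_int (a : ℤ) : O (a : ℚ) := ⟨a, 1, odd_one, by simp⟩

lemma O_nat (a : ℕ) : O (a : ℚ) := ⟨a, 1, odd_one, by simp⟩

lemma O_add {p q : ℚ} (hp : O p) (hq : O q) : O (p + q) := by
  obtain ⟨a, b, hb, h1⟩ := hp
  obtain ⟨c, d, hd, h2⟩ := hq
  refine ⟨a * d + c * b, b * d, hb.mul hd, ?_⟩
  push_cast
  linear_combination (d : ℚ) * h1 + (b : ℚ) * h2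

lemma O_mul {p q : ℚ} (hp : O p) (hq : O q) : O (p * q) := by
  obtain ⟨a, b, hb, h1⟩ := hp
  obtain ⟨c, d, hd, h2⟩ := hq
  refine ⟨a * c, b * d, hb.mul hd, ?_⟩
  push_cast
  linear_combination (q * (d : ℚ)) * h1 + (a : ℚ) * h2

lemma O_neg {p : ℚ} (hp : O p) : O (-p) := by
  obtain ⟨a, b, hb, h1⟩ := hp
  exact ⟨-a, b, hb, by push_cast; linear_combination -h1⟩

lemma O_sub {p q : ℚ} (hp : O p) (hq : O q) : O (p - q) := by
  rw [sub_eq_add_neg]; exact O_add hp (O_neg hq)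

lemma O_pow {p : ℚ} (hp : O p) (n : ℕ) : O (p ^ n) := by
  induction n with
  | zero => rw [pow_zero]; exact_mod_cast O_int 1
  | succ n ih => rw [pow_succ]; exact O_mul ih hp

lemma O_ofNat (n : ℕ) [n.AtLeastTwo] : O (OfNat.ofNat n : ℚ) := by
  have := O_nat n
  exact_mod_cast this

lemma O_one : O (1 : ℚ) := by exact_mod_cast O_int 1

/-- Division by an odd integer. -/
lemma O_div {p : ℚ} (hp : O p) {m : ℤ} (hm : Odd m) : O (p / m) := by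
  obtain ⟨a, b, hb, h1⟩ := hp
  have hm0 : (m : ℚ) ≠ 0 := by
    have : m ≠ 0 := by rintro rfl; exact absurd hm (by decide)
    exact_mod_cast this
  refine ⟨a, b * m, hb.mul hm, ?_⟩
  push_cast
  rw [← h1]
  field_simp

lemma odd_den_of_O {q : ℚ} (h : O q) : Odd q.den := by
  obtain ⟨a, b, hb, h1⟩ := h
  have hb0 : (b : ℚ) ≠ 0 := by
    have : b ≠ 0 := by rintro rfl; exact absurd hb (by decide)
    exact_mod_cast this
  have hq : q = (a : ℚ) / (b : ℚ) := by rw [eq_div_iff hb0]; exact h1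
  have hd : ((q.den : ℤ)) ∣ b := by
    rw [hq]
    exact_mod_cast Rat.den_dvd a b
  have : Odd (q.den : ℤ) := by
    obtain ⟨c, hc⟩ := hd
    rw [hc] at hb
    exact Int.Odd.of_mul_left hb
  exact_mod_cast this

/-! ### base computation -/

/-- state check: `x_n q = p + M s`. -/
def St (x : ℕ → ℚ) (n M p q : ℕ) : Prop :=
  Odd q ∧ O (x n) ∧ ∃ s, O s ∧ x n * q = p + M * s

lemma O_of_mul_odd {z : ℚ} {m : ℤ} (hm : Odd m) (h : O (z * m)) : O z := by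
  have hm0 : (m : ℚ) ≠ 0 := by
    have : m ≠ 0 := by rintro rfl; exact absurd hm (by decide)
    exact_mod_cast this
  have := O_div h hm
  rwa [mul_div_assoc, div_self hm0, mul_one] at this

lemma St_step {x : ℕ → ℚ} {n M p q g b M' t : ℕ} (h : St x n M p q)
    (hx : ((n : ℚ) + 1) * x (n + 1) = x n * (x n + n))
    (hgb : g * b = n + 1) (hb : Odd b) (hM : g * M' = M) (hM' : Even M')
    (ht : g * t = p * (p + n * q)) :
    St x (n + 1) M' (t % M') ((q * q * b) % M') := by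
  obtain ⟨hq, hxO, s, hs, he⟩ := h
  have hg0 : (g : ℚ) ≠ 0 := by
    have : g ≠ 0 := by rintro rfl; simp at hgb
    exact_mod_cast this
  -- x_{n+1} q² b = t + M' s'
  have hgbq : (g : ℚ) * b = n + 1 := by exact_mod_cast hgb
  have hMq : (g : ℚ) * M' = M := by exact_mod_cast hM
  have htq : (g : ℚ) * t = p * (p + n * q) := by exact_mod_cast ht
  have key : x (n + 1) * ((q : ℚ) * q * b) = t + M' * (s * (2 * p + M * s + n * q)) := by
    apply mul_left_cancel₀ hg0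
    have h1 : (g : ℚ) * (x (n + 1) * ((q : ℚ) * q * b)) = (x n * q) * (x n * q + n * q) := by
      have : (g : ℚ) * (x (n + 1) * ((q : ℚ) * q * b)) = ((n : ℚ) + 1) * x (n + 1) * (q * q) := by
        rw [← hgbq]; ring
      rw [this, hx]; ring
    rw [h1, he]
    linear_combination (-1 : ℚ) * htq - (s * (2 * p + M * s + n * q)) * hMq
  have hs' : O (s * (2 * p + M * s + n * q)) := by
    refine O_mul hs (O_add (O_add (O_mul (O_ofNat 2) (O_nat p)) (O_mul (O_nat M) hs))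
      (O_mul (O_nat n) (O_nat q)))
  have hodd : Odd (q * q * b) := (hq.mul hq).mul hb
  have hxO' : O (x (n + 1)) := by
    have hm : Odd ((q * q * b : ℕ) : ℤ) := by exact_mod_cast hodd
    apply O_of_mul_odd hm
    push_cast
    rw [key]
    exact O_add (O_nat t) (O_mul (O_nat M') hs')
  refine ⟨?_, hxO', ?_⟩
  · rw [Nat.odd_iff] at hodd ⊢
    rw [Nat.mod_mod_of_dvd _ hM'.two_dvd]
    exact hodd
  · -- reduce modulo M'
    have h1 := Nat.div_add_mod t M'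
    have h2 := Nat.div_add_mod (q * q * b) M'
    refine ⟨s * (2 * p + M * s + n * q) + (t / M' : ℕ) - x (n + 1) * ((q * q * b) / M' : ℕ), ?_, ?_⟩
    · exact O_sub (O_add hs' (O_nat _)) (O_mul hxO' (O_nat _))
    · have h1q : (M' : ℚ) * (t / M' : ℕ) + (t % M' : ℕ) = t := by exact_mod_cast h1
      have h2q : (M' : ℚ) * ((q * q * b) / M' : ℕ) + ((q * q * b) % M' : ℕ) = (q : ℚ) * q * b := by
        exact_mod_cast h2
      linear_combination key + x (n + 1) * h2q - h1q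

/-- Compute the next state; `none` if some check fails. -/
def next (n : ℕ) (st : ℕ × ℕ × ℕ) : Option (ℕ × ℕ × ℕ) :=
  let M := st.1
  let p := st.2.1
  let q := st.2.2
  let g := Nat.gcd (n + 1) 1024
  let b := (n + 1) / g
  let M' := M / g
  let w := p * (p + n * q)
  let t := w / g
  if g * b = n + 1 ∧ b % 2 = 1 ∧ g * M' = M ∧ M' % 2 = 0 ∧ g * t = w then
    some (M', t % M', (q * q * b) % M')
  else none

/-- Iterate `next` starting from `x_1 = 2`. -/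
def run : ℕ → Option (ℕ × ℕ × ℕ)
  | 0 => some (2 ^ 150 * 2 ^ 150, 2, 1)
  | k + 1 => (run k).bind (next (k + 1))

lemma run_spec {x : ℕ → ℚ} (hx1 : x 1 = 2)
    (hx : ∀ n : ℕ, 1 ≤ n → ((n : ℚ) + 1) * x (n + 1) = x n * (x n + n)) (k : ℕ) :
    ∀ M p q, run k = some (M, p, q) →
      St x (k + 1) M p q ∧ ∀ n, 1 ≤ n → n ≤ k + 1 → O (x n) := by
  induction k with
  | zero =>
    intro M p q h
    simp only [run, Option.some.injEq, Prod.mk.injEq] at h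
    obtain ⟨rfl, rfl, rfl⟩ := h
    have h2 : O (x 1) := by rw [hx1]; exact O_ofNat 2
    refine ⟨⟨odd_one, h2, 0, by exact_mod_cast O_int 0, by rw [hx1]; push_cast; ring⟩, ?_⟩
    intro n h1 h3
    have : n = 1 := by omega
    rw [this]; exact h2
  | succ k ih =>
    intro M p q h
    rw [run] at h
    rcases hr : run k with _ | ⟨M0, p0, q0⟩
    · rw [hr] at h; simp at h
    · rw [hr] at h
      simp only [Option.bind_some] at h
      obtain ⟨h1, h2⟩ := ih M0 p0 q0 hr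
      unfold next at h
      simp only at h
      split_ifs at h with hc
      obtain ⟨c1, c2, c3, c4, c5⟩ := hc
      simp only [Option.some.injEq, Prod.mk.injEq] at h
      obtain ⟨e1, e2, e3⟩ := h
      have hs := St_step h1 (by have := hx (k + 1) (by omega); push_cast at this ⊢; exact this)
        c1 (Nat.odd_iff.2 c2) c3 (Nat.even_iff.2 c4) c5
      subst e1
      subst e2
      subst e3
      refine ⟨hs, ?_⟩
      intro n h3 h4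
      rcases Nat.lt_or_ge n (k + 2) with h5 | h5
      · exact h2 n h3 (by omega)
      · have : n = k + 1 + 1 := by omega
        rw [this]; exact hs.2.1

/-- the final check at `n = 256`. -/
def chk : Bool := match run 255 with
  | some (M, p, _) => M % 128 == 0 && p % 128 == 64
  | none => false

lemma chk_true : chk = true := by decide +kernel

lemma base {x : ℕ → ℚ} (hx1 : x 1 = 2)
    (hx : ∀ n : ℕ, 1 ≤ n → ((n : ℚ) + 1) * x (n + 1) = x n * (x n + n)) :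
    (∀ n, 1 ≤ n → n ≤ 256 → O (x n)) ∧ ∃ s, O s ∧ x 256 = 64 * (1 + 2 * s) := by
  have h := chk_true
  unfold chk at h
  rcases hr : run 255 with _ | ⟨M, p, q⟩
  · rw [hr] at h; simp at h
  · rw [hr] at h
    simp only [Bool.and_eq_true, beq_iff_eq] at h
    obtain ⟨hM, hp⟩ := h
    obtain ⟨⟨hq, hxO, s, hs, he⟩, h2⟩ := run_spec hx1 hx 255 M p q hr
    refine ⟨h2, ?_⟩
    -- x q = p + M s ; M = 128 M1, p = 64 + 128 p1 ; q = 2 q1 + 1
    obtain ⟨q1, hq1⟩ := hq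
    obtain ⟨M1, hM1⟩ : ∃ M1, M = 128 * M1 := ⟨M / 128, by omega⟩
    obtain ⟨p1, hp1⟩ : ∃ p1, p = 64 + 128 * p1 := ⟨p / 128, by omega⟩
    have hqz : Odd (q : ℤ) := by exact_mod_cast (⟨q1, hq1⟩ : Odd q)
    have hq0 : (q : ℚ) ≠ 0 := by
      have : q ≠ 0 := by omega
      exact_mod_cast this
    refine ⟨((p1 : ℚ) + M1 * s - q1) / ((q : ℤ) : ℚ), O_div (O_sub (O_add (O_nat _) (O_mul (O_nat _) hs)) (O_nat _)) hqz, ?_⟩
    have he' : x 256 * q = p + M * s := he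
    apply mul_right_cancel₀ hq0
    rw [he']
    push_cast
    have e1 : (64 * (1 + 2 * (((p1 : ℚ) + M1 * s - q1) / q))) * q =
        64 * q + 128 * ((p1 : ℚ) + M1 * s - q1) := by
      field_simp
      ring
    rw [e1]
    have e2 : (q : ℚ) = 2 * q1 + 1 := by exact_mod_cast hq1
    have e3 : (M : ℚ) = 128 * M1 := by exact_mod_cast hM1
    have e4 : (p : ℚ) = 64 + 128 * p1 := by exact_mod_cast hp1
    rw [e2, e3, e4]; ring

/-! ### blocks -/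

/-- congruence modulo 32 in `ℤ_(2)` -/
def Cg (A : ℚ) (a : ℤ) : Prop := ∃ s, O s ∧ A = a + 32 * s

lemma Cg.O {A : ℚ} {a : ℤ} (h : Cg A a) : O A := by
  obtain ⟨s, hs, rfl⟩ := h
  exact O_add (O_int a) (O_mul (O_ofNat 32) hs)

lemma Cg_of_mod {A : ℚ} {a b : ℤ} (h : Cg A a) (hab : a % 32 = b % 32) : Cg A b := by
  obtain ⟨s, hs, rfl⟩ := h
  obtain ⟨c, hc⟩ : ∃ c : ℤ, a = b + 32 * c := ⟨(a - b) / 32, by omega⟩
  refine ⟨s + c, O_add hs (O_int c), ?_⟩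
  rw [hc]; push_cast; ring

/-- The flat part of a block. -/
lemma flat {x y : ℕ → ℚ} (hy : ∀ n : ℕ, 1 ≤ n → y n = n * x n)
    (hstep : ∀ n : ℕ, 1 ≤ n → y (n + 1) = y n + x n ^ 2) {m i : ℕ} (_hi : 1 ≤ i) {A : ℚ} {a : ℤ}
    (hA : Cg A a) (h1 : y (2 ^ m * i + 1) = 16 * (2 ^ m) ^ 2 * A) (r : ℕ) :
    r + 1 ≤ 2 ^ m → (∃ B, Cg B a ∧ y (2 ^ m * i + (r + 1)) = 16 * (2 ^ m) ^ 2 * B) ∧
      ∀ r', 1 ≤ r' → r' ≤ r → O (x (2 ^ m * i + r')) := by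
  induction r with
  | zero =>
    intro _
    refine ⟨⟨A, hA, by simpa using h1⟩, ?_⟩
    intro r' h2 h3; omega
  | succ r ih =>
    intro hr
    obtain ⟨⟨B, hB, hyB⟩, hO⟩ := ih (by omega)
    -- n = 2^m i + (r+1), r + 1 < 2^m
    obtain ⟨e, b, hb, hrb⟩ := Nat.exists_eq_two_pow_mul_odd (n := r + 1) (by omega)
    have he : e < m := by
      by_contra hcon
      push Not at hcon
      have h5 : 2 ^ m ≤ 2 ^ e := Nat.pow_le_pow_right (by norm_num) hcon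
      have h6 : 2 ^ e ≤ r + 1 := by
        rw [hrb]; exact Nat.le_mul_of_pos_right _ hb.pos
      omega
    obtain ⟨w, hw⟩ : ∃ w, m = e + 1 + w := ⟨m - e - 1, by omega⟩
    -- n = 2^e (2^{w+1} i + b)
    have hn : 2 ^ m * i + (r + 1) = 2 ^ e * (2 ^ (w + 1) * i + b) := by
      rw [hrb, hw]; ring
    have hodd : Odd (2 ^ (w + 1) * i + b) := by
      refine Even.add_odd ⟨2 ^ w * i, by rw [pow_succ]; ring⟩ hb
    have hoddz : Odd (((2 ^ (w + 1) * i + b : ℕ) : ℤ)) := by exact_mod_cast hodd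
    have hxn : x (2 ^ m * i + (r + 1)) =
        32 * 2 ^ m * (2 ^ w * (B / (((2 ^ (w + 1) * i + b : ℕ) : ℤ) : ℚ))) := by
      have h7 := hy (2 ^ m * i + (r + 1)) (by omega)
      rw [hyB] at h7
      have h8 : ((2 ^ m * i + (r + 1) : ℕ) : ℚ) = 2 ^ e * ((2 ^ (w + 1) * i + b : ℕ) : ℚ) := by
        rw [hn]; push_cast; ring
      rw [h8] at h7
      have h9 : (((2 ^ (w + 1) * i + b : ℕ) : ℤ) : ℚ) = ((2 ^ (w + 1) * i + b : ℕ) : ℚ) := by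
        push_cast; ring
      rw [h9]
      have h10 : ((2 ^ (w + 1) * i + b : ℕ) : ℚ) ≠ 0 := by
        have : 2 ^ (w + 1) * i + b ≠ 0 := by
          have := hb.pos; omega
        exact_mod_cast this
      have h11 : (2 : ℚ) ^ e ≠ 0 := by positivity
      apply mul_left_cancel₀ (mul_ne_zero h11 h10)
      rw [← h7, hw]
      field_simp
      ring
    have hOC : O (2 ^ w * (B / (((2 ^ (w + 1) * i + b : ℕ) : ℤ) : ℚ))) :=
      O_mul (O_pow (O_ofNat 2) w) (O_div hB.O hoddz)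
    set Cc : ℚ := 2 ^ w * (B / (((2 ^ (w + 1) * i + b : ℕ) : ℤ) : ℚ)) with hCc
    refine ⟨⟨B + 64 * Cc ^ 2, ?_, ?_⟩, ?_⟩
    · obtain ⟨s, hs, hBs⟩ := hB
      exact ⟨s + 2 * Cc ^ 2, O_add hs (O_mul (O_ofNat 2) (O_pow hOC 2)), by rw [hBs]; ring⟩
    · have h12 := hstep (2 ^ m * i + (r + 1)) (by omega)
      rw [hyB, hxn] at h12
      have : 2 ^ m * i + (r + 1 + 1) = 2 ^ m * i + (r + 1) + 1 := by ring
      rw [this, h12]; ring
    · intro r' h2 h3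
      rcases Nat.lt_or_ge r' (r + 1) with h4 | h4
      · exact hO r' h2 (by omega)
      · have : r' = r + 1 := by omega
        rw [this, hxn]
        have h13 : O ((2 : ℚ) ^ m) := O_pow (O_ofNat 2) m
        exact O_mul (O_mul (O_ofNat 32) h13) hOC

/-- `y_{2^m i} = 16 · 4^m · A` with `A ≡ a (mod 32)`. -/
def Rr (y : ℕ → ℚ) (m i : ℕ) (a : ℤ) : Prop :=
  ∃ A, Cg A a ∧ y (2 ^ m * i) = 16 * (2 ^ m) ^ 2 * A

def OKb (x : ℕ → ℚ) (m i : ℕ) : Prop := ∀ n, 2 ^ m * i ≤ n → n < 2 ^ m * (i + 1) → O (x n)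

lemma blockstep {x y : ℕ → ℚ} (hy : ∀ n : ℕ, 1 ≤ n → y n = n * x n)
    (hstep : ∀ n : ℕ, 1 ≤ n → y (n + 1) = y n + x n ^ 2) {m i : ℕ} (hi : 1 ≤ i) {A' : ℚ} {a' : ℤ}
    (hA' : Cg A' a') (hx : O (x (2 ^ m * i))) (h1 : y (2 ^ m * i + 1) = 16 * (2 ^ m) ^ 2 * A') :
    Rr y m (i + 1) (a' % 32) ∧ OKb x m i := by
  have hp : 0 < 2 ^ m := by positivity
  obtain ⟨⟨B, hB, hyB⟩, hO⟩ := flat hy hstep hi hA' h1 (2 ^ m - 1) (by omega)
  refine ⟨⟨B, Cg_of_mod hB (by omega), ?_⟩, ?_⟩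
  · have : 2 ^ m * (i + 1) = 2 ^ m * i + (2 ^ m - 1 + 1) := by
      rw [Nat.sub_add_cancel hp]; ring
    rw [this]; exact hyB
  · intro n h2 h3
    have h4 : 2 ^ m * (i + 1) = 2 ^ m * i + 2 ^ m := by ring
    rcases Nat.eq_or_lt_of_le h2 with h5 | h5
    · rw [← h5]; exact hx
    · obtain ⟨r', hr'⟩ : ∃ r', n = 2 ^ m * i + r' := ⟨n - 2 ^ m * i, by omega⟩
      rw [hr']
      exact hO r' (by omega) (by omega)

/-- `x_{2^m i}` in terms of `A`. -/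
lemma x_val {x y : ℕ → ℚ} (hy : ∀ n : ℕ, 1 ≤ n → y n = n * x n) {m i : ℕ} (hi : 1 ≤ i) {A : ℚ}
    (h : y (2 ^ m * i) = 16 * (2 ^ m) ^ 2 * A) : x (2 ^ m * i) = 16 * 2 ^ m * A / i := by
  have hp : 0 < 2 ^ m := by positivity
  have h1 := hy (2 ^ m * i) (Nat.mul_pos hp hi)
  rw [h] at h1
  have hi0 : (i : ℚ) ≠ 0 := by positivity
  have hm0 : (2 : ℚ) ^ m ≠ 0 := by positivity
  push_cast at h1
  rw [eq_div_iff hi0]
  apply mul_left_cancel₀ hm0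
  linear_combination -h1

lemma Cg_sq {A : ℚ} {a : ℤ} (h : Cg A a) : Cg (A ^ 2) (a ^ 2) := by
  obtain ⟨s, hs, rfl⟩ := h
  refine ⟨2 * a * s + 32 * s ^ 2, O_add (O_mul (O_mul (O_ofNat 2) (O_int a)) hs)
    (O_mul (O_ofNat 32) (O_pow hs 2)), ?_⟩
  push_cast; ring

lemma gen_step {x y : ℕ → ℚ} (hy : ∀ n : ℕ, 1 ≤ n → y n = n * x n)
    (hstep : ∀ n : ℕ, 1 ≤ n → y (n + 1) = y n + x n ^ 2) {m i : ℕ} (hi : 1 ≤ i) {A B : ℚ}
    {a b2 c v κ j : ℤ} (hj : Odd j) (hA : Cg A a) (hyA : y (2 ^ m * i) = 16 * (2 ^ m) ^ 2 * A)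
    (hB : O B) (hB2 : Cg (B ^ 2) b2) (hcj : c * j ^ 2 = 1 + 32 * v)
    (hval : 16 * (A / i) ^ 2 = κ * (B / j) ^ 2) (hx : O (16 * A / i)) :
    Rr y m (i + 1) ((a + κ * (c * b2)) % 32) ∧ OKb x m i := by
  have hp : 0 < 2 ^ m := by positivity
  have hxv := x_val hy hi hyA
  have hi0 : (i : ℚ) ≠ 0 := by positivity
  have hj0 : (j : ℚ) ≠ 0 := by
    have : j ≠ 0 := by rintro rfl; exact absurd hj (by decide)
    exact_mod_cast this
  have hOd : O (B / j) := O_div hB hj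
  refine blockstep hy hstep hi (A' := A + κ * (B / j) ^ 2) ?_ ?_ ?_
  · obtain ⟨s, hs, hAs⟩ := hA
    obtain ⟨t, ht, hBt⟩ := hB2
    have e1 : B ^ 2 = (B / j) ^ 2 * (j : ℚ) ^ 2 := by field_simp
    have e2 : (c : ℚ) * (j : ℚ) ^ 2 = 1 + 32 * v := by exact_mod_cast hcj
    have e3 : (B / j) ^ 2 = c * b2 + 32 * (c * t - v * (B / j) ^ 2) := by
      have : (B / j) ^ 2 = c * B ^ 2 - 32 * v * (B / j) ^ 2 := by
        rw [e1]; linear_combination (-(B / j) ^ 2) * e2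
      linear_combination this + (c : ℚ) * hBt
    refine ⟨s + κ * (c * t - v * (B / j) ^ 2), ?_, ?_⟩
    · exact O_add hs (O_mul (O_int κ) (O_sub (O_mul (O_int c) ht) (O_mul (O_int v) (O_pow hOd 2))))
    · push_cast
      linear_combination hAs + (κ : ℚ) * e3
  · rw [hxv]
    have : 16 * 2 ^ m * A / (i : ℚ) = 2 ^ m * (16 * A / i) := by ring
    rw [this]
    exact O_mul (O_pow (O_ofNat 2) m) hx
  · rw [hstep _ (Nat.mul_pos hp hi), hyA, hxv, ← hval]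
    ring

lemma st17 {x y : ℕ → ℚ} (hy : ∀ n : ℕ, 1 ≤ n → y n = n * x n)
    (hstep : ∀ n : ℕ, 1 ≤ n → y (n + 1) = y n + x n ^ 2) {m : ℕ} {a : ℤ}
    (h : Rr y m 17 a) : Rr y m 18 ((a + 16 * (1 * a ^ 2)) % 32) ∧ OKb x m 17 := by
  obtain ⟨A, hA, hyA⟩ := h
  have hj : Odd (17 : ℤ) := by decide
  refine gen_step hy hstep (by norm_num) (B := A) (b2 := a ^ 2) (c := 1) (v := 9) (κ := 16)
    (j := 17) hj hA hyA hA.O (Cg_sq hA) (by norm_num) (by push_cast; ring) ?_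
  have : 16 * A / ((17 : ℕ) : ℚ) = 16 * (A / ((17 : ℤ) : ℚ)) := by push_cast; ring
  rw [this]
  exact O_mul (O_ofNat 16) (O_div hA.O hj)

lemma st18 {x y : ℕ → ℚ} (hy : ∀ n : ℕ, 1 ≤ n → y n = n * x n)
    (hstep : ∀ n : ℕ, 1 ≤ n → y (n + 1) = y n + x n ^ 2) {m : ℕ} {a : ℤ}
    (h : Rr y m 18 a) : Rr y m 19 ((a + 4 * (17 * a ^ 2)) % 32) ∧ OKb x m 18 := by
  obtain ⟨A, hA, hyA⟩ := h
  have hj : Odd (9 : ℤ) := by decide
  refine gen_step hy hstep (by norm_num) (B := A) (b2 := a ^ 2) (c := 17) (v := 43) (κ := 4)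
    (j := 9) hj hA hyA hA.O (Cg_sq hA) (by norm_num) (by push_cast; ring) ?_
  have : 16 * A / ((18 : ℕ) : ℚ) = 8 * (A / ((9 : ℤ) : ℚ)) := by push_cast; ring
  rw [this]
  exact O_mul (O_ofNat 8) (O_div hA.O hj)

lemma st19 {x y : ℕ → ℚ} (hy : ∀ n : ℕ, 1 ≤ n → y n = n * x n)
    (hstep : ∀ n : ℕ, 1 ≤ n → y (n + 1) = y n + x n ^ 2) {m : ℕ} {a : ℤ}
    (h : Rr y m 19 a) : Rr y m 20 ((a + 16 * (25 * a ^ 2)) % 32) ∧ OKb x m 19 := by
  obtain ⟨A, hA, hyA⟩ := h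
  have hj : Odd (19 : ℤ) := by decide
  refine gen_step hy hstep (by norm_num) (B := A) (b2 := a ^ 2) (c := 25) (v := 282) (κ := 16)
    (j := 19) hj hA hyA hA.O (Cg_sq hA) (by norm_num) (by push_cast; ring) ?_
  have : 16 * A / ((19 : ℕ) : ℚ) = 16 * (A / ((19 : ℤ) : ℚ)) := by push_cast; ring
  rw [this]
  exact O_mul (O_ofNat 16) (O_div hA.O hj)

lemma st20 {x y : ℕ → ℚ} (hy : ∀ n : ℕ, 1 ≤ n → y n = n * x n)
    (hstep : ∀ n : ℕ, 1 ≤ n → y (n + 1) = y n + x n ^ 2) {m : ℕ} {a : ℤ}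
    (h : Rr y m 20 a) : Rr y m 21 ((a + 1 * (9 * a ^ 2)) % 32) ∧ OKb x m 20 := by
  obtain ⟨A, hA, hyA⟩ := h
  have hj : Odd (5 : ℤ) := by decide
  refine gen_step hy hstep (by norm_num) (B := A) (b2 := a ^ 2) (c := 9) (v := 7) (κ := 1)
    (j := 5) hj hA hyA hA.O (Cg_sq hA) (by norm_num) (by push_cast; ring) ?_
  have : 16 * A / ((20 : ℕ) : ℚ) = 4 * (A / ((5 : ℤ) : ℚ)) := by push_cast; ring
  rw [this]
  exact O_mul (O_ofNat 4) (O_div hA.O hj)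

lemma st21 {x y : ℕ → ℚ} (hy : ∀ n : ℕ, 1 ≤ n → y n = n * x n)
    (hstep : ∀ n : ℕ, 1 ≤ n → y (n + 1) = y n + x n ^ 2) {m : ℕ} {a : ℤ}
    (h : Rr y m 21 a) : Rr y m 22 ((a + 16 * (9 * a ^ 2)) % 32) ∧ OKb x m 21 := by
  obtain ⟨A, hA, hyA⟩ := h
  have hj : Odd (21 : ℤ) := by decide
  refine gen_step hy hstep (by norm_num) (B := A) (b2 := a ^ 2) (c := 9) (v := 124) (κ := 16)
    (j := 21) hj hA hyA hA.O (Cg_sq hA) (by norm_num) (by push_cast; ring) ?_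
  have : 16 * A / ((21 : ℕ) : ℚ) = 16 * (A / ((21 : ℤ) : ℚ)) := by push_cast; ring
  rw [this]
  exact O_mul (O_ofNat 16) (O_div hA.O hj)

lemma st22 {x y : ℕ → ℚ} (hy : ∀ n : ℕ, 1 ≤ n → y n = n * x n)
    (hstep : ∀ n : ℕ, 1 ≤ n → y (n + 1) = y n + x n ^ 2) {m : ℕ} {a : ℤ}
    (h : Rr y m 22 a) : Rr y m 23 ((a + 4 * (9 * a ^ 2)) % 32) ∧ OKb x m 22 := by
  obtain ⟨A, hA, hyA⟩ := h
  have hj : Odd (11 : ℤ) := by decide
  refine gen_step hy hstep (by norm_num) (B := A) (b2 := a ^ 2) (c := 9) (v := 34) (κ := 4)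
    (j := 11) hj hA hyA hA.O (Cg_sq hA) (by norm_num) (by push_cast; ring) ?_
  have : 16 * A / ((22 : ℕ) : ℚ) = 8 * (A / ((11 : ℤ) : ℚ)) := by push_cast; ring
  rw [this]
  exact O_mul (O_ofNat 8) (O_div hA.O hj)

lemma st23 {x y : ℕ → ℚ} (hy : ∀ n : ℕ, 1 ≤ n → y n = n * x n)
    (hstep : ∀ n : ℕ, 1 ≤ n → y (n + 1) = y n + x n ^ 2) {m : ℕ} {a : ℤ}
    (h : Rr y m 23 a) : Rr y m 24 ((a + 16 * (17 * a ^ 2)) % 32) ∧ OKb x m 23 := by
  obtain ⟨A, hA, hyA⟩ := h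
  have hj : Odd (23 : ℤ) := by decide
  refine gen_step hy hstep (by norm_num) (B := A) (b2 := a ^ 2) (c := 17) (v := 281) (κ := 16)
    (j := 23) hj hA hyA hA.O (Cg_sq hA) (by norm_num) (by push_cast; ring) ?_
  have : 16 * A / ((23 : ℕ) : ℚ) = 16 * (A / ((23 : ℤ) : ℚ)) := by push_cast; ring
  rw [this]
  exact O_mul (O_ofNat 16) (O_div hA.O hj)

lemma st25 {x y : ℕ → ℚ} (hy : ∀ n : ℕ, 1 ≤ n → y n = n * x n)
    (hstep : ∀ n : ℕ, 1 ≤ n → y (n + 1) = y n + x n ^ 2) {m : ℕ} {a : ℤ}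
    (h : Rr y m 25 a) : Rr y m 26 ((a + 16 * (17 * a ^ 2)) % 32) ∧ OKb x m 25 := by
  obtain ⟨A, hA, hyA⟩ := h
  have hj : Odd (25 : ℤ) := by decide
  refine gen_step hy hstep (by norm_num) (B := A) (b2 := a ^ 2) (c := 17) (v := 332) (κ := 16)
    (j := 25) hj hA hyA hA.O (Cg_sq hA) (by norm_num) (by push_cast; ring) ?_
  have : 16 * A / ((25 : ℕ) : ℚ) = 16 * (A / ((25 : ℤ) : ℚ)) := by push_cast; ring
  rw [this]
  exact O_mul (O_ofNat 16) (O_div hA.O hj)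

lemma st26 {x y : ℕ → ℚ} (hy : ∀ n : ℕ, 1 ≤ n → y n = n * x n)
    (hstep : ∀ n : ℕ, 1 ≤ n → y (n + 1) = y n + x n ^ 2) {m : ℕ} {a : ℤ}
    (h : Rr y m 26 a) : Rr y m 27 ((a + 4 * (25 * a ^ 2)) % 32) ∧ OKb x m 26 := by
  obtain ⟨A, hA, hyA⟩ := h
  have hj : Odd (13 : ℤ) := by decide
  refine gen_step hy hstep (by norm_num) (B := A) (b2 := a ^ 2) (c := 25) (v := 132) (κ := 4)
    (j := 13) hj hA hyA hA.O (Cg_sq hA) (by norm_num) (by push_cast; ring) ?_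
  have : 16 * A / ((26 : ℕ) : ℚ) = 8 * (A / ((13 : ℤ) : ℚ)) := by push_cast; ring
  rw [this]
  exact O_mul (O_ofNat 8) (O_div hA.O hj)

lemma st27 {x y : ℕ → ℚ} (hy : ∀ n : ℕ, 1 ≤ n → y n = n * x n)
    (hstep : ∀ n : ℕ, 1 ≤ n → y (n + 1) = y n + x n ^ 2) {m : ℕ} {a : ℤ}
    (h : Rr y m 27 a) : Rr y m 28 ((a + 16 * (9 * a ^ 2)) % 32) ∧ OKb x m 27 := by
  obtain ⟨A, hA, hyA⟩ := h
  have hj : Odd (27 : ℤ) := by decide
  refine gen_step hy hstep (by norm_num) (B := A) (b2 := a ^ 2) (c := 9) (v := 205) (κ := 16)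
    (j := 27) hj hA hyA hA.O (Cg_sq hA) (by norm_num) (by push_cast; ring) ?_
  have : 16 * A / ((27 : ℕ) : ℚ) = 16 * (A / ((27 : ℤ) : ℚ)) := by push_cast; ring
  rw [this]
  exact O_mul (O_ofNat 16) (O_div hA.O hj)

lemma st28 {x y : ℕ → ℚ} (hy : ∀ n : ℕ, 1 ≤ n → y n = n * x n)
    (hstep : ∀ n : ℕ, 1 ≤ n → y (n + 1) = y n + x n ^ 2) {m : ℕ} {a : ℤ}
    (h : Rr y m 28 a) : Rr y m 29 ((a + 1 * (17 * a ^ 2)) % 32) ∧ OKb x m 28 := by
  obtain ⟨A, hA, hyA⟩ := h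
  have hj : Odd (7 : ℤ) := by decide
  refine gen_step hy hstep (by norm_num) (B := A) (b2 := a ^ 2) (c := 17) (v := 26) (κ := 1)
    (j := 7) hj hA hyA hA.O (Cg_sq hA) (by norm_num) (by push_cast; ring) ?_
  have : 16 * A / ((28 : ℕ) : ℚ) = 4 * (A / ((7 : ℤ) : ℚ)) := by push_cast; ring
  rw [this]
  exact O_mul (O_ofNat 4) (O_div hA.O hj)

lemma st29 {x y : ℕ → ℚ} (hy : ∀ n : ℕ, 1 ≤ n → y n = n * x n)
    (hstep : ∀ n : ℕ, 1 ≤ n → y (n + 1) = y n + x n ^ 2) {m : ℕ} {a : ℤ}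
    (h : Rr y m 29 a) : Rr y m 30 ((a + 16 * (25 * a ^ 2)) % 32) ∧ OKb x m 29 := by
  obtain ⟨A, hA, hyA⟩ := h
  have hj : Odd (29 : ℤ) := by decide
  refine gen_step hy hstep (by norm_num) (B := A) (b2 := a ^ 2) (c := 25) (v := 657) (κ := 16)
    (j := 29) hj hA hyA hA.O (Cg_sq hA) (by norm_num) (by push_cast; ring) ?_
  have : 16 * A / ((29 : ℕ) : ℚ) = 16 * (A / ((29 : ℤ) : ℚ)) := by push_cast; ring
  rw [this]
  exact O_mul (O_ofNat 16) (O_div hA.O hj)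

lemma st30 {x y : ℕ → ℚ} (hy : ∀ n : ℕ, 1 ≤ n → y n = n * x n)
    (hstep : ∀ n : ℕ, 1 ≤ n → y (n + 1) = y n + x n ^ 2) {m : ℕ} {a : ℤ}
    (h : Rr y m 30 a) : Rr y m 31 ((a + 4 * (1 * a ^ 2)) % 32) ∧ OKb x m 30 := by
  obtain ⟨A, hA, hyA⟩ := h
  have hj : Odd (15 : ℤ) := by decide
  refine gen_step hy hstep (by norm_num) (B := A) (b2 := a ^ 2) (c := 1) (v := 7) (κ := 4)
    (j := 15) hj hA hyA hA.O (Cg_sq hA) (by norm_num) (by push_cast; ring) ?_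
  have : 16 * A / ((30 : ℕ) : ℚ) = 8 * (A / ((15 : ℤ) : ℚ)) := by push_cast; ring
  rw [this]
  exact O_mul (O_ofNat 8) (O_div hA.O hj)

lemma st31 {x y : ℕ → ℚ} (hy : ∀ n : ℕ, 1 ≤ n → y n = n * x n)
    (hstep : ∀ n : ℕ, 1 ≤ n → y (n + 1) = y n + x n ^ 2) {m : ℕ} {a : ℤ}
    (h : Rr y m 31 a) : Rr y m 32 ((a + 16 * (1 * a ^ 2)) % 32) ∧ OKb x m 31 := by
  obtain ⟨A, hA, hyA⟩ := h
  have hj : Odd (31 : ℤ) := by decide
  refine gen_step hy hstep (by norm_num) (B := A) (b2 := a ^ 2) (c := 1) (v := 30) (κ := 16)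
    (j := 31) hj hA hyA hA.O (Cg_sq hA) (by norm_num) (by push_cast; ring) ?_
  have : 16 * A / ((31 : ℕ) : ℚ) = 16 * (A / ((31 : ℤ) : ℚ)) := by push_cast; ring
  rw [this]
  exact O_mul (O_ofNat 16) (O_div hA.O hj)

lemma st24 {x y : ℕ → ℚ} (hy : ∀ n : ℕ, 1 ≤ n → y n = n * x n)
    (hstep : ∀ n : ℕ, 1 ≤ n → y (n + 1) = y n + x n ^ 2) {m : ℕ} {a : ℤ}
    (h : Rr y m 24 a) (ha : a % 2 = 0) :
    Rr y m 25 ((a + 1 * (25 * (a / 2) ^ 2)) % 32) ∧ OKb x m 24 := by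
  obtain ⟨A, hA, hyA⟩ := h
  have hj : Odd (3 : ℤ) := by decide
  obtain ⟨s, hs, hAs⟩ := hA
  obtain ⟨b, hb⟩ : ∃ b : ℤ, a = 2 * b := ⟨a / 2, by omega⟩
  have hab : a / 2 = b := by omega
  have hB : A / 2 = b + 16 * s := by rw [hAs, hb]; push_cast; ring
  have hBO : O (A / 2) := by
    rw [hB]; exact O_add (O_int b) (O_mul (O_ofNat 16) hs)
  rw [hab]
  refine gen_step hy hstep (by norm_num) (B := A / 2) (b2 := b ^ 2) (c := 25) (v := 7) (κ := 1)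
    (j := 3) hj ⟨s, hs, hAs⟩ hyA hBO ?_ (by norm_num) (by push_cast; ring) ?_
  · refine ⟨b * s + 8 * s ^ 2, O_add (O_mul (O_int b) hs) (O_mul (O_ofNat 8) (O_pow hs 2)), ?_⟩
    rw [hB]; push_cast; ring
  · have : 16 * A / ((24 : ℕ) : ℚ) = 4 * ((A / 2) / ((3 : ℤ) : ℚ)) := by push_cast; ring
    rw [this]
    exact O_mul (O_ofNat 4) (O_div hBO hj)

lemma st16 {x y : ℕ → ℚ} (hy : ∀ n : ℕ, 1 ≤ n → y n = n * x n)
    (hstep : ∀ n : ℕ, 1 ≤ n → y (n + 1) = y n + x n ^ 2) {m : ℕ} {c0 : ℤ} {s : ℚ} (hs : O s)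
    (h : y (2 ^ m * 16) = 16 * (2 ^ m) ^ 2 * (4 * (c0 + 16 * s))) :
    Rr y m 17 ((4 * c0 + 1 * (1 * c0 ^ 2)) % 32) ∧ OKb x m 16 := by
  have hj : Odd (1 : ℤ) := by decide
  have hBO : O ((c0 : ℚ) + 16 * s) := O_add (O_int c0) (O_mul (O_ofNat 16) hs)
  refine gen_step hy hstep (by norm_num) (A := 4 * (c0 + 16 * s)) (B := c0 + 16 * s)
    (b2 := c0 ^ 2) (c := 1) (v := 0) (κ := 1)
    (j := 1) hj ⟨2 * s, O_mul (O_ofNat 2) hs, by push_cast; ring⟩ h hBO ?_ (by norm_num)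
    (by push_cast; ring) ?_
  · refine ⟨c0 * s + 8 * s ^ 2, O_add (O_mul (O_int c0) hs) (O_mul (O_ofNat 8) (O_pow hs 2)), ?_⟩
    push_cast; ring
  · have : 16 * (4 * ((c0 : ℚ) + 16 * s)) / ((16 : ℕ) : ℚ) = 4 * (c0 + 16 * s) := by push_cast; ring
    rw [this]
    exact O_mul (O_ofNat 4) hBO

/-- Every element of `ℤ_(2)` is congruent to an integer mod 8. -/
lemma exists_int_mod8 {s : ℚ} (hs : O s) : ∃ (t : ℤ) (s' : ℚ), O s' ∧ s = t + 8 * s' := by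
  obtain ⟨a, b, hb, h⟩ := hs
  obtain ⟨w, hw⟩ : ∃ w : ℤ, b ^ 2 = 1 + 8 * w := by
    obtain ⟨c, hc⟩ := hb
    obtain ⟨e, he⟩ : ∃ e, c * (c + 1) = 2 * e := by
      have := Int.even_mul_succ_self c
      obtain ⟨e, he⟩ := this
      exact ⟨e, by linarith⟩
    exact ⟨e, by rw [hc]; linear_combination 4 * he⟩
  have hb0 : (b : ℚ) ≠ 0 := by
    have : b ≠ 0 := by rintro rfl; exact absurd hb (by decide)
    exact_mod_cast this
  refine ⟨a * b, -(s * w), O_neg (O_mul ⟨a, b, hb, h⟩ (O_int w)), ?_⟩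
  have hwq : (b : ℚ) ^ 2 = 1 + 8 * w := by exact_mod_cast hw
  push_cast
  rw [← h]
  linear_combination (-s) * hwq

/-- value after step 16 -/
def a17 (c0 : ℤ) : ℤ := (4 * c0 + 1 * (1 * c0 ^ 2)) % 32
def a18 (c0 : ℤ) : ℤ := (a17 c0 + 16 * (1 * (a17 c0) ^ 2)) % 32
def a19 (c0 : ℤ) : ℤ := (a18 c0 + 4 * (17 * (a18 c0) ^ 2)) % 32
def a20 (c0 : ℤ) : ℤ := (a19 c0 + 16 * (25 * (a19 c0) ^ 2)) % 32
def a21 (c0 : ℤ) : ℤ := (a20 c0 + 1 * (9 * (a20 c0) ^ 2)) % 32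
def a22 (c0 : ℤ) : ℤ := (a21 c0 + 16 * (9 * (a21 c0) ^ 2)) % 32
def a23 (c0 : ℤ) : ℤ := (a22 c0 + 4 * (9 * (a22 c0) ^ 2)) % 32
def a24 (c0 : ℤ) : ℤ := (a23 c0 + 16 * (17 * (a23 c0) ^ 2)) % 32
def a25 (c0 : ℤ) : ℤ := (a24 c0 + 1 * (25 * (a24 c0 / 2) ^ 2)) % 32
def a26 (c0 : ℤ) : ℤ := (a25 c0 + 16 * (17 * (a25 c0) ^ 2)) % 32
def a27 (c0 : ℤ) : ℤ := (a26 c0 + 4 * (25 * (a26 c0) ^ 2)) % 32
def a28 (c0 : ℤ) : ℤ := (a27 c0 + 16 * (9 * (a27 c0) ^ 2)) % 32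
def a29 (c0 : ℤ) : ℤ := (a28 c0 + 1 * (17 * (a28 c0) ^ 2)) % 32
def a30 (c0 : ℤ) : ℤ := (a29 c0 + 16 * (25 * (a29 c0) ^ 2)) % 32
def a31 (c0 : ℤ) : ℤ := (a30 c0 + 4 * (1 * (a30 c0) ^ 2)) % 32
def a32 (c0 : ℤ) : ℤ := (a31 c0 + 16 * (1 * (a31 c0) ^ 2)) % 32

lemma e24 : ∀ t : ℤ, 0 ≤ t → t < 8 → a24 (1 + 2 * t) % 2 = 0 := by
  intro t h0 h8
  interval_cases t <;> decide +kernel

lemma e32 : ∀ t : ℤ, 0 ≤ t → t < 8 → a32 (1 + 2 * t) = 16 := by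
  intro t h0 h8
  interval_cases t <;> decide +kernel

lemma block {x y : ℕ → ℚ} (hy : ∀ n : ℕ, 1 ≤ n → y n = n * x n)
    (hstep : ∀ n : ℕ, 1 ≤ n → y (n + 1) = y n + x n ^ 2) {m : ℕ} {s : ℚ} (hs : O s)
    (h : y (2 ^ m * 16) = 16 * (2 ^ m) ^ 2 * (4 * (1 + 2 * s))) :
    (∃ s', O s' ∧ y (2 ^ m * 32) = 16 * (2 ^ m) ^ 2 * (16 * (1 + 2 * s'))) ∧
      ∀ n, 2 ^ m * 16 ≤ n → n < 2 ^ m * 32 → O (x n) := by
  obtain ⟨t0, s0, hs0, hst⟩ := exists_int_mod8 hs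
  obtain ⟨t, s1, hs1, h0, h8, hst1⟩ : ∃ (t : ℤ) (s1 : ℚ), O s1 ∧ 0 ≤ t ∧ t < 8 ∧ s = t + 8 * s1 := by
    refine ⟨t0 % 8, s0 + ((t0 / 8 : ℤ) : ℚ), O_add hs0 (O_int _), Int.emod_nonneg _ (by norm_num),
      Int.emod_lt_of_pos _ (by norm_num), ?_⟩
    have h1 : ((8 * (t0 / 8) + t0 % 8 : ℤ) : ℚ) = t0 := by
      have := Int.mul_ediv_add_emod t0 8
      exact_mod_cast this
    push_cast at h1
    linear_combination hst - h1
  have h16 : y (2 ^ m * 16) = 16 * (2 ^ m) ^ 2 * (4 * (((1 + 2 * t : ℤ) : ℚ) + 16 * s1)) := by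
    rw [h, hst1]; push_cast; ring
  obtain ⟨h17, o16⟩ := st16 hy hstep hs1 h16
  change Rr y m 17 (a17 (1 + 2 * t)) at h17
  obtain ⟨h18, o17⟩ := st17 hy hstep h17
  change Rr y m 18 (a18 (1 + 2 * t)) at h18
  obtain ⟨h19, o18⟩ := st18 hy hstep h18
  change Rr y m 19 (a19 (1 + 2 * t)) at h19
  obtain ⟨h20, o19⟩ := st19 hy hstep h19
  change Rr y m 20 (a20 (1 + 2 * t)) at h20
  obtain ⟨h21, o20⟩ := st20 hy hstep h20
  change Rr y m 21 (a21 (1 + 2 * t)) at h21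
  obtain ⟨h22, o21⟩ := st21 hy hstep h21
  change Rr y m 22 (a22 (1 + 2 * t)) at h22
  obtain ⟨h23, o22⟩ := st22 hy hstep h22
  change Rr y m 23 (a23 (1 + 2 * t)) at h23
  obtain ⟨h24, o23⟩ := st23 hy hstep h23
  change Rr y m 24 (a24 (1 + 2 * t)) at h24
  obtain ⟨h25, o24⟩ := st24 hy hstep h24 (e24 t h0 h8)
  change Rr y m 25 (a25 (1 + 2 * t)) at h25
  obtain ⟨h26, o25⟩ := st25 hy hstep h25
  change Rr y m 26 (a26 (1 + 2 * t)) at h26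
  obtain ⟨h27, o26⟩ := st26 hy hstep h26
  change Rr y m 27 (a27 (1 + 2 * t)) at h27
  obtain ⟨h28, o27⟩ := st27 hy hstep h27
  change Rr y m 28 (a28 (1 + 2 * t)) at h28
  obtain ⟨h29, o28⟩ := st28 hy hstep h28
  change Rr y m 29 (a29 (1 + 2 * t)) at h29
  obtain ⟨h30, o29⟩ := st29 hy hstep h29
  change Rr y m 30 (a30 (1 + 2 * t)) at h30
  obtain ⟨h31, o30⟩ := st30 hy hstep h30
  change Rr y m 31 (a31 (1 + 2 * t)) at h31
  obtain ⟨h32, o31⟩ := st31 hy hstep h31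
  change Rr y m 32 (a32 (1 + 2 * t)) at h32
  refine ⟨?_, ?_⟩
  · obtain ⟨A, hA, hyA⟩ := h32
    rw [e32 t h0 h8] at hA
    obtain ⟨s', hs', hAs⟩ := hA
    refine ⟨s', hs', ?_⟩
    rw [hyA, hAs]; push_cast; ring
  · intro n hn1 hn2
    unfold OKb at *
    have hp : 0 < 2 ^ m := by positivity
    by_cases g16 : n < 2 ^ m * (16 + 1)
    · exact o16 n (by omega) g16
    by_cases g17 : n < 2 ^ m * (17 + 1)
    · exact o17 n (by omega) g17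
    by_cases g18 : n < 2 ^ m * (18 + 1)
    · exact o18 n (by omega) g18
    by_cases g19 : n < 2 ^ m * (19 + 1)
    · exact o19 n (by omega) g19
    by_cases g20 : n < 2 ^ m * (20 + 1)
    · exact o20 n (by omega) g20
    by_cases g21 : n < 2 ^ m * (21 + 1)
    · exact o21 n (by omega) g21
    by_cases g22 : n < 2 ^ m * (22 + 1)
    · exact o22 n (by omega) g22
    by_cases g23 : n < 2 ^ m * (23 + 1)
    · exact o23 n (by omega) g23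
    by_cases g24 : n < 2 ^ m * (24 + 1)
    · exact o24 n (by omega) g24
    by_cases g25 : n < 2 ^ m * (25 + 1)
    · exact o25 n (by omega) g25
    by_cases g26 : n < 2 ^ m * (26 + 1)
    · exact o26 n (by omega) g26
    by_cases g27 : n < 2 ^ m * (27 + 1)
    · exact o27 n (by omega) g27
    by_cases g28 : n < 2 ^ m * (28 + 1)
    · exact o28 n (by omega) g28
    by_cases g29 : n < 2 ^ m * (29 + 1)
    · exact o29 n (by omega) g29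
    by_cases g30 : n < 2 ^ m * (30 + 1)
    · exact o30 n (by omega) g30
    by_cases g31 : n < 2 ^ m * (31 + 1)
    · exact o31 n (by omega) g31
    omega

/-- The main induction. -/
lemma all_blocks {x y : ℕ → ℚ} (hx1 : x 1 = 2)
    (hx : ∀ n : ℕ, 1 ≤ n → ((n : ℚ) + 1) * x (n + 1) = x n * (x n + n))
    (hy : ∀ n : ℕ, 1 ≤ n → y n = n * x n)
    (hstep : ∀ n : ℕ, 1 ≤ n → y (n + 1) = y n + x n ^ 2) (m : ℕ) :
    (∃ s, O s ∧ y (2 ^ (m + 4) * 16) = 16 * (2 ^ (m + 4)) ^ 2 * (4 * (1 + 2 * s))) ∧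
      ∀ n, 1 ≤ n → n < 2 ^ (m + 4) * 16 → O (x n) := by
  induction m with
  | zero =>
    obtain ⟨h1, s, hs, h2⟩ := base hx1 hx
    refine ⟨⟨s, hs, ?_⟩, ?_⟩
    · have e : 2 ^ (0 + 4) * 16 = 256 := by norm_num
      rw [e, hy 256 (by norm_num), h2]
      push_cast; ring
    · intro n h3 h4
      exact h1 n h3 (by norm_num at h4; omega)
  | succ m ih =>
    obtain ⟨⟨s, hs, h1⟩, h2⟩ := ih
    obtain ⟨⟨s', hs', h3⟩, h4⟩ := block hy hstep hs h1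
    have e : 2 ^ (m + 1 + 4) * 16 = 2 ^ (m + 4) * 32 := by ring
    refine ⟨⟨s', hs', ?_⟩, ?_⟩
    · rw [e, h3]; ring
    · intro n h5 h6
      rw [e] at h6
      rcases Nat.lt_or_ge n (2 ^ (m + 4) * 16) with h7 | h7
      · exact h2 n h5 h7
      · exact h4 n h7 h6

theorem main (x : ℕ → ℚ) (h0 : x 0 = 1)
    (hrec : ∀ n : ℕ, 1 ≤ n → x n = (1 + ∑ i ∈ Finset.range n, x i ^ 2) / n) (n : ℕ) :
    Odd (x n).den := by
  rcases Nat.eq_zero_or_pos n with hn | hn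
  · rw [hn, h0]; decide
  set y : ℕ → ℚ := fun n => 1 + ∑ i ∈ Finset.range n, x i ^ 2 with hydef
  have hx1 : x 1 = 2 := by
    rw [hrec 1 le_rfl]; simp [h0]; norm_num
  have hy : ∀ n : ℕ, 1 ≤ n → y n = n * x n := by
    intro n hn
    have hn0 : (n : ℚ) ≠ 0 := by positivity
    rw [hrec n hn]
    field_simp
    rfl
  have hstep : ∀ n : ℕ, 1 ≤ n → y (n + 1) = y n + x n ^ 2 := by
    intro n _
    simp only [hydef, Finset.sum_range_succ]; ring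
  have hx : ∀ n : ℕ, 1 ≤ n → ((n : ℚ) + 1) * x (n + 1) = x n * (x n + n) := by
    intro n hn
    have h1 := hy (n + 1) (by omega)
    have h2 := hstep n hn
    have h3 := hy n hn
    push_cast at h1
    rw [← h1, h2, h3]; ring
  obtain ⟨-, h2⟩ := all_blocks hx1 hx hy hstep n
  apply odd_den_of_O
  apply h2 n hn
  have : n < 2 ^ n := Nat.lt_two_pow_self
  have h3 : 2 ^ n ≤ 2 ^ (n + 4) := Nat.pow_le_pow_right (by norm_num) (by omega)
  omega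

end Pool.Agent.Q224.Lenstra
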