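import Mathlib

/-!
Helper file for S11006 (MP_b7cbb2_co): the group `ℤ/3` acting by cyclic shifts on the octahedron
`{x ∈ [0,1]^3 : 1 ≤ x_0 + x_1 + x_2 ≤ 2}`.
-/

set_option autoImplicit false

namespace Pool.Agent.Q224.Octa

open scoped Pointwise

/-- cyclic shift matrices -/
def f : Multiplicative (ZMod 3) →* Matrix (Fin 3) (Fin 3) ℤ where
  toFun g := Matrix.of fun i j => if i = j + (Multiplicative.toAdd g : Fin 3) then 1 else 0
  map_one' := by decide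
  map_mul' := by decide

/-- the vertices -/
def V : Finset (Fin 3 → ℤ) :=
  {![1, 0, 0], ![0, 1, 0], ![0, 0, 1], ![0, 1, 1], ![1, 0, 1], ![1, 1, 0]}

theorem V_inv : ∀ g : Multiplicative (ZMod 3), ∀ v ∈ V, Matrix.mulVec (f g) v ∈ V := by decide

/-- the octahedron -/
def P : Set (Fin 3 → ℝ) :=
  convexHull ℝ ((fun v : Fin 3 → ℤ => fun j => ((v j : ℤ) : ℝ)) '' (V : Set (Fin 3 → ℤ)))

theorem mem_P (x : Fin 3 → ℝ) : x ∈ P ↔ (0 ≤ x 0 ∧ x 0 ≤ 1) ∧ (0 ≤ x 1 ∧ x 1 ≤ 1) ∧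
    (0 ≤ x 2 ∧ x 2 ≤ 1) ∧ 1 ≤ x 0 + x 1 + x 2 ∧ x 0 + x 1 + x 2 ≤ 2 := by
  constructor
  · intro hx
    have hconv : Convex ℝ {x : Fin 3 → ℝ | (0 ≤ x 0 ∧ x 0 ≤ 1) ∧ (0 ≤ x 1 ∧ x 1 ≤ 1) ∧
        (0 ≤ x 2 ∧ x 2 ≤ 1) ∧ 1 ≤ x 0 + x 1 + x 2 ∧ x 0 + x 1 + x 2 ≤ 2} := by
      rintro u ⟨⟨u1, u2⟩, ⟨u3, u4⟩, ⟨u5, u6⟩, u7, u8⟩ v ⟨⟨v1, v2⟩, ⟨v3, v4⟩, ⟨v5, v6⟩, v7, v8⟩
        a b ha hb hab
      have e : ∀ i, (a • u + b • v) i = a * u i + b * v i := fun i => rfl
      simp only [Set.mem_ofPred_eq, e]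
      refine ⟨⟨?_, ?_⟩, ⟨?_, ?_⟩, ⟨?_, ?_⟩, ?_, ?_⟩
      · nlinarith [mul_le_mul_of_nonneg_left u1 ha, mul_le_mul_of_nonneg_left v1 hb]
      · nlinarith [mul_le_mul_of_nonneg_left u2 ha, mul_le_mul_of_nonneg_left v2 hb]
      · nlinarith [mul_le_mul_of_nonneg_left u3 ha, mul_le_mul_of_nonneg_left v3 hb]
      · nlinarith [mul_le_mul_of_nonneg_left u4 ha, mul_le_mul_of_nonneg_left v4 hb]
      · nlinarith [mul_le_mul_of_nonneg_left u5 ha, mul_le_mul_of_nonneg_left v5 hb]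
      · nlinarith [mul_le_mul_of_nonneg_left u6 ha, mul_le_mul_of_nonneg_left v6 hb]
      · nlinarith [mul_le_mul_of_nonneg_left u7 ha, mul_le_mul_of_nonneg_left v7 hb]
      · nlinarith [mul_le_mul_of_nonneg_left u8 ha, mul_le_mul_of_nonneg_left v8 hb]
    refine convexHull_min ?_ hconv hx
    rintro y ⟨v, hv, rfl⟩
    have hall : ∀ v ∈ V, (0 ≤ v 0 ∧ v 0 ≤ 1) ∧ (0 ≤ v 1 ∧ v 1 ≤ 1) ∧
        (0 ≤ v 2 ∧ v 2 ≤ 1) ∧ 1 ≤ v 0 + v 1 + v 2 ∧ v 0 + v 1 + v 2 ≤ 2 := by decide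
    have h := hall v hv
    simp only [Set.mem_ofPred_eq]
    exact_mod_cast h
  · rintro ⟨⟨h1, h2⟩, ⟨h3, h4⟩, ⟨h5, h6⟩, h7, h8⟩
    have hc := convex_convexHull ℝ
      ((fun v : Fin 3 → ℤ => fun j => ((v j : ℤ) : ℝ)) '' (V : Set (Fin 3 → ℤ)))
    have mv : ∀ v ∈ V, (fun j => ((v j : ℤ) : ℝ)) ∈ P := fun v hv =>
      subset_convexHull ℝ _ ⟨v, hv, rfl⟩
    obtain ⟨t0, ht0⟩ : ∃ t, t = 1 - x 1 - x 2 := ⟨_, rfl⟩
    obtain ⟨t1, ht1⟩ : ∃ t, t = 1 - x 0 - x 2 := ⟨_, rfl⟩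
    obtain ⟨t2, ht2⟩ : ∃ t, t = 1 - x 0 - x 1 := ⟨_, rfl⟩
    obtain ⟨r, hr⟩ : ∃ r, r = 1 - |t0| - |t1| - |t2| := ⟨_, rfl⟩
    have hr0 : 0 ≤ r := by
      rw [hr]
      rcases abs_cases t0 with ⟨e0, _⟩ | ⟨e0, _⟩ <;> rcases abs_cases t1 with ⟨e1, _⟩ | ⟨e1, _⟩ <;>
        rcases abs_cases t2 with ⟨e2, _⟩ | ⟨e2, _⟩ <;> rw [e0, e1, e2] <;> linarith
    let wt : Fin 6 → ℝ := ![(|t0| + t0) / 2 + r / 6, (|t0| - t0) / 2 + r / 6,
      (|t1| + t1) / 2 + r / 6, (|t1| - t1) / 2 + r / 6,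
      (|t2| + t2) / 2 + r / 6, (|t2| - t2) / 2 + r / 6]
    let pt : Fin 6 → (Fin 3 → ℤ) := ![![1, 0, 0], ![0, 1, 1], ![0, 1, 0], ![1, 0, 1],
      ![0, 0, 1], ![1, 1, 0]]
    have hx : x = ∑ i, wt i • (fun j => ((pt i j : ℤ) : ℝ)) := by
      funext k
      rw [Finset.sum_apply, Fin.sum_univ_six]
      simp only [Pi.smul_apply, smul_eq_mul]
      fin_cases k
      · simp [wt, pt]; rw [hr, ht0, ht1, ht2]; ring
      · simp [wt, pt]; rw [hr, ht0, ht1, ht2]; ring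
      · simp [wt, pt]; rw [hr, ht0, ht1, ht2]; ring
    rw [hx]
    have a0 := le_abs_self t0
    have a0' := neg_abs_le t0
    have a1 := le_abs_self t1
    have a1' := neg_abs_le t1
    have a2 := le_abs_self t2
    have a2' := neg_abs_le t2
    refine hc.sum_mem ?_ ?_ ?_
    · intro i _
      fin_cases i
      · change 0 ≤ (|t0| + t0) / 2 + r / 6; linarith
      · change 0 ≤ (|t0| - t0) / 2 + r / 6; linarith
      · change 0 ≤ (|t1| + t1) / 2 + r / 6; linarith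
      · change 0 ≤ (|t1| - t1) / 2 + r / 6; linarith
      · change 0 ≤ (|t2| + t2) / 2 + r / 6; linarith
      · change 0 ≤ (|t2| - t2) / 2 + r / 6; linarith
    · rw [Fin.sum_univ_six]
      change (|t0| + t0) / 2 + r / 6 + ((|t0| - t0) / 2 + r / 6) + ((|t1| + t1) / 2 + r / 6)
        + ((|t1| - t1) / 2 + r / 6) + ((|t2| + t2) / 2 + r / 6) + ((|t2| - t2) / 2 + r / 6) = 1
      rw [hr]; ring
    · intro i _
      fin_cases i <;> exact mv _ (by decide)

theorem mem_dilate (m : ℕ) (x : Fin 3 → ℝ) : x ∈ (m : ℝ) • P ↔ (0 ≤ x 0 ∧ x 0 ≤ m) ∧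
    (0 ≤ x 1 ∧ x 1 ≤ m) ∧ (0 ≤ x 2 ∧ x 2 ≤ m) ∧ m ≤ x 0 + x 1 + x 2 ∧
    x 0 + x 1 + x 2 ≤ 2 * m := by
  rcases Nat.eq_zero_or_pos m with hm | hm
  · subst hm
    have hne : (fun j => (((![1, 0, 0] : Fin 3 → ℤ) j : ℤ) : ℝ)) ∈ P :=
      subset_convexHull ℝ _ ⟨![1, 0, 0], by decide, rfl⟩
    constructor
    · rintro ⟨y, _, rfl⟩
      simp
    · rintro ⟨⟨h1, h2⟩, ⟨h3, h4⟩, ⟨h5, h6⟩, _, _⟩
      refine ⟨_, hne, ?_⟩
      push_cast at h2 h4 h6
      funext k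
      change ((0 : ℕ) : ℝ) * (((![1, 0, 0] : Fin 3 → ℤ) k : ℤ) : ℝ) = x k
      rw [Nat.cast_zero, zero_mul]
      fin_cases k
      · change 0 = x 0; linarith
      · change 0 = x 1; linarith
      · change 0 = x 2; linarith
  · have hmr : (0 : ℝ) < m := by exact_mod_cast hm
    have : x ∈ (m : ℝ) • P ↔ (m : ℝ)⁻¹ • x ∈ P := by
      rw [Set.mem_smul_set_iff_inv_smul_mem₀ hmr.ne']
    rw [this, mem_P]
    have e : ∀ i, ((m : ℝ)⁻¹ • x) i = x i / m := fun i => by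
      simp [div_eq_inv_mul]
    rw [e, e, e]
    rw [← add_div, ← add_div, div_le_one hmr, div_le_one hmr, div_le_one hmr, one_le_div hmr,
      div_le_iff₀ hmr]
    have hdiv : ∀ y : ℝ, 0 ≤ y / m ↔ 0 ≤ y := by
      intro y
      constructor
      · intro h
        have := mul_nonneg h hmr.le
        rwa [div_mul_cancel₀ _ hmr.ne'] at this
      · intro h; positivity
    rw [hdiv, hdiv, hdiv]

theorem mem_dilate_int (m : ℕ) (x : Fin 3 → ℤ) :
    (fun j => ((x j : ℤ) : ℝ)) ∈ (m : ℝ) • P ↔ (0 ≤ x 0 ∧ x 0 ≤ m) ∧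
    (0 ≤ x 1 ∧ x 1 ≤ m) ∧ (0 ≤ x 2 ∧ x 2 ≤ m) ∧ m ≤ x 0 + x 1 + x 2 ∧
    x 0 + x 1 + x 2 ≤ 2 * m := by
  rw [mem_dilate]
  constructor
  · intro h; exact_mod_cast h
  · intro h; exact_mod_cast h

theorem mulVec_f (g : Multiplicative (ZMod 3)) (x : Fin 3 → ℤ) :
    Matrix.mulVec (f g) x = fun i => x (i - (Multiplicative.toAdd g : Fin 3)) := by
  funext i
  have : ∀ j : Fin 3, (i = j + (Multiplicative.toAdd g : Fin 3)) ↔
      (j = i - (Multiplicative.toAdd g : Fin 3)) := by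
    intro j
    rw [eq_sub_iff_add_eq]
    exact eq_comm
  simp only [Matrix.mulVec, dotProduct, f, MonoidHom.coe_mk, OneHom.coe_mk, Matrix.of_apply, this,
    ite_mul, one_mul, zero_mul]
  rw [Finset.sum_ite_eq']
  simp

/-- number of fixed points -/
noncomputable def cnt (g : Multiplicative (ZMod 3)) (m : ℕ) : ℕ :=
  Set.ncard {x : Fin 3 → ℤ | (fun j => ((x j : ℤ) : ℝ)) ∈ (m : ℝ) • P ∧ Matrix.mulVec (f g) x = x}

/-! ### Non-trivial elements -/

theorem cnt_ne (g : Multiplicative (ZMod 3)) (hg : g ≠ 1) (m : ℕ) :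
    cnt g m = 2 * m / 3 + 1 - (m + 2) / 3 := by
  have hfix : ∀ x : Fin 3 → ℤ, Matrix.mulVec (f g) x = x ↔ x 1 = x 0 ∧ x 2 = x 0 := by
    intro x
    rw [mulVec_f]
    have hg' : g = Multiplicative.ofAdd (1 : ZMod 3) ∨ g = Multiplicative.ofAdd (2 : ZMod 3) := by
      revert g; decide
    rcases hg' with rfl | rfl
    · constructor
      · intro h
        have h0 : x 2 = x 0 := congrFun h 0
        have h1 : x 0 = x 1 := congrFun h 1
        exact ⟨h1.symm, h0⟩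
      · rintro ⟨h1, h2⟩
        funext i
        fin_cases i
        · change x 2 = x 0; exact h2
        · change x 0 = x 1; exact h1.symm
        · change x 1 = x 2; rw [h1, h2]
    · constructor
      · intro h
        have h0 : x 1 = x 0 := congrFun h 0
        have h1 : x 2 = x 1 := congrFun h 1
        exact ⟨h0, h1.trans h0⟩
      · rintro ⟨h1, h2⟩
        funext i
        fin_cases i
        · change x 1 = x 0; exact h1
        · change x 2 = x 1; rw [h1, h2]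
        · change x 0 = x 2; exact h2.symm
  have hset : {x : Fin 3 → ℤ | (fun j => ((x j : ℤ) : ℝ)) ∈ (m : ℝ) • P ∧ Matrix.mulVec (f g) x = x}
      = (fun a : ℕ => (fun _ => (a : ℤ) : Fin 3 → ℤ)) '' (Finset.Ico ((m + 2) / 3) (2 * m / 3 + 1) : Set ℕ) := by
    ext x
    rw [Set.mem_ofPred_eq, mem_dilate_int, hfix]
    constructor
    · rintro ⟨⟨⟨h1, h2⟩, ⟨h3, h4⟩, ⟨h5, h6⟩, h7, h8⟩, e1, e2⟩
      obtain ⟨a, ha⟩ := Int.eq_ofNat_of_zero_le h1
      refine ⟨a, ?_, ?_⟩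
      · rw [Finset.mem_coe, Finset.mem_Ico]
        omega
      · funext i
        fin_cases i
        · exact ha.symm
        · change (a : ℤ) = x 1; rw [e1]; exact ha.symm
        · change (a : ℤ) = x 2; rw [e2]; exact ha.symm
    · rintro ⟨a, ha, rfl⟩
      rw [Finset.mem_coe, Finset.mem_Ico] at ha
      refine ⟨⟨⟨?_, ?_⟩, ⟨?_, ?_⟩, ⟨?_, ?_⟩, ?_, ?_⟩, rfl, rfl⟩ <;> beta_reduce <;> omega
  unfold cnt
  rw [hset, Set.ncard_image_of_injective, Set.ncard_coe_finset, Nat.card_Ico]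
  intro a b h
  have h0 : (a : ℤ) = b := congrFun h 0
  exact_mod_cast h0

theorem cnt_ne_rec (g : Multiplicative (ZMod 3)) (hg : g ≠ 1) (m : ℕ) :
    cnt g (m + 3) = cnt g m + 1 := by
  rw [cnt_ne g hg, cnt_ne g hg]
  have h1 : 2 * (m + 3) / 3 = 2 * m / 3 + 2 := by omega
  have h2 : (m + 3 + 2) / 3 = (m + 2) / 3 + 1 := by omega
  have h3 : (m + 2) / 3 ≤ 2 * m / 3 + 1 := by omega
  omega

/-! ### The identity element -/

/-- number of `c ∈ [0,m]` with `m ≤ a + b + c ≤ 2m` -/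
theorem inner_count (m a b : ℕ) :
    ((Finset.range (m + 1)).filter (fun c => m ≤ a + b + c ∧ a + b + c ≤ 2 * m)).card
      = if a + b ≤ m then a + b + 1 else 2 * m + 1 - (a + b) := by
  split_ifs with h
  · have : (Finset.range (m + 1)).filter (fun c => m ≤ a + b + c ∧ a + b + c ≤ 2 * m)
        = Finset.Ico (m - (a + b)) (m + 1) := by
      ext c
      simp only [Finset.mem_filter, Finset.mem_range, Finset.mem_Ico]
      omega
    rw [this, Nat.card_Ico]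
    omega
  · have : (Finset.range (m + 1)).filter (fun c => m ≤ a + b + c ∧ a + b + c ≤ 2 * m)
        = Finset.range (2 * m + 1 - (a + b)) := by
      ext c
      simp only [Finset.mem_filter, Finset.mem_range]
      omega
    rw [this, Finset.card_range]

/-- sum over `b`, with `m = a + t` -/
theorem sum_b (a t : ℕ) :
    2 * ∑ b ∈ Finset.range (a + t + 1), (((if a + b ≤ a + t then a + b + 1 else
      2 * (a + t) + 1 - (a + b) : ℕ) : ℤ))
      = 2 * (t + 1) * (a + 1) + t * (t + 1) + 2 * a * (a + t) - a * (a - 1) := by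
  have h1 : ∀ n ≤ t + 1, 2 * ∑ b ∈ Finset.range n, (((if a + b ≤ a + t then a + b + 1 else
      2 * (a + t) + 1 - (a + b) : ℕ) : ℤ)) = 2 * n * (a + 1) + n * (n - 1) := by
    intro n hn
    induction n with
    | zero => simp
    | succ n ih =>
      rw [Finset.sum_range_succ, mul_add, ih (by omega), if_pos (by omega)]
      push_cast
      ring
  have h2 : ∀ n ≤ a, 2 * ∑ b ∈ Finset.range (t + 1 + n), (((if a + b ≤ a + t then a + b + 1 else
      2 * (a + t) + 1 - (a + b) : ℕ) : ℤ)) = 2 * (t + 1) * (a + 1) + t * (t + 1)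
        + 2 * n * (a + t) - n * (n - 1) := by
    intro n hn
    induction n with
    | zero =>
      rw [add_zero, h1 (t + 1) le_rfl]
      push_cast
      ring
    | succ n ih =>
      rw [← add_assoc, Finset.sum_range_succ, mul_add, ih (by omega), if_neg (by omega)]
      have : ((2 * (a + t) + 1 - (a + (t + 1 + n)) : ℕ) : ℤ) = a + t - n := by omega
      rw [this]
      push_cast
      ring
  have := h2 a le_rfl
  rw [show t + 1 + a = a + t + 1 by ring] at this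
  exact this

theorem cnt_one (m : ℕ) : 3 * (cnt 1 m : ℤ) = 3 * (m + 1) ^ 3 - m * (m + 1) * (m + 2) := by
  have hset : {x : Fin 3 → ℤ | (fun j => ((x j : ℤ) : ℝ)) ∈ (m : ℝ) • P ∧ Matrix.mulVec (f 1) x = x}
      = (fun p : ℕ × ℕ × ℕ => (![(p.1 : ℤ), p.2.1, p.2.2] : Fin 3 → ℤ)) ''
        (((Finset.range (m + 1) ×ˢ Finset.range (m + 1) ×ˢ Finset.range (m + 1)).filter
          (fun p => m ≤ p.1 + p.2.1 + p.2.2 ∧ p.1 + p.2.1 + p.2.2 ≤ 2 * m) : Finset (ℕ × ℕ × ℕ)) :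
          Set (ℕ × ℕ × ℕ)) := by
    ext x
    rw [Set.mem_ofPred_eq, mem_dilate_int, map_one, Matrix.one_mulVec]
    constructor
    · rintro ⟨⟨⟨h1, h2⟩, ⟨h3, h4⟩, ⟨h5, h6⟩, h7, h8⟩, _⟩
      obtain ⟨a, ha⟩ := Int.eq_ofNat_of_zero_le h1
      obtain ⟨b, hb⟩ := Int.eq_ofNat_of_zero_le h3
      obtain ⟨c, hc⟩ := Int.eq_ofNat_of_zero_le h5
      refine ⟨(a, b, c), ?_, ?_⟩
      · simp only [Finset.coe_filter, Finset.mem_product, Finset.mem_range, Set.mem_ofPred_eq]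
        omega
      · funext i
        fin_cases i
        · exact ha.symm
        · exact hb.symm
        · exact hc.symm
    · rintro ⟨⟨a, b, c⟩, hp, rfl⟩
      simp only [Finset.coe_filter, Finset.mem_product, Finset.mem_range, Set.mem_ofPred_eq] at hp
      refine ⟨?_, rfl⟩
      change (0 ≤ (a : ℤ) ∧ (a : ℤ) ≤ m) ∧ (0 ≤ (b : ℤ) ∧ (b : ℤ) ≤ m) ∧ (0 ≤ (c : ℤ) ∧ (c : ℤ) ≤ m) ∧
        (m : ℤ) ≤ a + b + c ∧ (a : ℤ) + b + c ≤ 2 * m
      omega
  have hinj : Function.Injective (fun p : ℕ × ℕ × ℕ => (![(p.1 : ℤ), p.2.1, p.2.2] : Fin 3 → ℤ)) := by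
    rintro ⟨a, b, c⟩ ⟨a', b', c'⟩ h
    have h0 : (a : ℤ) = a' := congrFun h 0
    have h1 : (b : ℤ) = b' := congrFun h 1
    have h2 : (c : ℤ) = c' := congrFun h 2
    have e0 : a = a' := by exact_mod_cast h0
    have e1 : b = b' := by exact_mod_cast h1
    have e2 : c = c' := by exact_mod_cast h2
    rw [e0, e1, e2]
  have hcard : (cnt 1 m : ℤ) = ∑ a ∈ Finset.range (m + 1), ∑ b ∈ Finset.range (m + 1),
      ((if a + b ≤ m then a + b + 1 else 2 * m + 1 - (a + b) : ℕ) : ℤ) := by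
    unfold cnt
    rw [hset, Set.ncard_image_of_injective _ hinj, Set.ncard_coe_finset, Finset.card_filter,
      Finset.sum_product]
    push_cast
    refine Finset.sum_congr rfl (fun a ha => ?_)
    rw [Finset.sum_product]
    refine Finset.sum_congr rfl (fun b hb => ?_)
    have := inner_count m a b
    rw [Finset.card_filter] at this
    have h' : ((∑ c ∈ Finset.range (m + 1), (if m ≤ a + b + c ∧ a + b + c ≤ 2 * m then 1 else 0) : ℕ) : ℤ)
      = ((if a + b ≤ m then a + b + 1 else 2 * m + 1 - (a + b) : ℕ) : ℤ) := by rw [this]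
    push_cast at h'
    push_cast
    exact h'
  have hinner : ∀ a ∈ Finset.range (m + 1), 2 * ∑ b ∈ Finset.range (m + 1),
      ((if a + b ≤ m then a + b + 1 else 2 * m + 1 - (a + b) : ℕ) : ℤ)
      = 2 * ((m : ℤ) - a + 1) * (a + 1) + (m - a) * (m - a + 1) + 2 * a * m - a * (a - 1) := by
    intro a ha
    have ha' : a ≤ m := by have := Finset.mem_range.1 ha; omega
    obtain ⟨t, rfl⟩ := Nat.exists_eq_add_of_le ha'
    have := sum_b a t
    rw [this]
    push_cast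
    ring
  have h2 : 2 * (cnt 1 m : ℤ) = ∑ a ∈ Finset.range (m + 1),
      (2 * ((m : ℤ) - a + 1) * (a + 1) + (m - a) * (m - a + 1) + 2 * a * m - a * (a - 1)) := by
    rw [hcard, Finset.mul_sum]
    exact Finset.sum_congr rfl hinner
  have h3 : ∀ n : ℕ, 3 * ∑ a ∈ Finset.range n,
      (2 * ((m : ℤ) - a + 1) * (a + 1) + (m - a) * (m - a + 1) + 2 * a * m - a * (a - 1))
      = 3 * n * ((m : ℤ) ^ 2 + 3 * m + 2) + 3 * m * n * (n - 1) - n * (n - 1) * (2 * n - 1) := by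
    intro n
    induction n with
    | zero => simp
    | succ n ih =>
      rw [Finset.sum_range_succ, mul_add, ih]
      push_cast
      ring
  have h4 := h3 (m + 1)
  rw [← h2] at h4
  push_cast at h4
  nlinarith [h4]

/-! ### Power series identities -/

open PowerSeries in
theorem one_sub_mul (a : ℕ → ℤ) :
    (1 - X : PowerSeries ℤ) * PowerSeries.mk a = C (a 0) + X * PowerSeries.mk (fun n => a (n + 1) - a n) := by
  ext n
  rw [sub_mul, one_mul, map_sub, coeff_mk, map_add, coeff_C]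
  cases n with
  | zero => simp [coeff_zero_X_mul]
  | succ n =>
    rw [coeff_succ_X_mul, coeff_succ_X_mul, coeff_mk, coeff_mk]
    simp

open PowerSeries in
theorem mk_const (c : ℤ) : (1 - X : PowerSeries ℤ) * PowerSeries.mk (fun _ => c) = C c := by
  rw [one_sub_mul]
  have : PowerSeries.mk (fun _ : ℕ => c - c) = 0 := by
    ext n; simp
  rw [this, mul_zero, add_zero]

open PowerSeries in
/-- the equivariant series at the identity -/
theorem series_one (a : ℕ → ℤ) (ha : ∀ m : ℕ, 3 * a m = 3 * (m + 1) ^ 3 - m * (m + 1) * (m + 2)) :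
    (1 - X : PowerSeries ℤ) ^ 4 * PowerSeries.mk a = 1 + 2 * X + X ^ 2 := by
  have a0 : a 0 = 1 := by have := ha 0; push_cast at this; omega
  have a1 : a 1 = 6 := by have := ha 1; push_cast at this; omega
  have a2 : a 2 = 19 := by have := ha 2; push_cast at this; omega
  have h3 : ∀ n, (a (n + 1 + 1 + 1) - a (n + 1 + 1) - (a (n + 1 + 1) - a (n + 1)))
      - (a (n + 1 + 1) - a (n + 1) - (a (n + 1) - a n)) = 4 := by
    intro n
    have e0 := ha n
    have e1 := ha (n + 1)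
    have e2 := ha (n + 1 + 1)
    have e3 := ha (n + 1 + 1 + 1)
    push_cast at e0 e1 e2 e3
    nlinarith [e0, e1, e2, e3]
  have s1 := one_sub_mul a
  have s2 := one_sub_mul (fun n => a (n + 1) - a n)
  have s3 := one_sub_mul (fun n => a (n + 1 + 1) - a (n + 1) - (a (n + 1) - a n))
  have s4 := mk_const 4
  simp only [h3] at s3
  simp only [zero_add] at s1 s2 s3
  rw [a0] at s1
  rw [a1, a0] at s2
  rw [show (1 : ℕ) + 1 = 2 from rfl, a2, a1, a0] at s3
  have e : (1 - X : PowerSeries ℤ) ^ 4 * PowerSeries.mk a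
      = (1 - X) ^ 3 * ((1 - X) * PowerSeries.mk a) := by ring
  rw [e, s1]
  have e' : (1 - X : PowerSeries ℤ) ^ 3 * (C 1 + X * PowerSeries.mk (fun n => a (n + 1) - a n))
      = (1 - X) ^ 3 * C 1 + (1 - X) ^ 2 * X * ((1 - X) * PowerSeries.mk (fun n => a (n + 1) - a n)) := by
    ring
  rw [e', s2]
  have e'' : (1 - X : PowerSeries ℤ) ^ 2 * X * (C (6 - 1) + X * PowerSeries.mk
      (fun n => a (n + 1 + 1) - a (n + 1) - (a (n + 1) - a n)))
      = (1 - X) ^ 2 * X * C (6 - 1) + (1 - X) * X ^ 2 * ((1 - X) * PowerSeries.mk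
      (fun n => a (n + 1 + 1) - a (n + 1) - (a (n + 1) - a n))) := by
    ring
  rw [e'', s3]
  have e3 : (1 - X : PowerSeries ℤ) * X ^ 2 * (C (19 - 6 - (6 - 1)) + X * PowerSeries.mk (fun _ => 4))
      = (1 - X) * X ^ 2 * C (19 - 6 - (6 - 1)) + X ^ 3 * ((1 - X) * PowerSeries.mk (fun _ => 4)) := by
    ring
  rw [e3, s4]
  have c1 : (C (1 : ℤ) : PowerSeries ℤ) = 1 := map_one _
  have c5 : (C (6 - 1 : ℤ) : PowerSeries ℤ) = 5 := by
    rw [show (6 - 1 : ℤ) = 5 by norm_num]; exact map_ofNat _ 5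
  have c8 : (C (19 - 6 - (6 - 1) : ℤ) : PowerSeries ℤ) = 8 := by
    rw [show (19 - 6 - (6 - 1) : ℤ) = 8 by norm_num]; exact map_ofNat _ 8
  have c4 : (C (4 : ℤ) : PowerSeries ℤ) = 4 := map_ofNat _ 4
  rw [c1, c5, c8, c4]
  ring

open PowerSeries in
/-- the equivariant series at a nontrivial element -/
theorem series_ne (a : ℕ → ℤ) (h0 : a 0 = 1) (h1 : a 1 = 0) (h2 : a 2 = 1)
    (hr : ∀ m, a (m + 3) = a m + 1) :
    (1 - X : PowerSeries ℤ) * (1 - X ^ 3) * PowerSeries.mk a = 1 - X + X ^ 2 := by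
  have key : (1 - X ^ 3 : PowerSeries ℤ) * PowerSeries.mk a
      = 1 + X ^ 2 + X ^ 3 * PowerSeries.mk (fun _ => 1) := by
    ext n
    rw [sub_mul, one_mul, map_sub, coeff_mk, coeff_X_pow_mul', map_add, map_add, coeff_X_pow_mul',
      coeff_X_pow, coeff_one]
    rcases n with _ | _ | _ | n
    · simp [h0]
    · simp [h1]
    · simp [h2]
    · have e1 : ¬ (n + 1 + 1 + 1 = 0) := by omega
      have e2 : ¬ (n + 1 + 1 + 1 = 2) := by omega
      have e3 : 3 ≤ n + 1 + 1 + 1 := by omega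
      rw [if_pos e3, if_neg e1, if_neg e2, if_pos e3, coeff_mk, coeff_mk]
      have : n + 1 + 1 + 1 - 3 = n := by omega
      rw [this]
      have := hr n
      rw [show n + 1 + 1 + 1 = n + 3 by ring, this]
      ring
  have s4 := mk_const 1
  have c1 : (C (1 : ℤ) : PowerSeries ℤ) = 1 := map_one _
  rw [c1] at s4
  calc (1 - X : PowerSeries ℤ) * (1 - X ^ 3) * PowerSeries.mk a
      = (1 - X) * ((1 - X ^ 3) * PowerSeries.mk a) := by ring
    _ = (1 - X) * (1 + X ^ 2) + X ^ 3 * ((1 - X) * PowerSeries.mk (fun _ => 1)) := by rw [key]; ring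
    _ = 1 - X + X ^ 2 := by rw [s4]; ring

/-! ### Determinants and the linear span -/

theorem det_one : Matrix.det (1 - (Polynomial.X : Polynomial ℤ) • (f 1).map Polynomial.C)
    = (1 - Polynomial.X) ^ 3 := by
  rw [map_one]
  have : (1 : Matrix (Fin 3) (Fin 3) ℤ).map Polynomial.C = 1 := by
    ext i j
    simp [Matrix.one_apply, apply_ite]
  rw [this, Matrix.det_fin_three]
  simp
  ring

theorem det_ne (g : Multiplicative (ZMod 3)) (hg : g ≠ 1) :
    Matrix.det (1 - (Polynomial.X : Polynomial ℤ) • (f g).map Polynomial.C)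
    = 1 - Polynomial.X ^ 3 := by
  have hg' : g = Multiplicative.ofAdd (1 : ZMod 3) ∨ g = Multiplicative.ofAdd (2 : ZMod 3) := by
    revert g; decide
  rcases hg' with rfl | rfl
  · have e : f (Multiplicative.ofAdd (1 : ZMod 3)) = !![0, 0, 1; 1, 0, 0; 0, 1, 0] := by decide
    rw [e, Matrix.det_fin_three]
    simp
    ring
  · have e : f (Multiplicative.ofAdd (2 : ZMod 3)) = !![0, 1, 0; 0, 0, 1; 1, 0, 0] := by decide
    rw [e, Matrix.det_fin_three]
    simp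
    ring

theorem span_P (x : Fin 3 → ℤ) : (fun j => ((x j : ℤ) : ℝ)) ∈ vectorSpan ℝ P := by
  have mv : ∀ v ∈ V, (fun j => ((v j : ℤ) : ℝ)) ∈ P := fun v hv =>
    subset_convexHull ℝ _ ⟨v, hv, rfl⟩
  have d0 := vsub_mem_vectorSpan ℝ (mv ![1, 1, 0] (by decide)) (mv ![0, 1, 0] (by decide))
  have d1 := vsub_mem_vectorSpan ℝ (mv ![1, 1, 0] (by decide)) (mv ![1, 0, 0] (by decide))
  have d2 := vsub_mem_vectorSpan ℝ (mv ![1, 0, 1] (by decide)) (mv ![1, 0, 0] (by decide))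
  have h := Submodule.add_mem _ (Submodule.add_mem _ (Submodule.smul_mem _ (x 0 : ℝ) d0)
    (Submodule.smul_mem _ (x 1 : ℝ) d1)) (Submodule.smul_mem _ (x 2 : ℝ) d2)
  convert h using 1
  funext j
  fin_cases j <;> simp

open PowerSeries in
/-- the equivariant `h*`-series -/
noncomputable def Φ (g : Multiplicative (ZMod 3)) : PowerSeries ℤ :=
  PowerSeries.mk (fun m : ℕ => (cnt g m : ℤ)) * (1 - PowerSeries.X)
    * ((Matrix.det (1 - (Polynomial.X : Polynomial ℤ) • (f g).map Polynomial.C) : Polynomial ℤ) :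
      PowerSeries ℤ)

open PowerSeries in
theorem Φ_one : Φ 1 = 1 + 2 * X + X ^ 2 := by
  unfold Φ
  rw [det_one]
  have := series_one (fun m => (cnt 1 m : ℤ)) cnt_one
  rw [← this]
  push_cast
  ring

open PowerSeries in
theorem Φ_ne (g : Multiplicative (ZMod 3)) (hg : g ≠ 1) : Φ g = 1 - X + X ^ 2 := by
  unfold Φ
  rw [det_ne g hg]
  have := series_ne (fun m => (cnt g m : ℤ)) (by rw [cnt_ne g hg]; rfl) (by rw [cnt_ne g hg]; rfl)
    (by rw [cnt_ne g hg]; rfl) (fun m => by rw [cnt_ne_rec g hg]; push_cast; rfl)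
  rw [← this]
  push_cast
  ring

end Pool.Agent.Q224.Octa
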