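import Mathlib

namespace Pool.Agent.Q224.ThreeGood

open Finset

/-- A finite set of naturals which splits into blocks of size at most three,
each with sum a power of three. -/
inductive Good : Finset ℕ → Prop
  | empty : Good ∅
  | add {S p : Finset ℕ} (h : Good S) (hd : Disjoint S p) (hc : p.card ≤ 3)
      (hs : ∃ j : ℕ, ∑ x ∈ p, x = 3 ^ j) : Good (S ∪ p)

lemma Good.finpartition {S : Finset ℕ} (h : Good S) :
    ∃ P : Finpartition S, ∀ p ∈ P.parts, p.card ≤ 3 ∧ ∃ j : ℕ, ∑ x ∈ p, x = 3 ^ j := by
  induction h with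
  | empty => exact ⟨Finpartition.empty _, by simp⟩
  | @add S p h hd hc hs ih =>
    obtain ⟨P, hP⟩ := ih
    have hne : p ≠ ⊥ := by
      rintro rfl
      obtain ⟨j, hj⟩ := hs
      simp at hj
      exact absurd hj (by positivity)
    refine ⟨P.extend hne hd rfl, ?_⟩
    intro q hq
    rw [Finpartition.extend_parts, mem_insert] at hq
    rcases hq with rfl | hq
    · exact ⟨hc, hs⟩
    · exact hP q hq

lemma Good.union {A B : Finset ℕ} (hA : Good A) (hB : Good B) (hd : Disjoint A B) :
    Good (A ∪ B) := by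
  induction hB with
  | empty => simpa using hA
  | @add S p h hd' hc hs ih =>
    rw [← union_assoc]
    refine Good.add (ih ?_) ?_ hc hs
    · exact disjoint_of_subset_right subset_union_left hd
    · rw [disjoint_union_left]
      exact ⟨disjoint_of_subset_right subset_union_right hd, hd'⟩

lemma good_part {p : Finset ℕ} (hc : p.card ≤ 3) (hs : ∃ j : ℕ, ∑ x ∈ p, x = 3 ^ j) :
    Good p := by
  have := Good.add Good.empty (disjoint_empty_left p) hc hs
  simpa using this

lemma good_single {a t : ℕ} (h : a = 3 ^ t) : Good {a} :=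
  good_part (by simp) ⟨t, by simp [h]⟩

lemma good_pair {a b t : ℕ} (hab : a ≠ b) (h : a + b = 3 ^ t) : Good {a, b} :=
  good_part (card_le_two.trans (by norm_num)) ⟨t, by rw [sum_pair hab, h]⟩

lemma good_triple {a b c t : ℕ} (hab : a ≠ b) (hac : a ≠ c) (hbc : b ≠ c)
    (h : a + b + c = 3 ^ t) : Good {a, b, c} :=
  good_part card_le_three ⟨t, by
    rw [sum_insert (by simp [hab, hac]), sum_pair hbc, ← h, add_assoc]⟩

lemma good_biUnion {ι : Type*} (I : Finset ι) (f : ι → Finset ℕ)
    (h : ∀ i ∈ I, Good (f i)) (hd : ∀ i ∈ I, ∀ j ∈ I, i ≠ j → Disjoint (f i) (f j)) :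
    Good (I.biUnion f) := by
  classical
  induction I using Finset.induction_on with
  | empty => simpa using Good.empty
  | insert a s ha ih =>
    rw [biUnion_insert, union_comm]
    refine Good.union (ih (fun i hi => h i (mem_insert_of_mem hi))
      (fun i hi j hj => hd i (mem_insert_of_mem hi) j (mem_insert_of_mem hj)))
      (h a (mem_insert_self _ _)) ?_
    rw [disjoint_biUnion_left]
    intro i hi
    exact hd i (mem_insert_of_mem hi) a (mem_insert_self _ _) (fun e => ha (e ▸ hi))

/-- Split a good set into two good pieces by a membership description. -/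
lemma good_of_split {S A B : Finset ℕ} (hA : Good A) (hB : Good B)
    (hd : ∀ x, x ∈ A → x ∈ B → False) (hS : ∀ x, x ∈ S ↔ x ∈ A ∨ x ∈ B) : Good S := by
  have : S = A ∪ B := by ext x; rw [hS, mem_union]
  rw [this]
  exact hA.union hB (disjoint_left.2 fun x h1 h2 => hd x h1 h2)

lemma good_congr {S A : Finset ℕ} (hA : Good A) (hS : ∀ x, x ∈ S ↔ x ∈ A) : Good S := by
  have : S = A := by ext x; exact hS x
  rw [this]; exact hA

/-- Pair off `d` with `Q - d`. -/
lemma pairoff {t Q : ℕ} (hQ : Q = 3 ^ t) (A : Finset ℕ) (hA : ∀ a ∈ A, 1 ≤ a ∧ a < Q)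
    (h : Good (A.filter fun d => Q - d ∉ A)) : Good A := by
  have hodd : Q % 2 = 1 := by
    rw [hQ]; exact Nat.odd_iff.1 (Odd.pow (by decide))
  have h2 : Good ((A.filter fun d => Q - d ∈ A ∧ d < Q - d).biUnion fun d => {d, Q - d}) := by
    refine good_biUnion _ _ ?_ ?_
    · intro d hd
      rw [mem_filter] at hd
      have := hA d hd.1
      exact good_pair (t := t) (by omega) (by omega)
    · intro i hi j hj hij
      rw [mem_filter] at hi hj
      have h1 := hA i hi.1
      have h2 := hA j hj.1
      rw [disjoint_left]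
      intro x hx hx'
      simp only [mem_insert, mem_singleton] at hx hx'
      omega
  refine good_of_split h h2 ?_ ?_
  · intro x hx hx'
    rw [mem_filter] at hx
    rw [mem_biUnion] at hx'
    obtain ⟨d, hd, hxd⟩ := hx'
    rw [mem_filter] at hd
    have h1 := hA d hd.1
    simp only [mem_insert, mem_singleton] at hxd
    rcases hxd with rfl | rfl
    · exact hx.2 hd.2.1
    · apply hx.2
      have : Q - (Q - d) = d := by omega
      rw [this]; exact hd.1
  · intro x
    rw [mem_filter, mem_biUnion]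
    constructor
    · intro hx
      by_cases hq : Q - x ∈ A
      · right
        have h1 := hA x hx
        rcases lt_or_ge x (Q - x) with hlt | hge
        · exact ⟨x, mem_filter.2 ⟨hx, hq, hlt⟩, by simp⟩
        · refine ⟨Q - x, mem_filter.2 ⟨hq, ?_, by omega⟩, ?_⟩
          · have : Q - (Q - x) = x := by omega
            rw [this]; exact hx
          · simp only [mem_insert, mem_singleton]; omega
      · left; exact ⟨hx, hq⟩
    · rintro (hx | ⟨d, hd, hxd⟩)
      · exact hx.1
      · rw [mem_filter] at hd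
        simp only [mem_insert, mem_singleton] at hxd
        rcases hxd with rfl | rfl
        · exact hd.1
        · exact hd.2.1

/-- The first family of triples of `Z0`, starting at index `k`. -/
lemma good_fam1 {t P s k : ℕ} (hP : P = 3 ^ t) (hs : 3 * s < P) :
    Good ((Ico k s).biUnion fun i => {P - (3 * s - 2 * i), P + (s - i), P + (2 * s - i)}) := by
  refine good_biUnion _ _ ?_ ?_
  · intro i hi
    rw [mem_Ico] at hi
    have : (3:ℕ) ^ (t + 1) = 3 * P := by rw [hP, pow_succ]; ring
    exact good_triple (t := t + 1) (by omega) (by omega) (by omega) (by omega)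
  · intro i hi j hj hij
    rw [mem_Ico] at hi hj
    rw [disjoint_left]
    intro x hx hx'
    simp only [mem_insert, mem_singleton] at hx hx'
    omega

/-- The second family of triples of `Z0`. -/
lemma good_fam2 {t P s : ℕ} (hP : P = 3 ^ t) (hs : 3 * s < P) :
    Good ((range s).biUnion fun j => {P - (3 * s - 1 - 2 * j), P - (1 + j), P + (3 * s - j)}) := by
  refine good_biUnion _ _ ?_ ?_
  · intro i hi
    rw [mem_range] at hi
    have : (3:ℕ) ^ (t + 1) = 3 * P := by rw [hP, pow_succ]; ring
    exact good_triple (t := t + 1) (by omega) (by omega) (by omega) (by omega)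
  · intro i hi j hj hij
    rw [mem_range] at hi hj
    rw [disjoint_left]
    intro x hx hx'
    simp only [mem_insert, mem_singleton] at hx hx'
    omega

/-- `P + ({-3s..3s} \ {0})` is good. -/
lemma good_Z0 {t P s : ℕ} (hP : P = 3 ^ t) (hs : 3 * s < P) (S : Finset ℕ)
    (hS : ∀ x, x ∈ S ↔ P ≤ x + 3 * s ∧ x ≤ P + 3 * s ∧ x ≠ P) : Good S := by
  refine good_of_split (good_fam1 (k := 0) hP hs) (good_fam2 hP hs) ?_ ?_
  · intro x hx hx'
    simp only [mem_biUnion, mem_Ico, mem_range, mem_insert, mem_singleton] at hx hx'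
    obtain ⟨i, hi, hx⟩ := hx
    obtain ⟨j, hj, hx'⟩ := hx'
    omega
  · intro x
    rw [hS]
    simp only [mem_biUnion, mem_Ico, mem_range, mem_insert, mem_singleton]
    constructor
    · rintro ⟨h1, h2, h3⟩
      rcases lt_or_gt_of_ne h3 with hlt | hgt
      · -- x = P - e
        rcases le_or_gt (P - x) s with h4 | h4
        · right
          exact ⟨P - x - 1, by omega, by omega⟩
        · rcases Nat.even_or_odd' (3 * s - (P - x)) with ⟨i, hi | hi⟩
          · left; exact ⟨i, by omega, by omega⟩
          · right; exact ⟨i, by omega, by omega⟩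
      · rcases le_or_gt (x - P) s with h4 | h4
        · left; exact ⟨s - (x - P), by omega, by omega⟩
        · rcases le_or_gt (x - P) (2 * s) with h5 | h5
          · left; exact ⟨2 * s - (x - P), by omega, by omega⟩
          · right; exact ⟨3 * s - (x - P), by omega, by omega⟩
    · rintro (⟨i, hi, hx⟩ | ⟨j, hj, hx⟩) <;> omega

/-- `P + ({-3s..3s} \ {0, -3s, s, 2s})` is good. -/
lemma good_Z1 {t P s : ℕ} (hP : P = 3 ^ t) (hs : 3 * s < P) (S : Finset ℕ)
    (hS : ∀ x, x ∈ S ↔ P < x + 3 * s ∧ x ≤ P + 3 * s ∧ x ≠ P ∧ x ≠ P + s ∧ x ≠ P + 2 * s) :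
    Good S := by
  refine good_of_split (good_fam1 (k := 1) hP hs) (good_fam2 hP hs) ?_ ?_
  · intro x hx hx'
    simp only [mem_biUnion, mem_Ico, mem_range, mem_insert, mem_singleton] at hx hx'
    obtain ⟨i, hi, hx⟩ := hx
    obtain ⟨j, hj, hx'⟩ := hx'
    omega
  · intro x
    rw [hS]
    simp only [mem_biUnion, mem_Ico, mem_range, mem_insert, mem_singleton]
    constructor
    · rintro ⟨h1, h2, h3, h3', h3''⟩
      rcases lt_or_gt_of_ne h3 with hlt | hgt
      · -- x = P - e
        rcases le_or_gt (P - x) s with h4 | h4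
        · right
          exact ⟨P - x - 1, by omega, by omega⟩
        · rcases Nat.even_or_odd' (3 * s - (P - x)) with ⟨i, hi | hi⟩
          · left; exact ⟨i, by omega, by omega⟩
          · right; exact ⟨i, by omega, by omega⟩
      · rcases le_or_gt (x - P) s with h4 | h4
        · left; exact ⟨s - (x - P), by omega, by omega⟩
        · rcases le_or_gt (x - P) (2 * s) with h5 | h5
          · left; exact ⟨2 * s - (x - P), by omega, by omega⟩
          · right; exact ⟨3 * s - (x - P), by omega, by omega⟩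
    · rintro (⟨i, hi, hx⟩ | ⟨j, hj, hx⟩) <;> omega

/-- `P + {-(3m+1)..3m+1}` is good. -/
lemma good_W {t P m : ℕ} (hP : P = 3 ^ t) (hs : 3 * m + 1 < P) (S : Finset ℕ)
    (hS : ∀ x, x ∈ S ↔ P ≤ x + (3 * m + 1) ∧ x ≤ P + (3 * m + 1)) : Good S := by
  have h3 : (3:ℕ) ^ (t + 1) = 3 * P := by rw [hP, pow_succ]; ring
  have h1 : Good ((range (m + 1)).biUnion fun i =>
      {P - (3 * m + 1 - 2 * i), P + (m - i), P + (2 * m + 1 - i)}) := by
    refine good_biUnion _ _ ?_ ?_
    · intro i hi
      rw [mem_range] at hi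
      exact good_triple (t := t + 1) (by omega) (by omega) (by omega) (by omega)
    · intro i hi j hj hij
      rw [mem_range] at hi hj
      rw [disjoint_left]
      intro x hx hx'
      simp only [mem_insert, mem_singleton] at hx hx'
      omega
  have h2 : Good ((range m).biUnion fun j =>
      {P - (3 * m - 2 * j), P - (1 + j), P + (3 * m + 1 - j)}) := by
    refine good_biUnion _ _ ?_ ?_
    · intro i hi
      rw [mem_range] at hi
      exact good_triple (t := t + 1) (by omega) (by omega) (by omega) (by omega)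
    · intro i hi j hj hij
      rw [mem_range] at hi hj
      rw [disjoint_left]
      intro x hx hx'
      simp only [mem_insert, mem_singleton] at hx hx'
      omega
  refine good_of_split h1 h2 ?_ ?_
  · intro x hx hx'
    simp only [mem_biUnion, mem_range, mem_insert, mem_singleton] at hx hx'
    obtain ⟨i, hi, hx⟩ := hx
    obtain ⟨j, hj, hx'⟩ := hx'
    omega
  · intro x
    rw [hS]
    simp only [mem_biUnion, mem_range, mem_insert, mem_singleton]
    constructor
    · rintro ⟨h1, h2⟩
      rcases lt_or_ge x P with hlt | hge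
      · rcases le_or_gt (P - x) m with h4 | h4
        · right
          exact ⟨P - x - 1, by omega, by omega⟩
        · rcases Nat.even_or_odd' (3 * m + 1 - (P - x)) with ⟨i, hi | hi⟩
          · left; exact ⟨i, by omega, by omega⟩
          · right; exact ⟨i, by omega, by omega⟩
      · rcases le_or_gt (x - P) m with h4 | h4
        · left; exact ⟨m - (x - P), by omega, by omega⟩
        · rcases le_or_gt (x - P) (2 * m + 1) with h5 | h5
          · left; exact ⟨2 * m + 1 - (x - P), by omega, by omega⟩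
          · right; exact ⟨3 * m + 1 - (x - P), by omega, by omega⟩
    · rintro (⟨i, hi, hx⟩ | ⟨j, hj, hx⟩) <;> omega

/-- The set `[Q + ρ] \ (Q - Σ)`, where `Σ` is the set of pair sums. -/
def hset (Q ρ : ℕ) (T : Finset (ℕ × ℕ)) : Finset ℕ :=
  (Icc 1 (Q + ρ)).filter fun x => ∀ p ∈ T, x + (p.1 + p.2) ≠ Q

lemma mem_hset {Q ρ : ℕ} {T : Finset (ℕ × ℕ)} {x : ℕ} :
    x ∈ hset Q ρ T ↔ (1 ≤ x ∧ x ≤ Q + ρ) ∧ ∀ p ∈ T, x + (p.1 + p.2) ≠ Q := by
  rw [hset, mem_filter, mem_Icc]

/-- Reduction of `hset` to the small set `N \ (Q - N)`. -/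
lemma hset_good {t Q s ρ : ℕ} (hQ : Q = 3 ^ t) (hρ : ρ = 3 * s) (h2 : 2 * ρ < Q)
    (T : Finset (ℕ × ℕ)) (hT : ∀ p ∈ T, ρ < p.1 + p.2 ∧ p.1 + p.2 < Q)
    (B : Finset ℕ)
    (hB : ∀ d, d ∈ B ↔ 1 ≤ d ∧ d + ρ < Q ∧ (∀ p ∈ T, d + (p.1 + p.2) ≠ Q) ∧
      (d ≤ ρ ∨ ∃ p ∈ T, d = p.1 + p.2))
    (hgood : Good B) : Good (hset Q ρ T) := by
  -- the triples around `Q`
  have hZ : Good ((Icc (Q - ρ) (Q + ρ)).erase Q) := by
    refine good_Z0 (s := s) hQ (by omega) _ ?_
    intro x
    rw [mem_erase, mem_Icc]
    omega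
  have h1 : Good (Icc (Q - ρ) (Q + ρ)) := by
    refine good_of_split hZ (good_single (a := Q) hQ) ?_ ?_
    · intro x hx hx'
      rw [mem_erase] at hx
      rw [mem_singleton] at hx'
      exact hx.1 hx'
    · intro x
      rw [mem_erase, mem_singleton, mem_Icc]
      omega
  have hA : Good ((Ico 1 (Q - ρ)).filter fun x => ∀ p ∈ T, x + (p.1 + p.2) ≠ Q) := by
    refine pairoff hQ _ ?_ ?_
    · intro a ha
      rw [mem_filter, mem_Ico] at ha
      omega
    · refine good_congr hgood ?_
      intro d
      rw [hB, mem_filter, mem_filter, mem_Ico, mem_filter, mem_Ico]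
      constructor
      · rintro ⟨⟨h3, h4⟩, h5⟩
        refine ⟨h3.1, by omega, h4, ?_⟩
        by_contra hcon
        rw [not_or] at hcon
        obtain ⟨hc1, hc2⟩ := hcon
        apply h5
        refine ⟨by omega, ?_⟩
        intro p hp hpe
        exact hc2 ⟨p, hp, by omega⟩
      · rintro ⟨h3, h4, h5, h6⟩
        refine ⟨⟨by omega, h5⟩, ?_⟩
        rintro ⟨h7, h8⟩
        rcases h6 with h6 | ⟨p, hp, hpe⟩
        · omega
        · exact h8 p hp (by omega)
  refine good_of_split hA h1 ?_ ?_
  · intro x hx hx'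
    rw [mem_filter, mem_Ico] at hx
    rw [mem_Icc] at hx'
    omega
  · intro x
    rw [mem_hset, mem_filter, mem_Ico, mem_Icc]
    constructor
    · rintro ⟨h3, h4⟩
      by_cases h5 : x < Q - ρ
      · left; exact ⟨⟨h3.1, h5⟩, h4⟩
      · right; omega
    · rintro (⟨h3, h4⟩ | h3)
      · exact ⟨by omega, h4⟩
      · refine ⟨by omega, ?_⟩
        intro p hp hpe
        have := hT p hp
        omega

/-- A pairing of the zone `(ρ, r]` with distinct pair sums below `Q`. -/
structure IsPairing (ρ r Q : ℕ) (T : Finset (ℕ × ℕ)) : Prop where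
  bd : ∀ p ∈ T, ρ < p.1 ∧ p.1 ≤ r ∧ ρ < p.2 ∧ p.2 ≤ r ∧ p.1 ≠ p.2 ∧ p.1 + p.2 < Q
  inj : ∀ p ∈ T, ∀ p' ∈ T, p ≠ p' → p.1 ≠ p'.1 ∧ p.1 ≠ p'.2 ∧ p.2 ≠ p'.1 ∧ p.2 ≠ p'.2 ∧
    p.1 + p.2 ≠ p'.1 + p'.2
  cov : ∀ x, ρ < x → x ≤ r → ∃ p ∈ T, x = p.1 ∨ x = p.2

/-- The property used in the recursion. -/
def ZProp (r Q : ℕ) : Prop :=
  ∃ s ρ : ℕ, ρ = 3 * s ∧ ρ ≤ r ∧ ∃ T : Finset (ℕ × ℕ), IsPairing ρ r Q T ∧ Good (hset Q ρ T)

/-- The property `ZProp` gives a good partition of `[Q + r]`. -/
lemma ZProp.good {t r Q : ℕ} (hQ : Q = 3 ^ t) (h : ZProp r Q) : Good (Icc 1 (Q + r)) := by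
  obtain ⟨s, ρ, -, hρr, T, hT, hg⟩ := h
  have hf : Good (T.biUnion fun p => {Q + p.1, Q + p.2, Q - (p.1 + p.2)}) := by
    refine good_biUnion _ _ ?_ ?_
    · intro p hp
      have := hT.bd p hp
      have h3 : (3:ℕ) ^ (t + 1) = 3 * Q := by rw [hQ, pow_succ]; ring
      exact good_triple (t := t + 1) (by omega) (by omega) (by omega) (by omega)
    · intro p hp p' hp' hne
      have h1 := hT.bd p hp
      have h2 := hT.bd p' hp'
      have h3 := hT.inj p hp p' hp' hne
      rw [disjoint_left]
      intro x hx hx'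
      simp only [mem_insert, mem_singleton] at hx hx'
      omega
  refine good_of_split hg hf ?_ ?_
  · intro x hx hx'
    rw [mem_hset] at hx
    rw [mem_biUnion] at hx'
    obtain ⟨p, hp, hxp⟩ := hx'
    simp only [mem_insert, mem_singleton] at hxp
    have h1 := hT.bd p hp
    have h2 := hx.2 p hp
    omega
  · intro x
    rw [mem_hset, mem_Icc, mem_biUnion]
    constructor
    · rintro ⟨h1, h2⟩
      by_cases h3 : x ≤ Q + ρ
      · by_cases h4 : ∀ p ∈ T, x + (p.1 + p.2) ≠ Q
        · left; exact ⟨⟨h1, h3⟩, h4⟩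
        · push Not at h4
          obtain ⟨p, hp, hpe⟩ := h4
          right
          refine ⟨p, hp, ?_⟩
          simp only [mem_insert, mem_singleton]
          omega
      · right
        obtain ⟨p, hp, hpx⟩ := hT.cov (x - Q) (by omega) (by omega)
        refine ⟨p, hp, ?_⟩
        simp only [mem_insert, mem_singleton]
        omega
    · rintro (⟨h1, h2⟩ | ⟨p, hp, hxp⟩)
      · omega
      · simp only [mem_insert, mem_singleton] at hxp
        have h1 := hT.bd p hp
        omega

/-- The shift step. -/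
lemma ZProp.shift {j t r q Q : ℕ} (hq : q = 3 ^ (j + 1)) (hQ : Q = 3 ^ t) (hqQ : 3 * q ≤ Q)
    (hr : 2 * r < q) (h : ZProp r q) : ZProp (q + r) Q := by
  obtain ⟨s, ρ, hρs, hρr, T, hT, hg⟩ := h
  refine ⟨3 ^ j + s, q + ρ, by rw [hρs, hq, pow_succ]; ring, by omega,
    T.image (fun p => (q + p.1, q + p.2)), ?_, ?_⟩
  · constructor
    · intro p hp
      rw [mem_image] at hp
      obtain ⟨p, hp, rfl⟩ := hp
      have h1 := hT.bd p hp
      dsimp only
      omega
    · intro p hp p' hp' hne
      rw [mem_image] at hp hp'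
      obtain ⟨p, hp, rfl⟩ := hp
      obtain ⟨p', hp', rfl⟩ := hp'
      have hne' : p ≠ p' := by rintro rfl; exact hne rfl
      have h1 := hT.inj p hp p' hp' hne'
      dsimp only
      omega
    · intro x hx hx'
      obtain ⟨p, hp, hpx⟩ := hT.cov (x - q) (by omega) (by omega)
      refine ⟨_, mem_image_of_mem _ hp, ?_⟩
      dsimp only
      omega
  · -- the reduced set
    have hcases : Q = 3 * q ∨ 9 * q ≤ Q := by
      have h1 : 3 * q = 3 ^ (j + 2) := by rw [hq, pow_succ 3 (j + 1)]; ring
      rw [h1, hQ] at hqQ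
      have h2 : j + 2 ≤ t := (Nat.pow_le_pow_iff_right (by norm_num)).1 hqQ
      rcases Nat.eq_or_lt_of_le h2 with h3 | h3
      · left; rw [h1, hQ, h3]
      · right
        have h4 : (3:ℕ) ^ (j + 3) ≤ 3 ^ t := Nat.pow_le_pow_right (by norm_num) h3
        have h5 : (3:ℕ) ^ (j + 3) = 9 * q := by rw [hq]; ring
        omega
    have hfam : Good (T.biUnion fun p => {q - (p.1 + p.2), 2 * q + (p.1 + p.2)}) := by
      refine good_biUnion _ _ ?_ ?_
      · intro p hp
        have := hT.bd p hp
        have h3 : (3:ℕ) ^ (j + 2) = 3 * q := by rw [hq, pow_succ 3 (j + 1)]; ring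
        exact good_pair (t := j + 2) (by omega) (by omega)
      · intro p hp p' hp' hne
        have h1 := hT.bd p hp
        have h2 := hT.bd p' hp'
        have h3 := hT.inj p hp p' hp' hne
        rw [disjoint_left]
        intro x hx hx'
        simp only [mem_insert, mem_singleton] at hx hx'
        omega
    have hTb : ∀ p ∈ T.image (fun p => (q + p.1, q + p.2)),
        q + ρ < p.1 + p.2 ∧ p.1 + p.2 < Q := by
      intro p hp
      rw [mem_image] at hp
      obtain ⟨p, hp, rfl⟩ := hp
      have h1 := hT.bd p hp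
      dsimp only
      omega
    rcases hcases with hc | hc
    · -- `Q = 3 q`
      refine hset_good (s := 3 ^ j + s) hQ (by rw [hρs, hq, pow_succ]; ring) (by omega) _ hTb
        (hset q ρ T) ?_ hg
      intro d
      rw [mem_hset]
      constructor
      · rintro ⟨h1, h2⟩
        refine ⟨h1.1, by omega, ?_, Or.inl h1.2⟩
        intro p hp
        rw [mem_image] at hp
        obtain ⟨p, hp, rfl⟩ := hp
        have := h2 p hp
        dsimp only
        omega
      · rintro ⟨h1, h2, h3, h4⟩
        refine ⟨⟨h1, ?_⟩, ?_⟩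
        · rcases h4 with h4 | ⟨p, hp, hpd⟩
          · exact h4
          · rw [mem_image] at hp
            obtain ⟨p, hp, rfl⟩ := hp
            have h5 := hT.bd p hp
            dsimp only at hpd
            omega
        · intro p hp
          have := h3 _ (mem_image_of_mem _ hp)
          dsimp only at this
          omega
    · -- `9 q ≤ Q`
      have hB : Good (hset q ρ T ∪ T.biUnion fun p => {q - (p.1 + p.2), 2 * q + (p.1 + p.2)}) := by
        refine Good.union hg hfam ?_
        rw [disjoint_left]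
        intro x hx hx'
        rw [mem_hset] at hx
        rw [mem_biUnion] at hx'
        obtain ⟨p, hp, hxp⟩ := hx'
        simp only [mem_insert, mem_singleton] at hxp
        have h1 := hT.bd p hp
        have h2 := hx.2 p hp
        omega
      refine hset_good (s := 3 ^ j + s) hQ (by rw [hρs, hq, pow_succ]; ring) (by omega) _ hTb
        _ ?_ hB
      intro d
      rw [mem_union, mem_hset, mem_biUnion]
      constructor
      · rintro (⟨h1, h2⟩ | ⟨p, hp, hxp⟩)
        · refine ⟨h1.1, by omega, ?_, Or.inl h1.2⟩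
          intro p hp
          rw [mem_image] at hp
          obtain ⟨p, hp, rfl⟩ := hp
          have := hT.bd p hp
          dsimp only
          omega
        · simp only [mem_insert, mem_singleton] at hxp
          have h5 := hT.bd p hp
          refine ⟨by omega, by omega, ?_, ?_⟩
          · intro p' hp'
            rw [mem_image] at hp'
            obtain ⟨p', hp', rfl⟩ := hp'
            have := hT.bd p' hp'
            dsimp only
            omega
          · rcases hxp with hxp | hxp
            · left; omega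
            · right
              refine ⟨_, mem_image_of_mem _ hp, ?_⟩
              dsimp only
              omega
      · rintro ⟨h1, h2, h3, h4⟩
        rcases h4 with h4 | ⟨p, hp, hpd⟩
        · by_cases h5 : ∀ p ∈ T, d + (p.1 + p.2) ≠ q
          · left; exact ⟨⟨h1, h4⟩, h5⟩
          · push Not at h5
            obtain ⟨p, hp, hpe⟩ := h5
            right
            refine ⟨p, hp, ?_⟩
            simp only [mem_insert, mem_singleton]
            omega
        · rw [mem_image] at hp
          obtain ⟨p, hp, rfl⟩ := hp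
          have h5 := hT.bd p hp
          dsimp only at hpd
          right
          refine ⟨p, hp, ?_⟩
          simp only [mem_insert, mem_singleton]
          omega

/-- The base case of the recursion, from a permutation of `[1, w]`. -/
lemma ZProp.base {t r w h R Q s : ℕ} (hRh : R = 2 * h + 1) (hr : r = h + w) (hwh : w ≤ h)
    (hw1 : 1 ≤ w) (hQ : Q = 3 ^ t) (hQR : 3 * R ≤ Q) (hs : h - w = 3 * s) (π : ℕ → ℕ)
    (hπ : ∀ i, 1 ≤ i → i ≤ w → 1 ≤ π i ∧ π i ≤ w)
    (hinj : ∀ i j, 1 ≤ i → i ≤ w → 1 ≤ j → j ≤ w → i ≠ j → π i ≠ π j ∧ i + π j ≠ j + π i)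
    (hsurj : ∀ k, 1 ≤ k → k ≤ w → ∃ i, 1 ≤ i ∧ i ≤ w ∧ π i = k)
    (hgoodS : Good ((Icc 1 w).image fun i => R + i - π i))
    (hsmall : Good (Icc 1 (h - w))) : ZProp r Q := by
  have hT : IsPairing (h - w) r Q ((Icc 1 w).image fun i => (h - w + i, h + w + 1 - π i)) := by
    constructor
    · intro p hp
      rw [mem_image] at hp
      obtain ⟨i, hi, rfl⟩ := hp
      rw [mem_Icc] at hi
      have := hπ i hi.1 hi.2
      dsimp only
      omega
    · intro p hp p' hp' hne
      rw [mem_image] at hp hp'
      obtain ⟨i, hi, rfl⟩ := hp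
      obtain ⟨i', hi', rfl⟩ := hp'
      rw [mem_Icc] at hi hi'
      have hne' : i ≠ i' := by rintro rfl; exact hne rfl
      have h1 := hπ i hi.1 hi.2
      have h2 := hπ i' hi'.1 hi'.2
      have h3 := hinj i i' hi.1 hi.2 hi'.1 hi'.2 hne'
      dsimp only
      omega
    · intro x hx hx'
      by_cases hxh : x ≤ h
      · refine ⟨_, mem_image_of_mem _ (a := x - (h - w)) (mem_Icc.2 (by omega)), ?_⟩
        dsimp only
        omega
      · obtain ⟨i, hi1, hi2, hi3⟩ := hsurj (h + w + 1 - x) (by omega) (by omega)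
        refine ⟨_, mem_image_of_mem _ (a := i) (mem_Icc.2 ⟨hi1, hi2⟩), ?_⟩
        dsimp only
        omega
  refine ⟨s, h - w, hs, by omega, _, hT, ?_⟩
  have hB : Good (Icc 1 (h - w) ∪ (Icc 1 w).image fun i => R + i - π i) := by
    refine Good.union hsmall hgoodS ?_
    rw [disjoint_left]
    intro x hx hx'
    rw [mem_Icc] at hx
    rw [mem_image] at hx'
    obtain ⟨i, hi, rfl⟩ := hx'
    rw [mem_Icc] at hi
    have := hπ i hi.1 hi.2
    omega
  refine hset_good hQ hs (by omega) _ ?_ _ ?_ hB
  · intro p hp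
    have := hT.bd p hp
    omega
  · intro d
    rw [mem_union, mem_Icc, mem_image]
    constructor
    · rintro (h1 | ⟨i, hi, rfl⟩)
      · refine ⟨h1.1, by omega, ?_, Or.inl h1.2⟩
        intro p hp
        rw [mem_image] at hp
        obtain ⟨i, hi, rfl⟩ := hp
        rw [mem_Icc] at hi
        have := hπ i hi.1 hi.2
        dsimp only
        omega
      · rw [mem_Icc] at hi
        have h1 := hπ i hi.1 hi.2
        refine ⟨by omega, by omega, ?_, Or.inr ?_⟩
        · intro p hp
          rw [mem_image] at hp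
          obtain ⟨i', hi', rfl⟩ := hp
          rw [mem_Icc] at hi'
          have := hπ i' hi'.1 hi'.2
          dsimp only
          omega
        · refine ⟨_, mem_image_of_mem _ (a := i) (mem_Icc.2 hi), ?_⟩
          dsimp only
          omega
    · rintro ⟨h1, h2, h3, h4⟩
      rcases h4 with h4 | ⟨p, hp, hpd⟩
      · left; exact ⟨h1, h4⟩
      · right
        rw [mem_image] at hp
        obtain ⟨i, hi, rfl⟩ := hp
        have hi' := mem_Icc.1 hi
        have := hπ i hi'.1 hi'.2
        refine ⟨i, hi, ?_⟩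
        dsimp only at hpd
        omega

/-- The base case for odd width. -/
lemma ZProp.base_odd {j t r h R Q s u : ℕ} (hR : R = 3 ^ j) (hRh : R = 2 * h + 1)
    (hr : r = h + (6 * u + 1)) (hwh : 6 * u + 1 ≤ h)
    (hQ : Q = 3 ^ t) (hQR : 3 * R ≤ Q) (hs : h - (6 * u + 1) = 3 * s)
    (hsmall : Good (Icc 1 (h - (6 * u + 1)))) : ZProp r Q := by
  refine ZProp.base (w := 6 * u + 1) hRh hr hwh (by omega) hQ hQR hs
    (fun i => if i ≤ 3 * u then 2 * i else 2 * i - 6 * u - 1) ?_ ?_ ?_ ?_ hsmall
  · intro i h1 h2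
    split_ifs <;> omega
  · intro i i' h1 h2 h3 h4 h5
    split_ifs <;> omega
  · intro k h1 h2
    rcases Nat.even_or_odd' k with ⟨l, hl | hl⟩
    · refine ⟨l, by omega, by omega, ?_⟩
      rw [if_pos (by omega)]; omega
    · refine ⟨3 * u + 1 + l, by omega, by omega, ?_⟩
      rw [if_neg (by omega)]; omega
  · have hZ : Good ((Icc (R - 3 * u) (R + 3 * u)).erase R) := by
      refine good_Z0 (s := u) hR (by omega) _ ?_
      intro x
      rw [mem_erase, mem_Icc]
      omega
    refine good_of_split hZ (good_single (a := R) hR) ?_ ?_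
    · intro x hx hx'
      rw [mem_erase] at hx
      rw [mem_singleton] at hx'
      exact hx.1 hx'
    · intro x
      rw [mem_image, mem_erase, mem_singleton, mem_Icc]
      constructor
      · rintro ⟨i, hi, hx⟩
        rw [mem_Icc] at hi
        split_ifs at hx <;> omega
      · intro hx
        rcases lt_or_ge x R with hlt | hge
        · refine ⟨R - x, mem_Icc.2 (by omega), ?_⟩
          rw [if_pos (by omega)]; omega
        · refine ⟨R + (6 * u + 1) - x, mem_Icc.2 (by omega), ?_⟩
          rw [if_neg (by omega)]; omega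

/-- The base case for even width. -/
lemma ZProp.base_even {j t r h R Q s u : ℕ} (hR : R = 3 ^ j) (hRh : R = 2 * h + 1)
    (hr : r = h + (6 * u + 4)) (hwh : 6 * u + 4 ≤ h)
    (hQ : Q = 3 ^ t) (hQR : 3 * R ≤ Q) (hs : h - (6 * u + 4) = 3 * s)
    (hsmall : Good (Icc 1 (h - (6 * u + 4)))) : ZProp r Q := by
  refine ZProp.base (w := 6 * u + 4) hRh hr hwh (by omega) hQ hQR hs
    (fun i => if i ≤ 3 * u + 2 then 2 * i else if i = 4 * u + 3 then 4 * u + 3 else
      if i = 5 * u + 4 then 2 * u + 1 else 2 * i - 6 * u - 5) ?_ ?_ ?_ ?_ hsmall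
  · intro i h1 h2
    split_ifs <;> omega
  · intro i i' h1 h2 h3 h4 h5
    split_ifs <;> omega
  · intro k h1 h2
    rcases Nat.even_or_odd' k with ⟨l, hl | hl⟩
    · refine ⟨l, by omega, by omega, ?_⟩
      rw [if_pos (by omega)]; omega
    · by_cases h3 : k = 4 * u + 3
      · refine ⟨4 * u + 3, by omega, by omega, ?_⟩
        rw [if_neg (by omega), if_pos rfl]; omega
      · by_cases h4 : k = 2 * u + 1
        · refine ⟨5 * u + 4, by omega, by omega, ?_⟩
          rw [if_neg (by omega), if_neg (by omega), if_pos rfl]; omega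
        · refine ⟨3 * u + 3 + l, by omega, by omega, ?_⟩
          rw [if_neg (by omega), if_neg (by omega), if_neg (by omega)]; omega
  · have hZ : Good ((Icc (R - (3 * u + 2)) (R + (3 * u + 3))).filter
        fun x => x ≠ R ∧ x ≠ R + (u + 1) ∧ x ≠ R + 2 * (u + 1)) := by
      refine good_Z1 (s := u + 1) hR (by omega) _ ?_
      intro x
      rw [mem_filter, mem_Icc]
      omega
    refine good_of_split hZ (good_single (a := R) hR) ?_ ?_
    · intro x hx hx'
      rw [mem_filter] at hx
      rw [mem_singleton] at hx'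
      exact hx.2.1 hx'
    · intro x
      rw [mem_image, mem_filter, mem_singleton, mem_Icc]
      constructor
      · rintro ⟨i, hi, hx⟩
        rw [mem_Icc] at hi
        split_ifs at hx <;> omega
      · intro hx
        rcases lt_or_ge x R with hlt | hge
        · refine ⟨R - x, mem_Icc.2 (by omega), ?_⟩
          rw [if_pos (by omega)]; omega
        · by_cases h3 : x = R
          · refine ⟨4 * u + 3, mem_Icc.2 (by omega), ?_⟩
            rw [if_neg (by omega), if_pos rfl]; omega
          · by_cases h4 : x = R + 3 * (u + 1)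
            · refine ⟨5 * u + 4, mem_Icc.2 (by omega), ?_⟩
              rw [if_neg (by omega), if_neg (by omega), if_pos rfl]; omega
            · refine ⟨R + (6 * u + 5) - x, mem_Icc.2 (by omega), ?_⟩
              rw [if_neg (by omega), if_neg (by omega), if_neg (by omega)]; omega

lemma three_mul_le_of_lt {a b : ℕ} (h : 3 ^ a < 3 ^ b) : 3 * 3 ^ a ≤ 3 ^ b := by
  have h1 : a < b := (Nat.pow_lt_pow_iff_right (by norm_num)).1 h
  calc 3 * 3 ^ a = 3 ^ (a + 1) := by rw [pow_succ]; ring
    _ ≤ 3 ^ b := Nat.pow_le_pow_right (by norm_num) h1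

lemma zprop_all (n : ℕ) (hn : ∀ m, m < n → Good (Icc 1 m)) :
    ∀ r, r < n → r % 3 = 2 → ∀ t, 2 * r < 3 ^ t → ZProp r (3 ^ t) := by
  intro r
  induction r using Nat.strong_induction_on with
  | _ r ih =>
    intro hrn hr t ht
    set j := Nat.log 3 r with hj
    have h1 : 3 ^ j ≤ r := Nat.pow_log_le_self 3 (by omega)
    have h2 : r < 3 ^ (j + 1) := Nat.lt_pow_succ_log_self (by norm_num) r
    have hodd : (3 ^ j : ℕ) % 2 = 1 := Nat.odd_iff.1 (Odd.pow (by decide))
    have h3 : (3:ℕ) ^ (j + 1) = 3 * 3 ^ j := by rw [pow_succ]; ring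
    rcases lt_or_ge (3 ^ (j + 1)) (2 * r) with hc | hc
    · -- base case
      have h4 : 3 * 3 ^ (j + 1) ≤ 3 ^ t := three_mul_le_of_lt (by omega)
      obtain ⟨h', hh'⟩ : ∃ h', 3 ^ j = 2 * h' + 1 := ⟨3 ^ j / 2, by omega⟩
      -- h = 3 h' + 1
      rcases Nat.even_or_odd' (r / 3 - h') with ⟨u, hu | hu⟩
      · exact ZProp.base_odd (h := 3 * h' + 1) (u := u) (s := (3 * h' + 1 - (6 * u + 1)) / 3)
          (R := 3 ^ (j + 1)) rfl (by omega) (by omega) (by omega) rfl h4 (by omega)
          (hn _ (by omega))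
      · exact ZProp.base_even (h := 3 * h' + 1) (u := u) (s := (3 * h' + 1 - (6 * u + 4)) / 3)
          (R := 3 ^ (j + 1)) rfl (by omega) (by omega) (by omega) rfl h4 (by omega)
          (hn _ (by omega))
    · -- shift case
      rcases Nat.eq_zero_or_pos j with hj0 | hj0
      · rw [hj0] at h1 h2 h3 hc
        norm_num at h1 h2 h3 hc
        omega
      · obtain ⟨i, hi⟩ : ∃ i, j = i + 1 := ⟨j - 1, by omega⟩
        have h5 : (3:ℕ) ^ j = 3 * 3 ^ i := by rw [hi, pow_succ]; ring
        have h6 := ih (r - 3 ^ j) (by omega) (by omega) (by omega) j (by omega)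
        have h7 := ZProp.shift (q := 3 ^ j) (j := i) (t := t) (Q := 3 ^ t) (by rw [hi]) rfl
          (three_mul_le_of_lt (by omega)) (by omega) h6
        have h8 : 3 ^ j + (r - 3 ^ j) = r := by omega
        rwa [h8] at h7

theorem good_all (n : ℕ) : Good (Icc 1 n) := by
  induction n using Nat.strong_induction_on with
  | _ n ih =>
    rcases Nat.eq_zero_or_pos n with hn | hn
    · subst hn
      have : Icc 1 0 = (∅ : Finset ℕ) := rfl
      rw [this]; exact Good.empty
    set t := Nat.log 3 n with ht
    have h1 : 3 ^ t ≤ n := Nat.pow_log_le_self 3 (by omega)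
    have h2 : n < 3 ^ (t + 1) := Nat.lt_pow_succ_log_self (by norm_num) n
    have hodd : (3 ^ t : ℕ) % 2 = 1 := Nat.odd_iff.1 (Odd.pow (by decide))
    have h3 : (3:ℕ) ^ (t + 1) = 3 * 3 ^ t := by rw [pow_succ]; ring
    rcases lt_or_ge (3 ^ (t + 1)) (2 * n) with hc | hc
    · -- pair off
      refine pairoff (Q := 3 ^ (t + 1)) rfl _ ?_ ?_
      · intro a ha
        rw [mem_Icc] at ha
        omega
      · refine good_congr (ih (3 ^ (t + 1) - n - 1) (by omega)) ?_
        intro x
        rw [mem_filter, mem_Icc, mem_Icc, mem_Icc]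
        omega
    · obtain ⟨r, hr⟩ : ∃ r, n = 3 ^ t + r := ⟨n - 3 ^ t, by omega⟩
      have h4 : 0 < 3 ^ t := by positivity
      have h5 : r % 3 = 0 ∨ r % 3 = 1 ∨ r % 3 = 2 := by omega
      rcases h5 with h5 | h5 | h5
      · have h6 : Good (hset (3 ^ t) r ∅) := by
          refine hset_good (s := r / 3) (t := t) rfl (by omega) (by omega) ∅ (by simp)
            (Icc 1 r) ?_ (ih r (by omega))
          intro d
          simp only [mem_Icc, notMem_empty, false_imp_iff, implies_true, false_and, exists_false,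
            or_false, true_and]
          omega
        refine good_congr h6 ?_
        intro x
        rw [mem_hset, mem_Icc]
        simp only [notMem_empty, false_imp_iff, implies_true, and_true]
        omega
      · have h6 : Good (Icc (3 ^ t - r) (3 ^ t + r)) := by
          refine good_W (m := r / 3) (P := 3 ^ t) rfl (by omega) _ ?_
          intro x
          rw [mem_Icc]
          omega
        have h7 : Good (Ico 1 (3 ^ t - r)) := by
          refine pairoff (Q := 3 ^ t) rfl _ ?_ ?_
          · intro a ha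
            rw [mem_Ico] at ha
            omega
          · refine good_congr (ih r (by omega)) ?_
            intro x
            rw [mem_filter, mem_Ico, mem_Ico, mem_Icc]
            omega
        refine good_of_split h7 h6 ?_ ?_
        · intro x hx hx'
          rw [mem_Ico] at hx
          rw [mem_Icc] at hx'
          omega
        · intro x
          rw [mem_Icc, mem_Ico, mem_Icc]
          omega
      · rw [hr]
        exact ZProp.good rfl (zprop_all n ih r (by omega) h5 t (by omega))

/-- Every `[n]` has a 3-good partition. -/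
theorem main (n : ℕ) : ∃ P : Finpartition (Icc 1 n), ∀ p ∈ P.parts,
    p.card ≤ 3 ∧ ∃ j : ℕ, ∑ x ∈ p, x = 3 ^ j := (good_all n).finpartition

end Pool.Agent.Q224.ThreeGood
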